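import Pool.Agent.Work.MP_e214ac_gt.S.Dual
import Pool.Agent.Work.MP_e214ac_gt.G.Lin

/-!
# Module S/MorAff: affine homomorphisms are morphisms

`IsAffHom S S' ρ`: there are `N` (invertible real matrix) and `c` with `ρ(x_a) = ∑ N_ab x'_b + c_a`,
`∂'_b ρ(f) = ∑_a N_ab ρ(∂_a f)`, `ρ(P_ab) = ∑ N_ac N_bd P'_cd`.  Put `M = N⁻¹`; then
`ρ(∂_a f) = ∑_b M_ba ∂'_b ρ(f)`.

Proof.
* `br`: expand `S'.br (ρ f) (ρ g)`, insert `∂'_c ρ(f) = ∑ N_ac ρ(∂_a f)` and the formula for `ρ(P)`.
* `Qc` (`affHom_Qc`): `ρ (S.Qc F a b) = ∑ N_ac N_bd S'.Qc F c d`: by naturality (`evalHom_map`,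
  with the derivatives `∑_b M_ba ∂'_b` on `C`, which satisfy `ρ(∂_a f) = ∑_b M_ba ∂'_b ρ(f)`)
  the left side is `evalHom F (∑ M_ba ∂'_b) (∑ N N P') a b`, and `evalHom_lin` (`M * N = 1`) gives
  the claim.  Then `Q`: as for `br`.
* `D`: the map `ρ_ε : B[ε] → C[ε]`, `u ↦ inl (ρ u.fst) + inr (ρ u.snd)` is an algebra
  homomorphism, and `IsAffHom (S.dual ζ) (S'.dual ζ') ρ_ε` with the same `N`, `c`, where
  `ζ_a = v (x_a)`, `ζ'_b = v' (x'_b)`; the only thing used is `ρ(ζ_a) = ∑ N_ab ζ'_b`, which follows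
  from `v' (ρ f) = ρ (v f)` for `f = x_a` (`v'` kills constants).  Apply the statement for `Q`
  (`affHom_Q`, stated for all algebras) to `ρ_ε` and take second components.
* `push`: `v' = ∑_b (∑_a M_ba ρ(v x_a)) • ∂'_b`.
* `inj`: `v' (ρ x_a) = ∑_b N_ab v'(x'_b) = 0` for all `a`, `N` is invertible, so `v' (x'_b) = 0`, and
  `v' = 0` by `IsVF`.
-/

set_option autoImplicit false

namespace E214

variable {J : Type} [Fintype J] [DecidableEq J] {B : Type} [CommRing B] [Algebra ℝ B]
  {n : ℕ} {C : Type} [CommRing C] [Algebra ℝ C]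

private theorem morAff_bi {S : AffP J B} {S' : AffP J C} {ρ : B →ₐ[ℝ] C} {N : Matrix J J ℝ}
    (hd : ∀ b f, S'.d b (ρ f) = ∑ a, N a b • ρ (S.d a f)) (r : J → J → B) (r' : J → J → C)
    (hr : ∀ a b, ρ (r a b) = ∑ c, ∑ d, (N a c * N b d) • r' c d) (f g : B) :
    ρ (∑ a, ∑ b, r a b * S.d a f * S.d b g)
      = ∑ a, ∑ b, r' a b * S'.d a (ρ f) * S'.d b (ρ g) := by
  have h1 : ρ (∑ a, ∑ b, r a b * S.d a f * S.d b g)
      = ∑ a, ∑ b, ∑ c, ∑ d, (N a c * N b d) • (r' c d * ρ (S.d a f) * ρ (S.d b g)) := by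
    rw [map_sum]
    refine Finset.sum_congr rfl fun a _ => ?_
    rw [map_sum]
    refine Finset.sum_congr rfl fun b _ => ?_
    rw [map_mul, map_mul, hr, Finset.sum_mul, Finset.sum_mul]
    refine Finset.sum_congr rfl fun c _ => ?_
    rw [Finset.sum_mul, Finset.sum_mul]
    refine Finset.sum_congr rfl fun d _ => ?_
    rw [smul_mul_assoc, smul_mul_assoc]
  have h2 : ∀ c d, r' c d * S'.d c (ρ f) * S'.d d (ρ g)
      = ∑ a, ∑ b, (N a c * N b d) • (r' c d * ρ (S.d a f) * ρ (S.d b g)) := by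
    intro c d
    rw [hd, hd, mul_assoc, Finset.sum_mul_sum, Finset.mul_sum]
    refine Finset.sum_congr rfl fun a _ => ?_
    rw [Finset.mul_sum]
    refine Finset.sum_congr rfl fun b _ => ?_
    rw [smul_mul_smul_comm, mul_smul_comm, mul_assoc]
  rw [h1]
  simp only [h2]
  calc ∑ a, ∑ b, ∑ c, ∑ d, (N a c * N b d) • (r' c d * ρ (S.d a f) * ρ (S.d b g))
      = ∑ a, ∑ c, ∑ b, ∑ d, (N a c * N b d) • (r' c d * ρ (S.d a f) * ρ (S.d b g)) :=
        Finset.sum_congr rfl fun a _ => Finset.sum_comm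
    _ = ∑ c, ∑ a, ∑ b, ∑ d, (N a c * N b d) • (r' c d * ρ (S.d a f) * ρ (S.d b g)) :=
        Finset.sum_comm
    _ = ∑ c, ∑ a, ∑ d, ∑ b, (N a c * N b d) • (r' c d * ρ (S.d a f) * ρ (S.d b g)) :=
        Finset.sum_congr rfl fun c _ => Finset.sum_congr rfl fun a _ => Finset.sum_comm
    _ = ∑ c, ∑ d, ∑ a, ∑ b, (N a c * N b d) • (r' c d * ρ (S.d a f) * ρ (S.d b g)) :=
        Finset.sum_congr rfl fun c _ => Finset.sum_comm

private theorem morAff_d {S : AffP J B} {S' : AffP J C} {ρ : B →ₐ[ℝ] C} {N : Matrix J J ℝ}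
    (hd : ∀ b f, S'.d b (ρ f) = ∑ a, N a b • ρ (S.d a f)) (hNM : N * N⁻¹ = 1) (a : J) (f : B) :
    ρ (S.d a f) = ∑ b, N⁻¹ b a • S'.d b (ρ f) := by
  have h1 : ∀ b, N⁻¹ b a • S'.d b (ρ f) = ∑ e, (N e b * N⁻¹ b a) • ρ (S.d e f) := by
    intro b
    rw [hd, Finset.smul_sum]
    refine Finset.sum_congr rfl fun e _ => ?_
    rw [smul_smul, mul_comm]
  simp only [h1]
  rw [Finset.sum_comm]
  have h2 : ∀ e, ∑ b, (N e b * N⁻¹ b a) • ρ (S.d e f)
      = (if e = a then (1 : ℝ) else 0) • ρ (S.d e f) := by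
    intro e
    rw [← Finset.sum_smul, ← Matrix.mul_apply, hNM, Matrix.one_apply]
  simp only [h2]
  rw [Finset.sum_eq_single a]
  · rw [if_pos rfl, one_smul]
  · intro e _ he
    rw [if_neg he, zero_smul]
  · intro h; exact absurd (Finset.mem_univ a) h

private theorem morAff_br {S : AffP J B} {S' : AffP J C} {ρ : B →ₐ[ℝ] C} (h : IsAffHom S S' ρ)
    (f g : B) : ρ (S.br f g) = S'.br (ρ f) (ρ g) := by
  obtain ⟨N, c, hN, hx, hd, hP⟩ := h
  exact morAff_bi hd S.P S'.P hP f g

theorem affHom_Q {S : AffP J B} {S' : AffP J C} {ρ : B →ₐ[ℝ] C} (h : IsAffHom S S' ρ)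
    (F : List (ℝ × Diagram n)) (f g : B) : ρ (S.Q F f g) = S'.Q F (ρ f) (ρ g) := by
  obtain ⟨N, c, hN, hx, hd, hP⟩ := h
  have hMN : N⁻¹ * N = 1 := Matrix.nonsing_inv_mul N hN
  have hNM : N * N⁻¹ = 1 := Matrix.mul_nonsing_inv N hN
  refine morAff_bi hd (S.Qc F) (S'.Qc F) (fun a b => ?_) f g
  have h1 := evalHom_map ρ (fun c f => S.d c f) (fun a u => ∑ b, N⁻¹ b a • S'.d b u)
    (fun a f => morAff_d hd hNM a f) S.P F a b
  have h2 := evalHom_lin F (fun b => (S'.d b : C →ₗ[ℝ] C)) S'.P N N⁻¹ hMN a b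
  unfold AffP.Qc
  rw [h1, show (fun a b => ρ (S.P a b)) = fun a b => ∑ c, ∑ e, (N a c * N b e) • S'.P c e from
    funext fun a => funext fun b => hP a b]
  exact h2

open TrivSqZeroExt

/-- the homomorphism `f + ε g ↦ ρ f + ε ρ g` -/
private noncomputable def morAff_ρ (ρ : B →ₐ[ℝ] C) : DualNumber B →ₐ[ℝ] DualNumber C :=
  AlgHom.ofLinearMap
    { toFun := fun u => inl (ρ u.fst) + inr (ρ u.snd)
      map_add' := fun f g => by
        refine TrivSqZeroExt.ext ?_ ?_
        · simp
        · simp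
      map_smul' := fun c f => by
        refine TrivSqZeroExt.ext ?_ ?_
        · simp
        · simp }
    (by
      change inl (ρ (1 : DualNumber B).fst) + inr (ρ (1 : DualNumber B).snd) = 1
      rw [fst_one, snd_one, map_one, map_zero]
      simp)
    (fun f g => by
      change inl (ρ (f * g).fst) + inr (ρ (f * g).snd)
        = (inl (ρ f.fst) + inr (ρ f.snd)) * (inl (ρ g.fst) + inr (ρ g.snd))
      refine TrivSqZeroExt.ext ?_ ?_
      · simp
      · rw [DualNumber.snd_mul, DualNumber.snd_mul]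
        simp)

private theorem morAff_ρ_fst (ρ : B →ₐ[ℝ] C) (u : DualNumber B) :
    (morAff_ρ ρ u).fst = ρ u.fst := by
  change (inl (ρ u.fst) + inr (ρ u.snd) : DualNumber C).fst = _
  rw [fst_add, fst_inl, fst_inr, add_zero]

private theorem morAff_ρ_snd (ρ : B →ₐ[ℝ] C) (u : DualNumber B) :
    (morAff_ρ ρ u).snd = ρ u.snd := by
  change (inl (ρ u.fst) + inr (ρ u.snd) : DualNumber C).snd = _
  rw [snd_add, snd_inl, snd_inr, zero_add]

theorem mor_of_affHom {S : AffP J B} {S' : AffP J C} {ρ : B →ₐ[ℝ] C} (h : IsAffHom S S' ρ)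
    (F : List (ℝ × Diagram n)) : Mor F S S' ρ := by
  have hρ := h
  obtain ⟨N, c, hN, hx, hd, hP⟩ := h
  have hMN : N⁻¹ * N = 1 := Matrix.nonsing_inv_mul N hN
  have hNM : N * N⁻¹ = 1 := Matrix.mul_nonsing_inv N hN
  have hb : IsBi S' S'.br := isBi_br S'
  refine { br := morAff_br hρ, Q := affHom_Q hρ F, D := ?_, push := ?_, inj := ?_ }
  · intro v v' hv hv' hvv f g
    have hζ : ∀ a, ρ (v (S.x a)) = ∑ b, N a b • v' (S'.x b) := by
      intro a
      rw [← hvv, hx, map_add, map_sum, Derivation.map_algebraMap, add_zero]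
      exact Finset.sum_congr rfl fun b _ => Derivation.map_smul _ _ _
    have haff : IsAffHom (S.dual fun a => v (S.x a)) (S'.dual fun a => v' (S'.x a))
        (morAff_ρ ρ) := by
      refine ⟨N, c, hN, fun a => ?_, fun b u => ?_, fun a b => ?_⟩
      · refine TrivSqZeroExt.ext ?_ ?_
        · rw [morAff_ρ_fst, fst_add, fst_sum]
          change ρ (inl (S.x a) + inr (v (S.x a)) : DualNumber B).fst = _
          rw [fst_add, fst_inl, fst_inr, add_zero, hx]
          congr 1
          refine Finset.sum_congr rfl fun b _ => ?_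
          rw [fst_smul]
          change _ = N a b • (inl (S'.x b) + inr (v' (S'.x b)) : DualNumber C).fst
          rw [fst_add, fst_inl, fst_inr, add_zero]
        · rw [morAff_ρ_snd, snd_add, snd_sum]
          change ρ (inl (S.x a) + inr (v (S.x a)) : DualNumber B).snd = _
          rw [snd_add, snd_inl, snd_inr, zero_add, hζ]
          change _ = _ + (0 : C)
          rw [add_zero]
          refine Finset.sum_congr rfl fun b _ => ?_
          rw [snd_smul]
          change _ = N a b • (inl (S'.x b) + inr (v' (S'.x b)) : DualNumber C).snd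
          rw [snd_add, snd_inl, snd_inr, zero_add]
      · refine TrivSqZeroExt.ext ?_ ?_
        · rw [fst_sum]
          change (S'.dualDer _ b (morAff_ρ ρ u)).fst = _
          rw [S'.dualDer_fst, morAff_ρ_fst, hd]
          refine Finset.sum_congr rfl fun a _ => ?_
          rw [fst_smul, morAff_ρ_fst]
          change _ = N a b • ρ (S.dualDer _ a u).fst
          rw [S.dualDer_fst]
        · rw [snd_sum]
          change (S'.dualDer _ b (morAff_ρ ρ u)).snd = _
          rw [S'.dualDer_snd, morAff_ρ_fst, morAff_ρ_snd, hd]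
          have e1 : ∀ a, (N a b • (morAff_ρ ρ) ((S.dual fun a => v (S.x a)).d a u)).snd
              = N a b • ρ (S.d a u.snd) - ∑ k, N a b • (ρ (S.d a (v (S.x k))) * ρ (S.d k u.fst)) := by
            intro a
            rw [snd_smul, morAff_ρ_snd]
            change N a b • ρ (S.dualDer _ a u).snd = _
            rw [S.dualDer_snd, map_sub, map_sum, smul_sub, Finset.smul_sum]
            congr 1
            exact Finset.sum_congr rfl fun k _ => by rw [map_mul]
          simp only [e1, Finset.sum_sub_distrib]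
          congr 1
          rw [Finset.sum_comm]
          have e2 : ∀ k, ∑ a, N a b • (ρ (S.d a (v (S.x k))) * ρ (S.d k u.fst))
              = ∑ e, S'.d b (v' (S'.x e)) * (N k e • ρ (S.d k u.fst)) := by
            intro k
            have e3 : ∑ a, N a b • (ρ (S.d a (v (S.x k))) * ρ (S.d k u.fst))
                = S'.d b (ρ (v (S.x k))) * ρ (S.d k u.fst) := by
              rw [hd, Finset.sum_mul]
              exact Finset.sum_congr rfl fun a _ => by rw [smul_mul_assoc]
            rw [e3, hζ, map_sum, Finset.sum_mul]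
            refine Finset.sum_congr rfl fun e _ => ?_
            rw [Derivation.map_smul, smul_mul_assoc, mul_smul_comm]
          simp only [e2]
          rw [Finset.sum_comm]
          refine Finset.sum_congr rfl fun e _ => ?_
          rw [hd e u.fst, Finset.mul_sum]
      · refine TrivSqZeroExt.ext ?_ ?_
        · rw [morAff_ρ_fst]
          change ρ (inl (S.P a b) + inr _ : DualNumber B).fst = _
          rw [fst_add, fst_inl, fst_inr, add_zero, hP, fst_sum]
          refine Finset.sum_congr rfl fun k _ => ?_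
          rw [fst_sum]
          refine Finset.sum_congr rfl fun l _ => ?_
          rw [fst_smul]
          change _ = (N a k * N b l) • (inl (S'.P k l) + inr _ : DualNumber C).fst
          rw [fst_add, fst_inl, fst_inr, add_zero]
        · rw [morAff_ρ_snd]
          change ρ (inl (S.P a b) + inr (S.br (v (S.x a)) (S.x b) + S.br (S.x a) (v (S.x b))) :
            DualNumber B).snd = _
          rw [snd_add, snd_inl, snd_inr, zero_add, map_add, morAff_br hρ, morAff_br hρ, hζ, hζ,
            hx, hx, hb.add_right, hb.const_right, hb.add_left, hb.const_left, add_zero, add_zero,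
            snd_sum, hb.sum_left, hb.sum_left, ← Finset.sum_add_distrib]
          refine Finset.sum_congr rfl fun k _ => ?_
          rw [snd_sum, hb.sum_right, hb.sum_right, ← Finset.sum_add_distrib]
          refine Finset.sum_congr rfl fun l _ => ?_
          rw [snd_smul]
          change _ = (N a k * N b l) • (inl (S'.P k l)
            + inr (S'.br (v' (S'.x k)) (S'.x l) + S'.br (S'.x k) (v' (S'.x l))) :
              DualNumber C).snd
          rw [snd_add, snd_inl, snd_inr, zero_add, hb.smul_left, hb.smul_left, hb.smul_right,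
            hb.smul_right, smul_smul, smul_smul, smul_add]
    have h1 := affHom_Q haff F (inl f) (inl g)
    have h2 : ∀ u : B, morAff_ρ ρ (inl u) = inl (ρ u) := by
      intro u
      refine TrivSqZeroExt.ext ?_ ?_
      · rw [morAff_ρ_fst, fst_inl, fst_inl]
      · rw [morAff_ρ_snd, snd_inl, snd_inl, map_zero]
    rw [h2, h2] at h1
    have h3 := congrArg TrivSqZeroExt.snd h1
    rw [morAff_ρ_snd] at h3
    exact h3
  · intro v hv
    refine ⟨∑ b, (∑ a, N⁻¹ b a • ρ (v (S.x a))) • S'.d b, S'.isVF_sum _ _ fun b _ =>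
      S'.isVF_smul _ (S'.isVF_d b), fun f => ?_⟩
    rw [der_comb_apply, hv f, map_sum]
    simp only [Finset.sum_mul]
    rw [Finset.sum_comm]
    refine Finset.sum_congr rfl fun a _ => ?_
    rw [map_mul, morAff_d hd hNM, Finset.mul_sum]
    refine Finset.sum_congr rfl fun b _ => ?_
    rw [smul_mul_assoc, mul_smul_comm]
  · intro v' hv' h0
    have h1 : ∀ a, ∑ b, N a b • v' (S'.x b) = 0 := by
      intro a
      rw [← h0 (S.x a), hx, map_add, map_sum, Derivation.map_algebraMap, add_zero]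
      exact Finset.sum_congr rfl fun b _ => (Derivation.map_smul _ _ _).symm
    have h2 : ∀ e, v' (S'.x e) = 0 := by
      intro e
      have h3 : ∑ a, N⁻¹ e a • ∑ b, N a b • v' (S'.x b) = v' (S'.x e) := by
        simp only [Finset.smul_sum, smul_smul]
        rw [Finset.sum_comm]
        have h4 : ∀ b, ∑ a, (N⁻¹ e a * N a b) • v' (S'.x b)
            = (if e = b then (1 : ℝ) else 0) • v' (S'.x b) := by
          intro b
          rw [← Finset.sum_smul, ← Matrix.mul_apply, hMN, Matrix.one_apply]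
        simp only [h4]
        rw [Finset.sum_eq_single e]
        · rw [if_pos rfl, one_smul]
        · intro b _ hbe
          rw [if_neg (Ne.symm hbe), zero_smul]
        · intro h; exact absurd (Finset.mem_univ e) h
      rw [← h3]
      exact Finset.sum_eq_zero fun a _ => by rw [h1, smul_zero]
    ext g
    rw [hv' g]
    simp [h2]

end E214
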