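import Pool.Agent.Work.MP_e214ac_gt.S.FrameDO

/-!
# Module S/OpB: matrix operators on vector fields

`D.op T v = ∑_j (∑_k T_jk (v ψ_k)) E_j`, `D.op1 μ v = ∑_k μ_k (v ψ_k)`.

Proof.
* `op_psi`, `op_isVF`, additivity: `Darb.comb_psi`, `Darb.isVF_comb`, linearity of `T_jk`.
* `op_changeFrame`: for `v` a vector field `v(ψ'_k) = ∑_i v(ψ_i) E_i(ψ'_k)` (`frame_expand`), so
  `(D'.op T v)(ψ_j) = ∑_l (∑_k T_lk (v ψ'_k)) E'_l(ψ_j) = ∑_i T₂_ji (v ψ_i)` with
  `T₂_ji = ∑_{l k} mulLeft (E'_l ψ_j) * T_lk * mulLeft (E_i ψ'_k)`, which is in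
  `DOalg D'.E = DOalg S.d = DOalg D.E` (`Darb.DOalg_eq`, `sandwich_mem_DOalg`).  Both sides are vector
  fields with the same `ψ`-components (`Darb.isVF_ext`).
* `op1_changeFrame`: the same.
* `ham_psi`: `(ham f)(ψ_k) = {f, ψ_k}`.
* `op1_ham_mem`: `f ↦ ∑_k μ_k {f, ψ_k}` is a differential operator:
  `{f, ψ_k} = s_{τ k} E_{τ k} f`.
-/

set_option autoImplicit false

namespace E214

variable {J : Type} [Fintype J] [DecidableEq J] {B : Type} [CommRing B] [Algebra ℝ B]
  {S : AffP J B}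

theorem Darb.op_psi (D : Darb S) (T : J → J → Module.End ℝ B) (v : Derivation ℝ B B) (j : J) :
    D.op T v (D.ψ j) = ∑ k, T j k (v (D.ψ k)) := by
  unfold Darb.op
  rw [D.comb_psi]

theorem Darb.op_isVF (D : Darb S) (T : J → J → Module.End ℝ B) (v : Derivation ℝ B B) :
    S.IsVF (D.op T v) := by
  exact D.isVF_comb _

theorem Darb.op_add (D : Darb S) (T : J → J → Module.End ℝ B) (v w : Derivation ℝ B B) :
    D.op T (v + w) = D.op T v + D.op T w := by
  refine D.isVF_ext (D.op_isVF T _) (S.isVF_add (D.op_isVF T v) (D.op_isVF T w)) fun j => ?_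
  rw [Derivation.add_apply, D.op_psi, D.op_psi, D.op_psi, ← Finset.sum_add_distrib]
  exact Finset.sum_congr rfl fun k _ => by rw [Derivation.add_apply, map_add]

theorem Darb.op_sub (D : Darb S) (T : J → J → Module.End ℝ B) (v w : Derivation ℝ B B) :
    D.op T (v - w) = D.op T v - D.op T w := by
  refine D.isVF_ext (D.op_isVF T _) (S.isVF_sub (D.op_isVF T v) (D.op_isVF T w)) fun j => ?_
  rw [Derivation.sub_apply, D.op_psi, D.op_psi, D.op_psi, ← Finset.sum_sub_distrib]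
  exact Finset.sum_congr rfl fun k _ => by rw [Derivation.sub_apply, map_sub]

theorem Darb.op1_add (D : Darb S) (T : J → Module.End ℝ B) (v w : Derivation ℝ B B) :
    D.op1 T (v + w) = D.op1 T v + D.op1 T w := by
  unfold Darb.op1
  rw [← Finset.sum_add_distrib]
  exact Finset.sum_congr rfl fun k _ => by rw [Derivation.add_apply, map_add]

theorem Darb.op1_sub (D : Darb S) (T : J → Module.End ℝ B) (v w : Derivation ℝ B B) :
    D.op1 T (v - w) = D.op1 T v - D.op1 T w := by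
  unfold Darb.op1
  rw [← Finset.sum_sub_distrib]
  exact Finset.sum_congr rfl fun k _ => by rw [Derivation.sub_apply, map_sub]

theorem Darb.op_changeFrame (D D' : Darb S) (T : J → J → Module.End ℝ B)
    (hT : ∀ j k, T j k ∈ DOalg D'.E) :
    ∃ T₂ : J → J → Module.End ℝ B, (∀ j k, T₂ j k ∈ DOalg D.E) ∧
      ∀ v, S.IsVF v → D'.op T v = D.op T₂ v := by
  refine ⟨fun j i => ∑ l, ∑ k, (LinearMap.mulLeft ℝ (D'.E l (D.ψ j)) : Module.End ℝ B) * T l k *
    (LinearMap.mulLeft ℝ (D.E i (D'.ψ k)) : Module.End ℝ B), fun j i => ?_, fun v hv => ?_⟩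
  · rw [D.DOalg_eq, ← D'.DOalg_eq]
    exact Subalgebra.sum_mem _ fun l _ => Subalgebra.sum_mem _ fun k _ =>
      sandwich_mem_DOalg D'.E (T l k) (hT l k) _ _
  · refine D.isVF_ext (D'.op_isVF T v) (D.op_isVF _ v) fun j => ?_
    rw [D.op_psi]
    unfold Darb.op
    rw [D'.comb_apply]
    simp only [LinearMap.sum_apply]
    rw [Finset.sum_comm]
    refine Finset.sum_congr rfl fun l _ => ?_
    rw [Finset.sum_comm, Finset.sum_mul]
    refine Finset.sum_congr rfl fun k _ => ?_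
    rw [D.frame_expand v hv (D'.ψ k), map_sum, Finset.sum_mul]
    refine Finset.sum_congr rfl fun i _ => ?_
    change _ = D'.E l (D.ψ j) * T l k (D.E i (D'.ψ k) * v (D.ψ i))
    rw [mul_comm (D.E i (D'.ψ k)) (v (D.ψ i)), mul_comm]

theorem Darb.op1_changeFrame (D D' : Darb S) (T : J → Module.End ℝ B)
    (hT : ∀ k, T k ∈ DOalg D'.E) :
    ∃ T₂ : J → Module.End ℝ B, (∀ k, T₂ k ∈ DOalg D.E) ∧
      ∀ v, S.IsVF v → D'.op1 T v = D.op1 T₂ v := by
  refine ⟨fun i => ∑ k, (LinearMap.mulLeft ℝ (1 : B) : Module.End ℝ B) * T k *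
    (LinearMap.mulLeft ℝ (D.E i (D'.ψ k)) : Module.End ℝ B), fun i => ?_, fun v hv => ?_⟩
  · rw [D.DOalg_eq, ← D'.DOalg_eq]
    exact Subalgebra.sum_mem _ fun k _ => sandwich_mem_DOalg D'.E (T k) (hT k) _ _
  · unfold Darb.op1
    simp only [LinearMap.sum_apply]
    rw [Finset.sum_comm]
    refine Finset.sum_congr rfl fun k _ => ?_
    rw [D.frame_expand v hv (D'.ψ k), map_sum]
    refine Finset.sum_congr rfl fun i _ => ?_
    change _ = 1 * T k (D.E i (D'.ψ k) * v (D.ψ i))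
    rw [mul_comm (D.E i (D'.ψ k)) (v (D.ψ i)), one_mul]

theorem Darb.op1_ham_mem (D : Darb S) (T : J → Module.End ℝ B)
    (hT : ∀ k, T k ∈ DOalg D.E) :
    ∃ R ∈ DOalg D.E, ∀ f, R f = D.op1 T (S.ham f) := by
  refine ⟨∑ k, T k * (D.s (D.τ k) • ((D.E (D.τ k) : B →ₗ[ℝ] B) : Module.End ℝ B)), ?_, fun f => ?_⟩
  · exact Subalgebra.sum_mem _ fun k _ => Subalgebra.mul_mem _ (hT k)
      (Subalgebra.smul_mem _ (der_mem_DOalg D.E _) _)
  · rw [LinearMap.sum_apply]
    unfold Darb.op1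
    refine Finset.sum_congr rfl fun k _ => ?_
    rw [S.ham_apply, D.br_psi]
    rfl

/-- evaluation on the vector field `f E_k` -/
theorem Darb.op1_single (D : Darb S) (T : J → Module.End ℝ B) (k : J) (f : B) :
    D.op1 T (f • D.E k) = T k f := by
  unfold Darb.op1
  rw [Finset.sum_eq_single k]
  · rw [Derivation.smul_apply, D.hEψ, if_pos rfl, smul_eq_mul, mul_one]
  · intro j _ hj
    rw [Derivation.smul_apply, D.hEψ, if_neg (Ne.symm hj), smul_zero, map_zero]
  · intro h; exact absurd (Finset.mem_univ k) h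

theorem Darb.op_single (D : Darb S) (T : J → J → Module.End ℝ B) (k : J) (f : B) (j : J) :
    D.op T (f • D.E k) (D.ψ j) = T j k f := by
  rw [D.op_psi, Finset.sum_eq_single k]
  · rw [Derivation.smul_apply, D.hEψ, if_pos rfl, smul_eq_mul, mul_one]
  · intro j _ hj
    rw [Derivation.smul_apply, D.hEψ, if_neg (Ne.symm hj), smul_zero, map_zero]
  · intro h; exact absurd (Finset.mem_univ k) h

end E214
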