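import Pool.Agent.Work.MP_e214ac_gt.S.Dual
import Pool.Agent.Work.MP_e214ac_gt.G.Scale

/-!
# Module S/Homog: the variation along a conformal vector field

If `L_v P = - lam P` then `𝒟(v) = n lam Q + L_v Q`.

Proof.  Put `ζ_a = v (x_a)`, `S^ε = S.dual ζ`, and let `σ : B → B[ε]`, `σ f = inl f + inr (v f)`, an
algebra homomorphism because `v` is a derivation.
* `σ (x_a) = x^ε_a`, and `σ (∂_a f) = ∂^ε_a (σ f)`: the second component of the right side is
  `∂_a (v f) - ∑_b (∂_a ζ_b) ∂_b f`, and `∂_a (v f) = ∑_b (∂_a ζ_b) ∂_b f + ∑_b ζ_b ∂_a ∂_b f`,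
  `v (∂_a f) = ∑_b ζ_b ∂_b ∂_a f` (`hv`).
* `P^ε_ab = (1 + lam ε) σ (P_ab)`: second components:
  `{ζ_a, x_b} + {x_a, ζ_b} = v {x_a, x_b} + lam {x_a, x_b}` by the hypothesis `h` with
  `f = x_a`, `g = x_b`.
* `∂^ε_a ((1 + lam ε) u) = (1 + lam ε) ∂^ε_a u`.
Hence by `evalHom_scale` and `evalHom_map`
`S^ε.Qc F a b = (1 + lam ε)^n σ (S.Qc F a b) = (1 + n lam ε) σ (S.Qc F a b)`, and
`S^ε.Q F (σ f) (σ g) = (1 + n lam ε) σ (S.Q F f g)` (expand `Q` in the frame, use
`∂^ε_a (σ f) = σ (∂_a f)`).  Second components: on the right `v (Q f g) + n lam Q f g`.  On the left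
`σ f = inl f + inr (v f)`, `S^ε.Q` is additive in both arguments, and
`S^ε.Q (inr f') (w)` has the second component `Q f' w.fst` (`inr f' = ε f'`, `∂^ε_a (inr f') =
inr (∂_a f')`): so the left side is `D F v f g + Q (v f) g + Q f (v g)`.
-/

set_option autoImplicit false

namespace E214

variable {J : Type} [Fintype J] [DecidableEq J] {B : Type} [CommRing B] [Algebra ℝ B]
  {n : ℕ}

open TrivSqZeroExt

private theorem homog_snd_mul (u w : DualNumber B) :
    (u * w).snd = u.fst * w.snd + u.snd * w.fst := by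
  rw [DualNumber.snd_mul]

/-- the algebra homomorphism `f ↦ f + ε v(f)` -/
private noncomputable def homog_σ (v : Derivation ℝ B B) : B →ₐ[ℝ] DualNumber B :=
  AlgHom.ofLinearMap
    { toFun := fun f => inl f + inr (v f)
      map_add' := fun f g => by
        refine TrivSqZeroExt.ext ?_ ?_
        · simp
        · simp
      map_smul' := fun c f => by
        refine TrivSqZeroExt.ext ?_ ?_
        · simp
        · simp }
    (by
      change inl (1 : B) + inr (v 1) = 1
      rw [Derivation.map_one_eq_zero]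
      simp)
    (fun f g => by
      change inl (f * g) + inr (v (f * g)) = (inl f + inr (v f)) * (inl g + inr (v g))
      refine TrivSqZeroExt.ext ?_ ?_
      · simp
      · rw [homog_snd_mul]
        simp [Derivation.leibniz]
        ring)

private theorem homog_σ_fst (v : Derivation ℝ B B) (f : B) : (homog_σ v f).fst = f := by
  change (inl f + inr (v f) : DualNumber B).fst = f
  rw [fst_add, fst_inl, fst_inr, add_zero]

private theorem homog_σ_snd (v : Derivation ℝ B B) (f : B) : (homog_σ v f).snd = v f := by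
  change (inl f + inr (v f) : DualNumber B).snd = v f
  rw [snd_add, snd_inl, snd_inr, zero_add]

private theorem homog_Q_snd (S : AffP J B) (F : List (ℝ × Diagram n)) (ζ : J → B)
    (u w : DualNumber B) : ((S.dual ζ).Q F u w).snd
      = ∑ a, ∑ b, (S.Qc F a b * S.d a u.fst * (S.d b w.snd - ∑ c, S.d b (ζ c) * S.d c w.fst)
        + (S.Qc F a b * (S.d a u.snd - ∑ c, S.d a (ζ c) * S.d c u.fst)
          + ((S.dual ζ).Qc F a b).snd * S.d a u.fst) * S.d b w.fst) := by
  conv_lhs => unfold AffP.Q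
  rw [snd_sum]
  refine Finset.sum_congr rfl fun a _ => ?_
  rw [snd_sum]
  refine Finset.sum_congr rfl fun b _ => ?_
  rw [homog_snd_mul, homog_snd_mul, fst_mul, dual_Qc_fst]
  change S.Qc F a b * (S.dualDer ζ a u).fst * (S.dualDer ζ b w).snd
    + (S.Qc F a b * (S.dualDer ζ a u).snd + ((S.dual ζ).Qc F a b).snd
      * (S.dualDer ζ a u).fst) * (S.dualDer ζ b w).fst = _
  rw [S.dualDer_fst, S.dualDer_fst, S.dualDer_snd, S.dualDer_snd]

private theorem homog_pow (c : DualNumber B) (lam : ℝ) (hc0 : c.fst = 1)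
    (hc1 : c.snd = algebraMap ℝ B lam) (m : ℕ) :
    (c ^ m).snd = algebraMap ℝ B ((m : ℝ) * lam) := by
  induction m with
  | zero => simp
  | succ m ih =>
    rw [pow_succ, homog_snd_mul, hc0, hc1, fst_pow, hc0, one_pow, ih, one_mul, mul_one, ← map_add]
    congr 1
    push_cast
    ring

theorem homog (S : AffP J B) (F : List (ℝ × Diagram n)) (v : Derivation ℝ B B) (hv : S.IsVF v)
    (lam : ℝ) (h : ∀ f g, lieB v S.br f g = -(lam • S.br f g)) (f g : B) :
    S.D F v f g = ((n : ℝ) * lam) • S.Q F f g + lieB v (S.Q F) f g := by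
  set ζ : J → B := fun a => v (S.x a) with hζ
  have hσd : ∀ a u, (S.dual ζ).d a (homog_σ v u) = homog_σ v (S.d a u) := by
    intro a u
    change S.dualDer ζ a (homog_σ v u) = homog_σ v (S.d a u)
    refine TrivSqZeroExt.ext ?_ ?_
    · rw [S.dualDer_fst, homog_σ_fst, homog_σ_fst]
    · rw [S.dualDer_snd, homog_σ_fst, homog_σ_snd, homog_σ_snd, hv u, hv (S.d a u), map_sum,
        ← Finset.sum_sub_distrib]
      refine Finset.sum_congr rfl fun b _ => ?_
      rw [Derivation.leibniz, S.hdd a b u]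
      simp only [smul_eq_mul, hζ]
      ring
  set c : DualNumber B := inl 1 + inr (algebraMap ℝ B lam) with hc
  have hc0 : c.fst = 1 := by rw [hc, fst_add, fst_inl, fst_inr, add_zero]
  have hc1 : c.snd = algebraMap ℝ B lam := by rw [hc, snd_add, snd_inl, snd_inr, zero_add]
  have hP : ∀ a b, (S.dual ζ).P a b = c * homog_σ v (S.P a b) := by
    intro a b
    change inl (S.P a b) + inr (S.br (ζ a) (S.x b) + S.br (S.x a) (ζ b)) = _
    refine TrivSqZeroExt.ext ?_ ?_
    · rw [fst_add, fst_inl, fst_inr, fst_mul, hc0, homog_σ_fst, add_zero, one_mul]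
    · rw [snd_add, snd_inl, snd_inr, homog_snd_mul, hc0, hc1, homog_σ_fst, homog_σ_snd]
      have h1 := h (S.x a) (S.x b)
      unfold lieB at h1
      rw [S.br_x, Algebra.smul_def] at h1
      linear_combination -h1
  have hdc : ∀ a, (S.dual ζ).d a c = 0 := by
    intro a
    change S.dualDer ζ a c = 0
    refine TrivSqZeroExt.ext ?_ ?_
    · rw [S.dualDer_fst, hc0, fst_zero, Derivation.map_one_eq_zero]
    · rw [S.dualDer_snd, hc0, hc1, snd_zero, Derivation.map_algebraMap]
      simp
  have hdcu : ∀ a u, (S.dual ζ).d a (c * u) = c * (S.dual ζ).d a u := by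
    intro a u
    rw [Derivation.leibniz, hdc]
    simp
  have hQc : ∀ a b, (S.dual ζ).Qc F a b = c ^ n * homog_σ v (S.Qc F a b) := by
    intro a b
    unfold AffP.Qc
    rw [show (S.dual ζ).P = fun a b => c * homog_σ v (S.P a b) from
      funext fun a => funext fun b => hP a b]
    rw [evalHom_scale F (fun a u => (S.dual ζ).d a u) c hdcu (fun a b => homog_σ v (S.P a b)) a b,
      ← evalHom_map (homog_σ v) (fun a u => S.d a u) (fun a u => (S.dual ζ).d a u)
        (fun a u => (hσd a u).symm) S.P F a b]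
  have hcn0 : (c ^ n).fst = 1 := by rw [fst_pow, hc0, one_pow]
  have hcn1 : (c ^ n).snd = algebraMap ℝ B ((n : ℝ) * lam) := homog_pow c lam hc0 hc1 n
  have hQ : ((S.dual ζ).Q F (homog_σ v f) (homog_σ v g)) = c ^ n * homog_σ v (S.Q F f g) := by
    unfold AffP.Q
    rw [map_sum, Finset.mul_sum]
    refine Finset.sum_congr rfl fun a _ => ?_
    rw [map_sum, Finset.mul_sum]
    refine Finset.sum_congr rfl fun b _ => ?_
    rw [hQc, hσd, hσd, map_mul, map_mul]
    ring
  have h1 : ((S.dual ζ).Q F (homog_σ v f) (homog_σ v g)).snd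
      = v (S.Q F f g) + algebraMap ℝ B ((n : ℝ) * lam) * S.Q F f g := by
    rw [hQ, homog_snd_mul, hcn0, hcn1, homog_σ_fst, homog_σ_snd, one_mul]
  have h2 : ((S.dual ζ).Q F (homog_σ v f) (homog_σ v g)).snd
      = ((S.dual ζ).Q F (inl f) (inl g)).snd + S.Q F (v f) g + S.Q F f (v g) := by
    rw [homog_Q_snd, homog_Q_snd, homog_σ_fst, homog_σ_snd, homog_σ_fst, homog_σ_snd, fst_inl,
      snd_inl, fst_inl, snd_inl]
    have e1 : S.Q F (v f) g = ∑ a, ∑ b, S.Qc F a b * S.d a (v f) * S.d b g := rfl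
    have e2 : S.Q F f (v g) = ∑ a, ∑ b, S.Qc F a b * S.d a f * S.d b (v g) := rfl
    rw [e1, e2, ← Finset.sum_add_distrib, ← Finset.sum_add_distrib]
    refine Finset.sum_congr rfl fun a _ => ?_
    rw [← Finset.sum_add_distrib, ← Finset.sum_add_distrib]
    refine Finset.sum_congr rfl fun b _ => ?_
    rw [map_zero, map_zero]
    ring
  have h3 : S.D F v f g = ((S.dual ζ).Q F (inl f) (inl g)).snd := rfl
  rw [h3, Algebra.smul_def]
  unfold lieB
  linear_combination h1 - h2

end E214
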