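import Pool.Agent.Work.MP_e214ac_gt.S.OpB
import Pool.Agent.Work.MP_e214ac_gt.S.Homog

/-!
# Module S/Prim: the local primitive

Notation: `δ_j f = {f, ψ_j}`, `Q^{jk} = Q ψ_j ψ_k`, `[j] = 1` if `j ∈ L`, `0` otherwise.
`Y^k = β(V) ψ_k + ∑_l a_l Q^{lk}`, `X^k = Y^k / (n - 1 - [k])`.

Proof.
1. (`prim_Y`) `δ_j Y^k - δ_k Y^j = (n - [j] - [k]) Q^{jk}`:
   * `δ_j (β(V) ψ_k) - δ_k (β(V) ψ_j) = lieB (β V) br ψ_j ψ_k = D F V ψ_j ψ_k` (`hβeq`; the brackets of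
     the `ψ` are constants) `= n Q^{jk} + V(Q^{jk}) - Q(V ψ_j, ψ_k) - Q(ψ_j, V ψ_k)` (`homog` with
     `lam = 1`, `lie_V`) `= n Q^{jk} + V(Q^{jk}) - ½([j] + [k]) Q^{jk}` (`V_psi`).
   * `δ_j (∑ a_l Q^{lk}) - δ_k (∑ a_l Q^{lj}) = ∑ (δ_j a_l) Q^{lk} - ∑ (δ_k a_l) Q^{lj}
     + ∑ a_l (δ_j Q^{lk} - δ_k Q^{lj})`.  Closedness of `Q` on `ψ_j, ψ_k, ψ_l`:
     `δ_j Q^{lk} - δ_k Q^{lj} = δ_l Q^{jk} = {Q^{jk}, ψ_l}`, so the last sum is
     `- ∑ a_l {ψ_l, Q^{jk}} = - V(Q^{jk})` (`V_eq_a`).  And `δ_j a_l = ½ s_l {ψ_{τ l}, ψ_j} =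
     - ½ s_l² [j = l]` (`br_psi_psi`), so the first two sums are `- ½ [j] Q^{jk}` and
     `+ ½ [k] Q^{kj} = - ½ [k] Q^{jk}`.
   Add.
2. If `j, k ∉ L` then `δ_j = δ_k = 0`, so `n Q^{jk} = 0`, `Q^{jk} = 0` (`casimir_Q`).
3. (`prim`) both sides are `IsBi` (`isBi_lieB`), so it suffices to check `ψ_j, ψ_k`:
   `lieB X br ψ_j ψ_k = δ_j X^k - δ_k X^j`.  `j, k ∈ L`: `(n - 2) Q^{jk} / (n - 2)`.  `j ∈ L`, `k ∉ L`:
   `δ_k = 0`, `δ_j Y^k / (n - 1) = (n - 1) Q^{jk} / (n - 1)`.  `j, k ∉ L`: both sides are `0`.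
   (`n ≥ 3`, so the numbers `n - 1`, `n - 2` are not zero.)
-/

set_option autoImplicit false

namespace E214

variable {J : Type} [Fintype J] [DecidableEq J] {B : Type} [CommRing B] [Algebra ℝ B]
  {n : ℕ} {F : List (ℝ × Diagram n)} {S : AffP J B}

theorem prim_Y (D : PDat F S) (j k : J) :
    S.br (D.Y k) (D.ψ j) - S.br (D.Y j) (D.ψ k)
      = ((n : ℝ) - (if j ∈ D.L then 1 else 0) - (if k ∈ D.L then 1 else 0)) •
        S.Q F (D.ψ j) (D.ψ k) := by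
  have hQjk : IsBi S (S.Q F) := isBi_Q S F
  have hb : IsBi S S.br := isBi_br S
  -- the first part
  have h1 : S.br (D.β D.V (D.ψ k)) (D.ψ j) - S.br (D.β D.V (D.ψ j)) (D.ψ k)
      = (n : ℝ) • S.Q F (D.ψ j) (D.ψ k) + D.V (S.Q F (D.ψ j) (D.ψ k))
        - (((1 : ℝ) / 2) * ((if j ∈ D.L then 1 else 0) + (if k ∈ D.L then 1 else 0))) •
          S.Q F (D.ψ j) (D.ψ k) := by
    have e1 := D.hβeq D.V D.isVF_V (D.ψ j) (D.ψ k)
    rw [homog S F D.V D.isVF_V 1 (fun f g => by rw [D.lie_V, one_smul])] at e1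
    unfold lieB at e1
    rw [D.br_psi_psi, Derivation.map_algebraMap, mul_one, D.V_psi, D.V_psi] at e1
    change 0 - S.br (D.β D.V (D.ψ j)) (D.ψ k) - S.br (D.ψ j) (D.β D.V (D.ψ k)) = _ at e1
    rw [S.br_swap (D.ψ j)] at e1
    have e2 : S.Q F (if j ∈ D.L then (1 / 2 : ℝ) • D.ψ j else 0) (D.ψ k)
        = ((1 : ℝ) / 2 * (if j ∈ D.L then 1 else 0)) • S.Q F (D.ψ j) (D.ψ k) := by
      by_cases h : j ∈ D.L
      · rw [if_pos h, if_pos h, hQjk.smul_left, mul_one]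
      · rw [if_neg h, if_neg h, mul_zero, zero_smul]
        have := hQjk.const_left 0 (D.ψ k)
        rwa [map_zero] at this
    have e3 : S.Q F (D.ψ j) (if k ∈ D.L then (1 / 2 : ℝ) • D.ψ k else 0)
        = ((1 : ℝ) / 2 * (if k ∈ D.L then 1 else 0)) • S.Q F (D.ψ j) (D.ψ k) := by
      by_cases h : k ∈ D.L
      · rw [if_pos h, if_pos h, hQjk.smul_right, mul_one]
      · rw [if_neg h, if_neg h, mul_zero, zero_smul]
        have := hQjk.const_right 0 (D.ψ j)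
        rwa [map_zero] at this
    rw [e2, e3] at e1
    rw [mul_add, add_smul]
    linear_combination e1
  -- the second part
  have hcl : ∀ l, S.br (S.Q F (D.ψ l) (D.ψ k)) (D.ψ j) - S.br (S.Q F (D.ψ l) (D.ψ j)) (D.ψ k)
      = - S.br (D.ψ l) (S.Q F (D.ψ j) (D.ψ k)) := by
    intro l
    have e1 := D.hQ (D.ψ j) (D.ψ k) (D.ψ l)
    unfold cyc at e1
    simp only [D.br_psi_psi, hQjk.const_left, add_zero] at e1
    rw [hQjk.1 (D.ψ k) (D.ψ l), hb.neg_left] at e1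
    rw [← S.br_swap]
    linear_combination -e1
  have hδa : ∀ l i, S.br (D.a l) (D.ψ i)
      = -(((1 : ℝ) / 2) * (if i ∈ D.L then 1 else 0)) • (if l = i then (1 : B) else 0) := by
    intro l i
    have e1 := D.s_sq i
    unfold Darb.a
    rw [hb.smul_left, D.br_psi_psi, D.hτ, D.hsτ]
    by_cases h : l = i
    · subst h
      rw [if_pos rfl, if_pos rfl, ← e1, Algebra.algebraMap_eq_smul_one, smul_smul]
      congr 1
      ring
    · rw [if_neg h, if_neg (Ne.symm h), map_zero, smul_zero, smul_zero]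
  have h2 : ∀ j k : J, S.br (∑ l, D.a l * S.Q F (D.ψ l) (D.ψ k)) (D.ψ j)
      = ∑ l, D.a l * S.br (S.Q F (D.ψ l) (D.ψ k)) (D.ψ j)
        - (((1 : ℝ) / 2) * (if j ∈ D.L then 1 else 0)) • S.Q F (D.ψ j) (D.ψ k) := by
    intro j k
    rw [hb.sum_left]
    have e1 : ∀ l, S.br (D.a l * S.Q F (D.ψ l) (D.ψ k)) (D.ψ j)
        = D.a l * S.br (S.Q F (D.ψ l) (D.ψ k)) (D.ψ j)
          - (((1 : ℝ) / 2) * (if j ∈ D.L then 1 else 0)) •
            (if l = j then S.Q F (D.ψ l) (D.ψ k) else 0) := by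
      intro l
      rw [hb.mul_left, hδa, mul_smul_comm, neg_smul]
      by_cases h : l = j
      · rw [if_pos h, if_pos h, mul_one, sub_eq_add_neg]
      · rw [if_neg h, if_neg h, mul_zero, sub_eq_add_neg]
    simp only [e1, Finset.sum_sub_distrib]
    congr 1
    rw [← Finset.smul_sum]
    congr 1
    simp
  have h3 : ∑ l, D.a l * S.br (S.Q F (D.ψ l) (D.ψ k)) (D.ψ j)
      - ∑ l, D.a l * S.br (S.Q F (D.ψ l) (D.ψ j)) (D.ψ k) = - D.V (S.Q F (D.ψ j) (D.ψ k)) := by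
    rw [D.V_eq_a, ← Finset.sum_sub_distrib, ← Finset.sum_neg_distrib]
    refine Finset.sum_congr rfl fun l _ => ?_
    rw [← mul_sub, hcl, mul_neg]
  unfold PDat.Y
  rw [hb.add_left, hb.add_left, h2 j k, h2 k j, hQjk.1 (D.ψ k) (D.ψ j), smul_neg]
  have h4 : ((n : ℝ) - (if j ∈ D.L then 1 else 0) - (if k ∈ D.L then 1 else 0)) •
        S.Q F (D.ψ j) (D.ψ k)
      = (n : ℝ) • S.Q F (D.ψ j) (D.ψ k)
        - (((1 : ℝ) / 2) * ((if j ∈ D.L then 1 else 0) + (if k ∈ D.L then 1 else 0))) •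
          S.Q F (D.ψ j) (D.ψ k)
        - (((1 : ℝ) / 2) * (if j ∈ D.L then 1 else 0)) • S.Q F (D.ψ j) (D.ψ k)
        - (((1 : ℝ) / 2) * (if k ∈ D.L then 1 else 0)) • S.Q F (D.ψ j) (D.ψ k) := by
    rw [← sub_smul, ← sub_smul, ← sub_smul]
    congr 1
    ring
  rw [h4]
  linear_combination h1 + h3

/-- the transverse components of `Q` vanish -/
theorem Q_transverse (D : PDat F S) (hn : 3 ≤ n) (j k : J) (hj : j ∉ D.L) (hk : k ∉ D.L) :
    S.Q F (D.ψ j) (D.ψ k) = 0 := by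
  have h1 := prim_Y D j k
  have hz : ∀ f i, i ∉ D.L → S.br f (D.ψ i) = 0 := by
    intro f i hi
    have h0 : D.s i = 0 := by
      by_contra hne
      exact hi ((D.mem_L i).2 hne)
    rw [D.br_psi, D.hsτ, h0, neg_zero, zero_smul]
  rw [hz _ j hj, hz _ k hk, if_neg hj, if_neg hk, sub_zero, sub_zero, sub_zero] at h1
  have h2 := congrArg (fun b => (n : ℝ)⁻¹ • b) h1
  simp only [smul_zero, smul_smul] at h2
  have hn0 : (n : ℝ) ≠ 0 := by
    have : n ≠ 0 := by omega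
    exact_mod_cast this
  rw [inv_mul_cancel₀ hn0, one_smul] at h2
  exact h2.symm

theorem X_isVF (D : PDat F S) : S.IsVF D.X := by
  exact D.isVF_comb _

theorem X_psi (D : PDat F S) (k : J) :
    D.X (D.ψ k) = ((n : ℝ) - 1 - if k ∈ D.L then 1 else 0)⁻¹ • D.Y k := by
  unfold PDat.X
  rw [D.comb_psi]

theorem prim (D : PDat F S) (hn : 3 ≤ n) (f g : B) : lieB D.X S.br f g = S.Q F f g := by
  refine D.bi_ext (isBi_lieB (isBi_br S) D.X (X_isVF D)) (isBi_Q S F) (fun j k => ?_) f g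
  have hb : IsBi S S.br := isBi_br S
  have hz : ∀ f i, i ∉ D.L → S.br f (D.ψ i) = 0 := by
    intro f i hi
    have h0 : D.s i = 0 := by
      by_contra hne
      exact hi ((D.mem_L i).2 hne)
    rw [D.br_psi, D.hsτ, h0, neg_zero, zero_smul]
  have h1 := prim_Y D j k
  have h2 : lieB D.X S.br (D.ψ j) (D.ψ k)
      = S.br (D.X (D.ψ k)) (D.ψ j) - S.br (D.X (D.ψ j)) (D.ψ k) := by
    unfold lieB
    rw [D.br_psi_psi, Derivation.map_algebraMap, S.br_swap (D.ψ j)]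
    ring
  rw [h2, X_psi, X_psi, hb.smul_left, hb.smul_left]
  have hn3 : (3 : ℝ) ≤ n := by exact_mod_cast hn
  by_cases hj : j ∈ D.L
  · by_cases hk : k ∈ D.L
    · rw [if_pos hj, if_pos hk] at h1 ⊢
      rw [← smul_sub, h1, smul_smul, inv_mul_cancel₀ (by linarith), one_smul]
    · rw [if_pos hj, if_neg hk] at h1 ⊢
      rw [hz _ k hk, sub_zero] at h1
      rw [hz _ k hk, smul_zero, sub_zero, h1, smul_smul, sub_zero, inv_mul_cancel₀ (by linarith),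
        one_smul]
  · by_cases hk : k ∈ D.L
    · rw [if_neg hj, if_pos hk] at h1 ⊢
      rw [hz _ j hj, zero_sub] at h1
      rw [hz _ j hj, smul_zero, zero_sub, ← smul_neg, h1, smul_smul, sub_zero, sub_zero,
        inv_mul_cancel₀ (by linarith), one_smul]
    · rw [Q_transverse D hn j k hj hk, hz _ j hj, hz _ k hk, smul_zero, smul_zero, sub_zero]

end E214
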