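import Pool.Agent.Work.MP_e214ac_gt.S.PullDarb
import Pool.Agent.Work.MP_e214ac_gt.S.OpB
import Pool.Agent.Work.MP_e214ac_gt.A.Res
import Pool.Agent.Work.MP_e214ac_gt.S.Prim

/-!
# Module S/PullB: properties of the pull back

Proof.
* `pull_unique`: `E'_i` is determined on `ρ(B)`, hence everywhere (`Mor.inj` for the difference of two
  vector fields); `βop'`, `m'` are determined by `restrict_unique` (both are in `DOalg E'`).  The
  remaining fields are propositions: `cases` both structures, or prove an extensionality lemma for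
  `PDat` by destructuring.
* `pull_comp`: compose the equations.
* `pull_V`, `pull_a`, `pull_X`: `L' = L`; `V' (ρ f) = ρ (V f)` by the formula; `a'_l = ρ(a_l)`;
  `Y'_k = ρ(Y_k)` (`β'(V')(ψ'_k) = ∑ βop'_ki (V' ψ'_i) = ∑ βop'_ki (ρ (V ψ_i))`, `Mor.Q`);
  `X' (ρ f) = ρ (X f)`.
* `pull_cas`: `R = m + X` is a differential operator (`Darb.vf_mem_DOalg`, `X_isVF`) on `B`, `R' = m' + X'`
  on `C`, `R' (ρ f) = ρ (R f)`.  The monomials `ψ^I` with `I` supported outside `L` are Casimirs of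
  `S` (`Darb.casimir_of_E_eq_zero`), so `R (ψ^I) = 0` and `R' (ψ'^I) = 0`.  By `trans_kill` (frame
  `D'.toFrame`, `L`) `R' g = 0` for every `g` with `E'_i g = 0` for `i ∈ L`, i.e. for every Casimir of
  `S'` (`Darb.E_eq_zero_of_casimir`).
-/

set_option autoImplicit false

namespace E214

variable {J : Type} [Fintype J] [DecidableEq J] {B : Type} [CommRing B] [Algebra ℝ B]
  {C : Type} [CommRing C] [Algebra ℝ C] {C' : Type} [CommRing C'] [Algebra ℝ C'] {n : ℕ}
  {F : List (ℝ × Diagram n)} {S : AffP J B} {S' : AffP J C} {S'' : AffP J C'}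

private theorem pullB_ext {D₁ D₂ : PDat F S'} (hE : D₁.E = D₂.E) (hψ : D₁.ψ = D₂.ψ)
    (hs : D₁.s = D₂.s) (hτ : D₁.τ = D₂.τ) (hβ : D₁.βop = D₂.βop) (hm : D₁.m = D₂.m) :
    D₁ = D₂ := by
  obtain ⟨⟨⟨E₁, ψ₁, _, _⟩, s₁, τ₁, _, _, _, _, _⟩, β₁, m₁, _, _, _, _, _, _⟩ := D₁
  obtain ⟨⟨⟨E₂, ψ₂, _, _⟩, s₂, τ₂, _, _, _, _, _⟩, β₂, m₂, _, _, _, _, _, _⟩ := D₂
  simp only at hE hψ hs hτ hβ hm
  subst hE hψ hs hτ hβ hm
  rfl

theorem pull_unique {ρ : B →ₐ[ℝ] C} (h : Mor F S S' ρ) {D : PDat F S} {D₁ D₂ : PDat F S'}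
    (h₁ : IsPull ρ D D₁) (h₂ : IsPull ρ D D₂) : D₁ = D₂ := by
  have hE : D₁.E = D₂.E := by
    funext i
    have h1 : D₁.E i - D₂.E i = 0 := by
      refine h.inj _ (S'.isVF_sub (D₁.hE i) (D₂.hE i)) fun f => ?_
      rw [Derivation.sub_apply, h₁.E, h₂.E, sub_self]
    exact sub_eq_zero.1 h1
  have hψ : D₁.ψ = D₂.ψ := by
    funext i
    rw [h₁.ψ, h₂.ψ]
  refine pullB_ext hE hψ (h₁.s.trans h₂.s.symm) (h₁.τ.trans h₂.τ.symm) ?_ ?_
  · funext j k
    have h1 : D₁.βop j k - D₂.βop j k = 0 := by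
      refine restrict_unique D.toFrame D₁.toFrame ρ h₁.ψ _ (Subalgebra.sub_mem _ (D₁.hβ j k) ?_)
        fun g => ?_
      · rw [show D₁.toFrame.E = D₂.toFrame.E from hE]
        exact D₂.hβ j k
      · rw [LinearMap.sub_apply, h₁.βop, h₂.βop, sub_self]
    exact sub_eq_zero.1 h1
  · have h1 : D₁.m - D₂.m = 0 := by
      refine restrict_unique D.toFrame D₁.toFrame ρ h₁.ψ _ (Subalgebra.sub_mem _ D₁.hm ?_)
        fun g => ?_
      · rw [show D₁.toFrame.E = D₂.toFrame.E from hE]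
        exact D₂.hm
      · rw [LinearMap.sub_apply, h₁.m, h₂.m, sub_self]
    exact sub_eq_zero.1 h1

theorem pull_comp {ρ : B →ₐ[ℝ] C} {r : C →ₐ[ℝ] C'} {D : PDat F S} {D' : PDat F S'}
    {D'' : PDat F S''} (h₁ : IsPull ρ D D') (h₂ : IsPull r D' D'') :
    IsPull (r.comp ρ) D D'' := by
  exact { s := h₂.s.trans h₁.s
          τ := h₂.τ.trans h₁.τ
          ψ := fun i => by rw [h₂.ψ, h₁.ψ]; rfl
          E := fun i f => by
            change D''.E i (r (ρ f)) = r (ρ (D.E i f))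
            rw [h₂.E, h₁.E]
          βop := fun j k f => by
            change D''.βop j k (r (ρ f)) = r (ρ (D.βop j k f))
            rw [h₂.βop, h₁.βop]
          m := fun f => by
            change D''.m (r (ρ f)) = r (ρ (D.m f))
            rw [h₂.m, h₁.m] }

private theorem pullB_L {ρ : B →ₐ[ℝ] C} {D : PDat F S} {D' : PDat F S'} (h : IsPull ρ D D') :
    D'.L = D.L := by
  unfold Darb.L
  rw [h.s]

theorem pull_V {ρ : B →ₐ[ℝ] C} {D : PDat F S} {D' : PDat F S'} (h : IsPull ρ D D') (f : B) :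
    D'.V (ρ f) = ρ (D.V f) := by
  have hL := pullB_L h
  unfold Darb.V
  rw [der_sum_apply, der_sum_apply, map_sum, hL]
  refine Finset.sum_congr rfl fun i _ => ?_
  rw [Derivation.smul_apply, Derivation.smul_apply, h.E, h.ψ, smul_eq_mul, smul_eq_mul, map_mul,
    map_smul]

theorem pull_a {ρ : B →ₐ[ℝ] C} {D : PDat F S} {D' : PDat F S'} (h : IsPull ρ D D') (l : J) :
    D'.a l = ρ (D.a l) := by
  unfold Darb.a
  rw [h.s, h.τ, h.ψ, map_smul]

theorem pull_X {ρ : B →ₐ[ℝ] C} (hρ : Mor F S S' ρ) {D : PDat F S} {D' : PDat F S'}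
    (h : IsPull ρ D D') (f : B) : D'.X (ρ f) = ρ (D.X f) := by
  have hL := pullB_L h
  have hY : ∀ k, D'.Y k = ρ (D.Y k) := by
    intro k
    unfold PDat.Y PDat.β
    rw [D'.op_psi, D.op_psi, map_add, map_sum, map_sum]
    congr 1
    · refine Finset.sum_congr rfl fun i _ => ?_
      rw [h.ψ, pull_V h, h.βop]
    · refine Finset.sum_congr rfl fun l _ => ?_
      rw [pull_a h, h.ψ, h.ψ, ← hρ.Q, map_mul]
  unfold PDat.X
  rw [D'.comb_apply, D.comb_apply, map_sum, hL]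
  refine Finset.sum_congr rfl fun k _ => ?_
  rw [h.E, hY, map_mul, map_smul]

theorem pull_cas {ρ : B →ₐ[ℝ] C} (hρ : Mor F S S' ρ) {D : PDat F S} {D' : PDat F S'}
    (h : IsPull ρ D D') (hD : D.Cas) : D'.Cas := by
  classical
  have hL := pullB_L h
  have hR : D.m + ((D.X : B →ₗ[ℝ] B) : Module.End ℝ B) ∈ DOalg D.E :=
    Subalgebra.add_mem _ D.hm (D.vf_mem_DOalg _ (X_isVF D))
  have hR' : D'.m + ((D'.X : C →ₗ[ℝ] C) : Module.End ℝ C) ∈ DOalg D'.E :=
    Subalgebra.add_mem _ D'.hm (D'.vf_mem_DOalg _ (X_isVF D'))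
  have hRρ : ∀ u, (D'.m + ((D'.X : C →ₗ[ℝ] C) : Module.End ℝ C)) (ρ u) = ρ (D.m u + D.X u) := by
    intro u
    change D'.m (ρ u) + D'.X (ρ u) = _
    rw [h.m, pull_X hρ h, map_add]
  intro g hg
  refine trans_kill D'.toFrame D'.L _ hR' (fun I hI => ?_) g
    (fun i hi => D'.E_eq_zero_of_casimir g hg i hi)
  have h1 : psiPow D'.toFrame.ψ I = ρ (psiPow D.ψ I) := by
    unfold psiPow
    rw [map_prod]
    refine Finset.prod_congr rfl fun j _ => ?_
    rw [map_pow]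
    congr 1
    exact h.ψ j
  rw [h1, hRρ, hD, map_zero]
  refine D.casimir_of_E_eq_zero _ fun i hi => ?_
  have hIi : I i = 0 := hI i (by rw [hL]; exact hi)
  unfold psiPow
  induction (Finset.univ : Finset J) using Finset.induction_on with
  | empty => simp
  | insert a s ha ih =>
    rw [Finset.prod_insert ha, Derivation.leibniz, ih, smul_zero, zero_add,
      Derivation.leibniz_pow, D.hEψ]
    by_cases hia : i = a
    · subst hia
      rw [hIi]
      simp
    · rw [if_neg hia]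
      simp

end E214
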