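import Pool.Agent.Work.MP_e214ac_gt.S.DarbB

/-!
# Module S/FrameDO: the algebra of differential operators does not depend on the frame

Proof.  `E_j = ∑_a E_j(x_a) ∂_a` (`hE`) and `∂_a = ∑_j ∂_a(ψ_j) E_j` (`Darb.d_expand`): so the
generators of each of the two algebras lie in the other one (`Algebra.adjoin_le`).
The other statements: `DOalg` contains the multiplications, the derivations of the frame, sums,
products (compositions) of its elements.
-/

set_option autoImplicit false

namespace E214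

variable {J : Type} [Fintype J] [DecidableEq J] {B : Type} [CommRing B] [Algebra ℝ B]
  {S : AffP J B}

theorem mul_mem_DOalg (E : J → Derivation ℝ B B) (c : B) :
    (LinearMap.mulLeft ℝ c : Module.End ℝ B) ∈ DOalg E := by
  exact Algebra.subset_adjoin (Set.mem_union_left _ (Set.mem_range_self c))

theorem der_mem_DOalg (E : J → Derivation ℝ B B) (j : J) :
    ((E j : B →ₗ[ℝ] B) : Module.End ℝ B) ∈ DOalg E := by
  exact Algebra.subset_adjoin (Set.mem_union_right _ (Set.mem_range_self j))

private theorem frameDO_comb (E : J → Derivation ℝ B B) (v : Derivation ℝ B B) (u : J → B)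
    (h : ∀ g, v g = ∑ a, u a * E a g) : ((v : B →ₗ[ℝ] B) : Module.End ℝ B) ∈ DOalg E := by
  have h1 : ((v : B →ₗ[ℝ] B) : Module.End ℝ B)
      = ∑ a, (LinearMap.mulLeft ℝ (u a) : Module.End ℝ B) * ((E a : B →ₗ[ℝ] B) : Module.End ℝ B) := by
    ext g
    rw [LinearMap.sum_apply]
    exact h g
  rw [h1]
  exact Subalgebra.sum_mem _ fun a _ => Subalgebra.mul_mem _ (mul_mem_DOalg E _) (der_mem_DOalg E a)

theorem Darb.DOalg_eq (D : Darb S) : DOalg D.E = DOalg S.d := by
  apply le_antisymm
  · apply Algebra.adjoin_le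
    rintro x (⟨c, rfl⟩ | ⟨j, rfl⟩)
    · exact mul_mem_DOalg S.d c
    · exact frameDO_comb S.d _ (fun a => D.E j (S.x a)) fun g => D.hE j g
  · apply Algebra.adjoin_le
    rintro x (⟨c, rfl⟩ | ⟨j, rfl⟩)
    · exact mul_mem_DOalg D.E c
    · exact frameDO_comb D.E _ (fun k => S.d j (D.ψ k)) fun g => D.d_expand j g

theorem Darb.vf_mem_DOalg (D : Darb S) (v : Derivation ℝ B B) (hv : S.IsVF v) :
    ((v : B →ₗ[ℝ] B) : Module.End ℝ B) ∈ DOalg D.E := by
  exact frameDO_comb D.E v (fun j => v (D.ψ j)) fun g => D.frame_expand v hv g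

/-- the operator `f ↦ c * T (e * f)` -/
theorem sandwich_mem_DOalg (E : J → Derivation ℝ B B) (T : Module.End ℝ B) (hT : T ∈ DOalg E)
    (c e : B) : (LinearMap.mulLeft ℝ c : Module.End ℝ B) * T *
      (LinearMap.mulLeft ℝ e : Module.End ℝ B) ∈ DOalg E := by
  exact Subalgebra.mul_mem _ (Subalgebra.mul_mem _ (mul_mem_DOalg E c) hT) (mul_mem_DOalg E e)

end E214
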