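import Pool.Agent.Work.MP_e214ac_gt.S.Dual
import Pool.Agent.Work.MP_e214ac_gt.S.FrameDO

/-!
# Module S/DualDO: `v ↦ D F v f g` is a differential operator

Proof.  Let `Lin` be the set of all maps `u : (J → B) → DualNumber B` of the form
`u ζ = inl F₀ + inr (∑_a T_a (ζ a))` with `F₀ ∈ B` fixed and `T_a ∈ DOalg S.d`.  It contains the
constants `inl c` (in particular `0`, `1`) and the `P^ε_ab` (as functions of `ζ`: the second
component is `{ζ_a, x_b} + {x_a, ζ_b}`, and `f ↦ {f, x_b} = ∑ P_cb ∂_c f` is in `DOalg S.d`), it is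
closed under addition, real multiples, multiplication
(`(F₀ + ε T)(F₀' + ε T') = F₀ F₀' + ε (F₀ T' + F₀' T)`) and under `u ↦ (ζ ↦ S.dualDer ζ a (u ζ))`:
the second component is `∂_a (T ζ) - ∑_b (∂_a ζ_b) ∂_b F₀`, again a differential operator in `ζ`.
Apply `evalHom_rel` with `R = (J → B) → DualNumber B` (pointwise operations) ... or directly: the
relation `rel` between `R' = (J → B) → DualNumber B` (functions, a commutative ring) and itself,
`rel u u' : u = u' ∧ u ∈ Lin`; the derivative of `R'` is `(∂_a u) ζ = S.dualDer ζ a (u ζ)`.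
So `ζ ↦ ((S.dual ζ).Qc F a b)` is in `Lin` (evaluation of diagrams in `R'` is pointwise in `ζ`:
`evalHom_map` for the evaluation homomorphism at `ζ`).  Insert this in `D_formula`: all three terms
are differential operators in `ζ_a = v (x_a)`.
-/

set_option autoImplicit false

namespace E214

variable {J : Type} [Fintype J] [DecidableEq J] {B : Type} [CommRing B] [Algebra ℝ B]
  {n : ℕ}

open TrivSqZeroExt

/-- maps `ζ ↦ inl F₀ + inr (∑ T_c ζ_c)` with differential operators `T_c` -/
private def DualDO_Lin (S : AffP J B) (u : (J → B) → DualNumber B) : Prop :=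
  ∃ (F₀ : B) (T : J → Module.End ℝ B), (∀ c, T c ∈ DOalg S.d) ∧
    ∀ ζ, (u ζ).fst = F₀ ∧ (u ζ).snd = ∑ c, T c (ζ c)

private noncomputable def DualDO_d (S : AffP J B) (a : J) (u : (J → B) → DualNumber B) :
    (J → B) → DualNumber B := fun ζ => (S.dual ζ).d a (u ζ)

private noncomputable def DualDO_P (S : AffP J B) (a b : J) : (J → B) → DualNumber B :=
  fun ζ => (S.dual ζ).P a b

/-- the operator `f ↦ {f, x_b}` -/
private noncomputable def DualDO_H (S : AffP J B) (b : J) : Module.End ℝ B :=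
  ∑ c, (LinearMap.mulLeft ℝ (S.P c b) : Module.End ℝ B) * ((S.d c : B →ₗ[ℝ] B) : Module.End ℝ B)

private theorem DualDO_H_mem (S : AffP J B) (b : J) : DualDO_H S b ∈ DOalg S.d :=
  Subalgebra.sum_mem _ fun c _ => Subalgebra.mul_mem _ (mul_mem_DOalg S.d _) (der_mem_DOalg S.d c)

private theorem DualDO_H_apply (S : AffP J B) (b : J) (f : B) :
    DualDO_H S b f = S.br f (S.x b) := by
  rw [(isBi_br S).expand_left f (S.x b)]
  unfold DualDO_H
  rw [LinearMap.sum_apply]
  refine Finset.sum_congr rfl fun c _ => ?_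
  rw [S.br_x]
  rfl

theorem D_isDO (S : AffP J B) (F : List (ℝ × Diagram n)) (f g : B) :
    ∃ T : J → Module.End ℝ B, (∀ a, T a ∈ DOalg S.d) ∧
      ∀ v : Derivation ℝ B B, S.D F v f g = ∑ a, T a (v (S.x a)) := by
  classical
  have hmul : ∀ (c : B) (T : Module.End ℝ B), T ∈ DOalg S.d →
      (LinearMap.mulLeft ℝ c : Module.End ℝ B) * T ∈ DOalg S.d := fun c T hT =>
    Subalgebra.mul_mem _ (mul_mem_DOalg S.d c) hT
  have hder : ∀ (a : J) (T : Module.End ℝ B), T ∈ DOalg S.d →
      ((S.d a : B →ₗ[ℝ] B) : Module.End ℝ B) * T ∈ DOalg S.d := fun a T hT =>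
    Subalgebra.mul_mem _ (der_mem_DOalg S.d a) hT
  have hLin : ∀ a b, DualDO_Lin S (evalHom F (DualDO_d S) (DualDO_P S) a b) := by
    intro a b
    refine evalHom_rel (R' := (J → B) → DualNumber B) (fun u _ => DualDO_Lin S u) ?_ ?_ ?_ ?_ ?_
      (DualDO_d S) (DualDO_d S) ?_ (DualDO_P S) (DualDO_P S) ?_ F a b
    · exact ⟨0, fun _ => 0, fun _ => Subalgebra.zero_mem _, fun ζ => ⟨rfl, by
        simp [Pi.zero_apply]⟩⟩
    · exact ⟨1, fun _ => 0, fun _ => Subalgebra.zero_mem _, fun ζ => ⟨rfl, by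
        simp [Pi.one_apply]⟩⟩
    · rintro u _ w _ ⟨u0, T, hT, hu⟩ ⟨w0, T', hT', hw⟩
      refine ⟨u0 + w0, fun c => T c + T' c, fun c => Subalgebra.add_mem _ (hT c) (hT' c),
        fun ζ => ⟨?_, ?_⟩⟩
      · change (u ζ + w ζ).fst = _
        rw [fst_add, (hu ζ).1, (hw ζ).1]
      · change (u ζ + w ζ).snd = _
        rw [snd_add, (hu ζ).2, (hw ζ).2, ← Finset.sum_add_distrib]
        rfl
    · rintro u _ w _ ⟨u0, T, hT, hu⟩ ⟨w0, T', hT', hw⟩
      refine ⟨u0 * w0, fun c => (LinearMap.mulLeft ℝ u0 : Module.End ℝ B) * T' c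
        + (LinearMap.mulLeft ℝ w0 : Module.End ℝ B) * T c,
        fun c => Subalgebra.add_mem _ (hmul _ _ (hT' c)) (hmul _ _ (hT c)), fun ζ => ⟨?_, ?_⟩⟩
      · change (u ζ * w ζ).fst = _
        rw [fst_mul, (hu ζ).1, (hw ζ).1]
      · change (u ζ * w ζ).snd = _
        rw [DualNumber.snd_mul, (hu ζ).1, (hw ζ).1, (hu ζ).2, (hw ζ).2, Finset.mul_sum,
          Finset.sum_mul, ← Finset.sum_add_distrib]
        refine Finset.sum_congr rfl fun c _ => ?_
        change _ = u0 * T' c (ζ c) + w0 * T c (ζ c)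
        ring
    · rintro r u _ ⟨u0, T, hT, hu⟩
      refine ⟨r • u0, fun c => r • T c, fun c => Subalgebra.smul_mem _ (hT c) _,
        fun ζ => ⟨?_, ?_⟩⟩
      · change (r • u ζ).fst = _
        rw [fst_smul, (hu ζ).1]
      · change (r • u ζ).snd = _
        rw [snd_smul, (hu ζ).2, Finset.smul_sum]
        rfl
    · rintro a u _ ⟨u0, T, hT, hu⟩
      refine ⟨S.d a u0, fun c => ((S.d a : B →ₗ[ℝ] B) : Module.End ℝ B) * T c
        - (LinearMap.mulLeft ℝ (S.d c u0) : Module.End ℝ B)
          * ((S.d a : B →ₗ[ℝ] B) : Module.End ℝ B),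
        fun c => Subalgebra.sub_mem _ (hder a _ (hT c)) (hmul _ _ (der_mem_DOalg S.d a)),
        fun ζ => ⟨?_, ?_⟩⟩
      · change (S.dualDer ζ a (u ζ)).fst = _
        rw [S.dualDer_fst, (hu ζ).1]
      · change (S.dualDer ζ a (u ζ)).snd = _
        rw [S.dualDer_snd, (hu ζ).1, (hu ζ).2, map_sum, ← Finset.sum_sub_distrib]
        refine Finset.sum_congr rfl fun c _ => ?_
        change _ = S.d a (T c (ζ c)) - S.d c u0 * S.d a (ζ c)
        ring
    · intro a b
      refine ⟨S.P a b, fun e => (if e = a then DualDO_H S b else 0)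
        - (if e = b then DualDO_H S a else 0), fun e => Subalgebra.sub_mem _ ?_ ?_,
        fun ζ => ⟨?_, ?_⟩⟩
      · split_ifs
        · exact DualDO_H_mem S b
        · exact Subalgebra.zero_mem _
      · split_ifs
        · exact DualDO_H_mem S a
        · exact Subalgebra.zero_mem _
      · change (inl (S.P a b) + inr (S.br (ζ a) (S.x b) + S.br (S.x a) (ζ b)) :
          DualNumber B).fst = _
        rw [fst_add, fst_inl, fst_inr, add_zero]
      · change (inl (S.P a b) + inr (S.br (ζ a) (S.x b) + S.br (S.x a) (ζ b)) :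
          DualNumber B).snd = _
        rw [snd_add, snd_inl, snd_inr, zero_add]
        simp only [LinearMap.sub_apply, Finset.sum_sub_distrib]
        have e1 : ∀ (a : J) (H : Module.End ℝ B),
            ∑ e, (if e = a then H else 0 : Module.End ℝ B) (ζ e) = H (ζ a) := by
          intro a H
          rw [Finset.sum_eq_single a]
          · rw [if_pos rfl]
          · intro e _ he
            rw [if_neg he, LinearMap.zero_apply]
          · intro h; exact absurd (Finset.mem_univ a) h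
        rw [e1, e1, DualDO_H_apply, DualDO_H_apply, S.br_swap (S.x a) (ζ b)]
        ring
  have hQc : ∀ a b, ∃ T : J → Module.End ℝ B, (∀ c, T c ∈ DOalg S.d) ∧
      ∀ ζ, ((S.dual ζ).Qc F a b).snd = ∑ c, T c (ζ c) := by
    intro a b
    obtain ⟨u0, T, hT, hu⟩ := hLin a b
    refine ⟨T, hT, fun ζ => ?_⟩
    rw [← (hu ζ).2]
    congr 1
    have := evalHom_map (Pi.evalAlgHom ℝ (fun _ : J → B => DualNumber B) ζ) (DualDO_d S)
      (fun c f => (S.dual ζ).d c f) (fun c f => rfl) (DualDO_P S) F a b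
    exact this.symm
  choose T hT hTe using hQc
  -- assembly
  refine ⟨fun e => ∑ a, ∑ b, ((LinearMap.mulLeft ℝ (S.d a f * S.d b g) : Module.End ℝ B) * T a b e
      - (LinearMap.mulLeft ℝ (S.Qc F a b * S.d e f * S.d b g) : Module.End ℝ B)
        * ((S.d a : B →ₗ[ℝ] B) : Module.End ℝ B)
      - (LinearMap.mulLeft ℝ (S.Qc F a b * S.d a f * S.d e g) : Module.End ℝ B)
        * ((S.d b : B →ₗ[ℝ] B) : Module.End ℝ B)), fun e => ?_, fun v => ?_⟩
  · exact Subalgebra.sum_mem _ fun a _ => Subalgebra.sum_mem _ fun b _ =>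
      Subalgebra.sub_mem _ (Subalgebra.sub_mem _ (hmul _ _ (hT a b e))
        (hmul _ _ (der_mem_DOalg S.d a))) (hmul _ _ (der_mem_DOalg S.d b))
  · rw [D_formula]
    simp only [LinearMap.sum_apply]
    conv_rhs => rw [Finset.sum_comm]
    refine Finset.sum_congr rfl fun a _ => ?_
    conv_rhs => rw [Finset.sum_comm]
    refine Finset.sum_congr rfl fun b _ => ?_
    rw [hTe, Finset.mul_sum, Finset.mul_sum, Finset.sum_mul, Finset.sum_mul, Finset.sum_mul,
      ← Finset.sum_sub_distrib, ← Finset.sum_sub_distrib]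
    refine Finset.sum_congr rfl fun e _ => ?_
    change _ = S.d a f * S.d b g * T a b e (v (S.x e))
      - S.Qc F a b * S.d e f * S.d b g * S.d a (v (S.x e))
      - S.Qc F a b * S.d a f * S.d e g * S.d b (v (S.x e))
    ring

end E214
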