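import Pool.Agent.Work.MP_e214ac_gt.S.PullDarb
import Pool.Agent.Work.MP_e214ac_gt.S.OpB
import Pool.Agent.Work.MP_e214ac_gt.S.DualDO
import Pool.Agent.Work.MP_e214ac_gt.A.Res

/-!
# Module S/PullEx: pull back of the data along a morphism

Proof.  Take `D'` from `pull_darb`; its leaf set is the same.  `βop'`, `m'` from `exist_restrict`
(frames `D.toFrame`, `D'.toFrame`).
* `hQ`: `Darb.cyc_ext_psi` (with `isBi_br`, `isBi_Q`); on the `ψ'_j = ρ(ψ_j)` the expression is `ρ` of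
  `cyc br Q ψ_a ψ_b ψ_c = 0` (`Mor.br`, `Mor.Q`).
* `hβeq`: fix `i, j, k`.  Both `g ↦ lieB (op βop' (g E'_k)) br ψ'_i ψ'_j` and
  `g ↦ D F (g E'_k) ψ'_i ψ'_j` are differential operators in `g ∈ C` (`op_psi`, brackets with `ψ'` are
  multiples of `E'`; `D_isDO` with `Darb.DOalg_eq`).  For `g = ρ f` they agree: `f E_k` and
  `(ρ f) E'_k` are related (`(ρ f) E'_k (ρ g) = ρ (f E_k g)`), so `Mor.D` gives the second one, and
  `op βop' ((ρ f) E'_k) ψ'_i = βop'_ik (ρ f) = ρ (βop_ik f)` gives the first one, and `D.hβeq`.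
  By `restrict_unique` they agree for all `g`.  Every vector field is `∑_k (v ψ'_k) E'_k` and both
  sides are additive in `v` (`D F v` is additive in `v`: `D_isDO`); finally `Darb.bi_ext`
  (`isBi_lieB`, `isBi_D`).
* `hmeq`: `g ↦ op βop' (ham g) ψ'_k + Q g ψ'_k - {m' g, ψ'_k}` is a differential operator in `g`
  that vanishes on `ρ(B)` (`Mor.br`, `Mor.Q`, `D.hmeq`), so it vanishes; for a general second
  argument expand in the frame (the left side is a vector field in that argument).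
-/

set_option autoImplicit false

namespace E214

variable {J : Type} [Fintype J] [DecidableEq J] {B : Type} [CommRing B] [Algebra ℝ B]
  {C : Type} [CommRing C] [Algebra ℝ C] {n : ℕ}

/-- the frame version of `D_isDO` -/
private theorem pullEx_DO {S : AffP J B} (F : List (ℝ × Diagram n)) (D0 : Darb S) (f g : B) :
    ∃ T : J → Module.End ℝ B, (∀ i, T i ∈ DOalg D0.E) ∧
      ∀ v, S.IsVF v → S.D F v f g = ∑ i, T i (v (D0.ψ i)) := by
  obtain ⟨T', hT', hTe⟩ := D_isDO S F f g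
  refine ⟨fun i => ∑ a, T' a * (LinearMap.mulLeft ℝ (D0.E i (S.x a)) : Module.End ℝ B),
    fun i => ?_, fun v hv => ?_⟩
  · rw [D0.DOalg_eq]
    exact Subalgebra.sum_mem _ fun a _ => Subalgebra.mul_mem _ (hT' a) (mul_mem_DOalg S.d _)
  · rw [hTe]
    simp only [LinearMap.sum_apply]
    conv_rhs => rw [Finset.sum_comm]
    refine Finset.sum_congr rfl fun a _ => ?_
    rw [D0.frame_expand v hv (S.x a), map_sum]
    refine Finset.sum_congr rfl fun i _ => ?_
    change _ = T' a (D0.E i (S.x a) * v (D0.ψ i))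
    rw [mul_comm]

theorem pull_exists {F : List (ℝ × Diagram n)} {S : AffP J B} {S' : AffP J C} {ρ : B →ₐ[ℝ] C}
    (h : Mor F S S' ρ) (D : PDat F S) : ∃ D' : PDat F S', IsPull ρ D D' := by
  classical
  obtain ⟨D', hs, hτ, hψ, hE⟩ := pull_darb h D.toDarb
  have hL : D'.L = D.L := by
    unfold Darb.L
    rw [hs]
  have hb : IsBi S' S'.br := isBi_br S'
  choose β' hβ'm hβ'e using fun j k => exists_restrict D.toFrame D'.toFrame ρ hE (D.βop j k) (D.hβ j k)
  obtain ⟨m', hm'm, hm'e⟩ := exists_restrict D.toFrame D'.toFrame ρ hE D.m D.hm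
  have hQ : ∀ f g k, cyc S'.br (S'.Q F) f g k = 0 := by
    refine D'.cyc_ext_psi hb (isBi_Q S' F) fun a b c => ?_
    rw [hψ, hψ, hψ]
    have h1 := congrArg ρ (D.hQ (D.ψ a) (D.ψ b) (D.ψ c))
    unfold cyc at h1 ⊢
    simp only [map_add, h.br, h.Q, map_zero] at h1
    exact h1
  -- the operators δ
  have hδ : ∀ f j, S'.br f (D'.ψ j)
      = (D'.s (D'.τ j) • ((D'.E (D'.τ j) : C →ₗ[ℝ] C) : Module.End ℝ C)) f := by
    intro f j
    rw [D'.br_psi]
    rfl
  have hδm : ∀ j, (D'.s (D'.τ j) • ((D'.E (D'.τ j) : C →ₗ[ℝ] C) : Module.End ℝ C)) ∈ DOalg D'.E :=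
    fun j => Subalgebra.smul_mem _ (der_mem_DOalg D'.E _) _
  have hβeq : ∀ v, S'.IsVF v → ∀ f g, lieB (D'.op β' v) S'.br f g = S'.D F v f g := by
    intro v hv f g
    refine D'.bi_ext (isBi_lieB hb _ (D'.op_isVF _ v)) (isBi_D S' F v) (fun i j => ?_) f g
    obtain ⟨T, hT, hTe⟩ := pullEx_DO F D' (D'.ψ i) (D'.ψ j)
    have hlie : ∀ v, lieB (D'.op β' v) S'.br (D'.ψ i) (D'.ψ j)
        = ∑ k, (S'.br (β' j k (v (D'.ψ k))) (D'.ψ i) - S'.br (β' i k (v (D'.ψ k))) (D'.ψ j)) := by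
      intro v
      unfold lieB
      rw [D'.br_psi_psi, Derivation.map_algebraMap, D'.op_psi, D'.op_psi,
        S'.br_swap (D'.ψ i), hb.sum_left, hb.sum_left, Finset.sum_sub_distrib]
      ring
    rw [hlie, hTe v hv]
    refine Finset.sum_congr rfl fun k _ => ?_
    have hz : (D'.s (D'.τ i) • ((D'.E (D'.τ i) : C →ₗ[ℝ] C) : Module.End ℝ C)) * β' j k
        - (D'.s (D'.τ j) • ((D'.E (D'.τ j) : C →ₗ[ℝ] C) : Module.End ℝ C)) * β' i k - T k = 0 := by
      refine restrict_unique D.toFrame D'.toFrame ρ hψ _ (Subalgebra.sub_mem _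
        (Subalgebra.sub_mem _ (Subalgebra.mul_mem _ (hδm i) (hβ'm j k))
          (Subalgebra.mul_mem _ (hδm j) (hβ'm i k))) (hT k)) fun g => ?_
      change (D'.s (D'.τ i) • ((D'.E (D'.τ i) : C →ₗ[ℝ] C) : Module.End ℝ C)) (β' j k (ρ g))
        - (D'.s (D'.τ j) • ((D'.E (D'.τ j) : C →ₗ[ℝ] C) : Module.End ℝ C)) (β' i k (ρ g))
        - T k (ρ g) = 0
      rw [← hδ, ← hδ]
      have h1 : T k (ρ g) = S'.D F (ρ g • D'.E k) (D'.ψ i) (D'.ψ j) := by
        rw [hTe _ (S'.isVF_smul _ (D'.hE k)), Finset.sum_eq_single k]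
        · rw [Derivation.smul_apply, D'.hEψ, if_pos rfl, smul_eq_mul, mul_one]
        · intro l _ hl
          rw [Derivation.smul_apply, D'.hEψ, if_neg (Ne.symm hl), smul_zero, map_zero]
        · intro hh; exact absurd (Finset.mem_univ k) hh
      have h2 := h.D (g • D.E k) (ρ g • D'.E k) (S.isVF_smul _ (D.hE k))
        (S'.isVF_smul _ (D'.hE k)) (fun f => by
          rw [Derivation.smul_apply, Derivation.smul_apply, smul_eq_mul, smul_eq_mul, hE, map_mul])
        (D.ψ i) (D.ψ j)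
      rw [← D.hβeq _ (S.isVF_smul _ (D.hE k))] at h2
      have h3 : lieB (D.op D.βop (g • D.E k)) S.br (D.ψ i) (D.ψ j)
          = S.br (D.βop j k g) (D.ψ i) - S.br (D.βop i k g) (D.ψ j) := by
        unfold lieB
        rw [D.br_psi_psi, Derivation.map_algebraMap, D.op_single, D.op_single, S.br_swap (D.ψ i)]
        ring
      rw [h3, map_sub, h.br, h.br] at h2
      rw [h1, hβ'e, hβ'e, hψ, hψ, h2, sub_self]
    have hz2 := congrArg (fun T : Module.End ℝ C => T (v (D'.ψ k))) hz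
    change (D'.s (D'.τ i) • ((D'.E (D'.τ i) : C →ₗ[ℝ] C) : Module.End ℝ C)) (β' j k (v (D'.ψ k)))
        - (D'.s (D'.τ j) • ((D'.E (D'.τ j) : C →ₗ[ℝ] C) : Module.End ℝ C)) (β' i k (v (D'.ψ k)))
        - T k (v (D'.ψ k)) = 0 at hz2
    rw [← hδ, ← hδ] at hz2
    exact sub_eq_zero.1 hz2
  have hmψ : ∀ k f, D'.op β' (S'.ham f) (D'.ψ k) + S'.Q F f (D'.ψ k) = S'.br (m' f) (D'.ψ k) := by
    intro k f
    obtain ⟨U1, hU1, hU1e⟩ := D'.op1_ham_mem (fun i => β' k i) (fun i => hβ'm k i)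
    obtain ⟨v, hv, hve⟩ := (isBi_Q S' F).exists_der (D'.ψ k)
    have hz : U1 - ((v : C →ₗ[ℝ] C) : Module.End ℝ C)
        - (D'.s (D'.τ k) • ((D'.E (D'.τ k) : C →ₗ[ℝ] C) : Module.End ℝ C)) * m' = 0 := by
      refine restrict_unique D.toFrame D'.toFrame ρ hψ _ (Subalgebra.sub_mem _
        (Subalgebra.sub_mem _ hU1 (D'.vf_mem_DOalg v hv))
        (Subalgebra.mul_mem _ (hδm k) hm'm)) fun g => ?_
      change U1 (ρ g) - v (ρ g)
        - (D'.s (D'.τ k) • ((D'.E (D'.τ k) : C →ₗ[ℝ] C) : Module.End ℝ C)) (m' (ρ g)) = 0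
      have h1 := congrArg ρ (D.hmeq g (D.ψ k))
      rw [map_add, h.Q, h.br, ← hm'e, ← hψ] at h1
      have h2 : ρ (D.op D.βop (S.ham g) (D.ψ k)) = D'.op1 (fun i => β' k i) (S'.ham (ρ g)) := by
        unfold Darb.op1
        rw [D.op_psi, map_sum]
        refine Finset.sum_congr rfl fun i _ => ?_
        rw [← hβ'e, S.ham_apply, S'.ham_apply, h.br, hψ]
      rw [← hδ, hU1e, hve, (isBi_Q S' F).1 (D'.ψ k) (ρ g), ← h2]
      linear_combination h1
    have hz2 := congrArg (fun T : Module.End ℝ C => T f) hz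
    change U1 f - v f
      - (D'.s (D'.τ k) • ((D'.E (D'.τ k) : C →ₗ[ℝ] C) : Module.End ℝ C)) (m' f) = 0 at hz2
    rw [← hδ, hU1e, hve, (isBi_Q S' F).1 (D'.ψ k) f] at hz2
    rw [D'.op_psi]
    unfold Darb.op1 at hz2
    linear_combination hz2
  have hmeq : ∀ f g, D'.op β' (S'.ham f) g + S'.Q F f g = S'.br (m' f) g := by
    intro f g
    obtain ⟨w, hw, hwe⟩ := (isBi_Q S' F).exists_der f
    have h1 : D'.op β' (S'.ham f) + w = S'.ham (m' f) := by
      refine D'.isVF_ext (S'.isVF_add (D'.op_isVF _ _) hw) (S'.isVF_ham _) fun k => ?_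
      rw [Derivation.add_apply, hwe, S'.ham_apply, hmψ]
    rw [← S'.ham_apply (m' f) g, ← h1, Derivation.add_apply, hwe]
  exact ⟨{ toDarb := D', βop := β', m := m', hL := by rw [hL]; exact D.hL, hβ := hβ'm, hm := hm'm,
           hQ := hQ, hβeq := hβeq, hmeq := hmeq },
    { s := hs, τ := hτ, ψ := hψ, E := hE, βop := fun j k f => hβ'e j k f, m := hm'e }⟩

end E214
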