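import Pool.Agent.Work.MP_e214ac_gt.S.Bi2

/-!
# Module S/DarbB: basic facts about Darboux coordinates

Proof.
* `frame_expand`: for a vector field `v` (`IsVF`) `v f = ∑_j v(ψ_j) E_j f`.  The matrices
  `E_j x_a` and `∂_a ψ_j` are inverse to each other: `δ_jk = E_j ψ_k = ∑_a E_j(x_a) ∂_a ψ_k`
  (`hE`, `hEψ`), hence also `∑_j ∂_a ψ_j E_j(x_b) = δ_ab` (`mul_eq_one_comm` for square matrices over
  the commutative ring `B`), so `∂_a f = ∑_b δ_ab ∂_b f = ∑_j (∂_a ψ_j) E_j f`; insert this in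
  `v f = ∑ v(x_a) ∂_a f` and use `v(ψ_j) = ∑ v(x_a) ∂_a ψ_j`.
* `bi_expand`: the same for both arguments of a biderivation.
* `br_psi`: `{f, ψ_j} = ∑ s_i E_i f E_{τ i} ψ_j = s_{τ j} E_{τ j} f`.
* `V_apply`: definition; `V_psi`: `V ψ_j = ½ ψ_j` for `j ∈ L`, `0` otherwise.
* `V_eq_a`: `∑ a_l {ψ_l, f} = ∑ ½ s_l ψ_{τ l} s_l E_{τ l} f` (`{ψ_l, f} = s_l E_{τ l} f`), substitute
  `l ↦ τ l`, `s_l² = 1` for `l ∈ L` and `0` otherwise.
* `lie_V`: `L_V P = - P`: `V E_i f = E_i V f - ½ E_i f` for `i ∈ L` (the `E` commute,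
  `E_i ψ_l = δ_il`), so `V (E_i f E_{τ i} g) = E_i(V f) E_{τ i} g + E_i f E_{τ i}(V g) - E_i f E_{τ i} g`
  for `i ∈ L`; multiply by `s_i` and sum.
* `br_symm_const`: `{ψ_i, ψ_j}` is a real constant.
* `jacobi`: `cyc br br = 0`, from `cyc_ext` or directly: for constants `s` and commuting `E`; by
  `cyc_ext'` it is enough to check it on the `ψ_j`, where all brackets are constants.
* `ham_lie`: `lieB (ham f) br = 0`, rewritten Jacobi identity.
* `cyc_ext_psi`: like `cyc_ext`, with `ψ` in place of `x`: expand with `frame_expand`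
  (`x_a` need not be a polynomial in `ψ`): `cyc p q f g h` is for fixed `g h` a derivation in the
  span of the frame, so it is `∑_j cyc p q (ψ_j) g h E_j f`.
-/

set_option autoImplicit false

namespace E214

variable {J : Type} [Fintype J] [DecidableEq J] {B : Type} [CommRing B] [Algebra ℝ B]
  {S : AffP J B}

theorem Darb.mem_L (D : Darb S) (i : J) : i ∈ D.L ↔ D.s i ≠ 0 := by
  simp [Darb.L]

theorem Darb.tau_mem_L (D : Darb S) (i : J) : D.τ i ∈ D.L ↔ i ∈ D.L := by
  rw [D.mem_L, D.mem_L, D.hsτ, neg_ne_zero]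

theorem Darb.s_sq (D : Darb S) (i : J) : D.s i * D.s i = if i ∈ D.L then 1 else 0 := by
  by_cases h : i ∈ D.L
  · rw [if_pos h]
    rcases D.hs i with h0 | h0 | h0
    · exact absurd h0 ((D.mem_L i).1 h)
    · rw [h0]; norm_num
    · rw [h0]; norm_num
  · rw [if_neg h]
    have h0 : D.s i = 0 := by
      by_contra hne
      exact h ((D.mem_L i).2 hne)
    rw [h0]; norm_num

theorem Darb.d_expand (D : Darb S) (a : J) (f : B) :
    S.d a f = ∑ j, S.d a (D.ψ j) * D.E j f := by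
  have h1 : ∀ b, ∑ j, S.d a (D.ψ j) * D.E j (S.x b) = if a = b then 1 else 0 := fun b =>
    inv_swap S.d D.ψ (fun i j => D.E i (S.x j))
      (fun i k => by rw [← D.hE i (D.ψ k), D.hEψ]) a b
  have h2 : ∀ j, D.E j f = ∑ b, D.E j (S.x b) * S.d b f := fun j => D.hE j f
  calc S.d a f = ∑ b, (if a = b then 1 else 0) * S.d b f := by simp
    _ = ∑ b, (∑ j, S.d a (D.ψ j) * D.E j (S.x b)) * S.d b f :=
        Finset.sum_congr rfl fun b _ => by rw [h1]
    _ = ∑ j, S.d a (D.ψ j) * D.E j f := by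
        simp only [h2, Finset.sum_mul, Finset.mul_sum]
        rw [Finset.sum_comm]
        exact Finset.sum_congr rfl fun j _ => Finset.sum_congr rfl fun b _ => by ring

theorem Darb.frame_expand (D : Darb S) (v : Derivation ℝ B B) (hv : S.IsVF v) (f : B) :
    v f = ∑ j, v (D.ψ j) * D.E j f := by
  calc v f = ∑ a, v (S.x a) * S.d a f := hv f
    _ = ∑ a, v (S.x a) * ∑ j, S.d a (D.ψ j) * D.E j f :=
        Finset.sum_congr rfl fun a _ => by rw [← D.d_expand a f]
    _ = ∑ j, v (D.ψ j) * D.E j f := by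
        have h3 : ∀ j, v (D.ψ j) = ∑ a, v (S.x a) * S.d a (D.ψ j) := fun j => hv _
        simp only [h3, Finset.sum_mul, Finset.mul_sum]
        rw [Finset.sum_comm]
        exact Finset.sum_congr rfl fun j _ => Finset.sum_congr rfl fun b _ => by ring

theorem Darb.bi_expand (D : Darb S) {q : B → B → B} (h : IsBi S q) (f g : B) :
    q f g = ∑ j, ∑ k, q (D.ψ j) (D.ψ k) * D.E j f * D.E k g := by
  have h1 : ∀ f g, q f g = ∑ k, q f (D.ψ k) * D.E k g := by
    intro f g
    obtain ⟨v, hv, hvq⟩ := h.exists_der f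
    have := D.frame_expand v hv g
    rw [hvq] at this
    rw [this]
    exact Finset.sum_congr rfl fun k _ => by rw [hvq]
  have h2 : ∀ k, q f (D.ψ k) = ∑ j, q (D.ψ j) (D.ψ k) * D.E j f := by
    intro k
    rw [h.1, h1, ← Finset.sum_neg_distrib]
    refine Finset.sum_congr rfl fun j _ => ?_
    rw [h.1 (D.ψ k)]
    ring
  rw [h1 f g, Finset.sum_comm]
  refine Finset.sum_congr rfl fun k _ => ?_
  rw [h2, Finset.sum_mul]

theorem Darb.bi_ext (D : Darb S) {q q' : B → B → B} (h : IsBi S q) (h' : IsBi S q')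
    (e : ∀ j k, q (D.ψ j) (D.ψ k) = q' (D.ψ j) (D.ψ k)) (f g : B) : q f g = q' f g := by
  rw [D.bi_expand h f g, D.bi_expand h' f g]
  exact Finset.sum_congr rfl fun a _ => Finset.sum_congr rfl fun b _ => by rw [e]

theorem Darb.isVF_ext (D : Darb S) {v w : Derivation ℝ B B} (hv : S.IsVF v) (hw : S.IsVF w)
    (e : ∀ j, v (D.ψ j) = w (D.ψ j)) : v = w := by
  ext f
  rw [D.frame_expand v hv f, D.frame_expand w hw f]
  exact Finset.sum_congr rfl fun a _ => by rw [e]

/-- the derivations `∑ u_j E_j` are vector fields with `ψ`-components `u_j` -/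
theorem Darb.isVF_comb (D : Darb S) (u : J → B) : S.IsVF (∑ j, u j • D.E j) := by
  exact S.isVF_sum _ _ fun j _ => S.isVF_smul _ (D.hE j)

theorem Darb.comb_psi (D : Darb S) (u : J → B) (k : J) : (∑ j, u j • D.E j) (D.ψ k) = u k := by
  rw [der_comb_apply, Finset.sum_eq_single k]
  · rw [D.hEψ, if_pos rfl, mul_one]
  · intro b _ hb
    rw [D.hEψ, if_neg hb, mul_zero]
  · intro h; exact absurd (Finset.mem_univ k) h

theorem Darb.comb_apply (D : Darb S) (u : J → B) (f : B) :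
    (∑ j, u j • D.E j) f = ∑ j, u j * D.E j f := by
  exact der_comb_apply u D.E f

theorem Darb.br_psi (D : Darb S) (f : B) (j : J) :
    S.br f (D.ψ j) = D.s (D.τ j) • D.E (D.τ j) f := by
  rw [D.hbr, Finset.sum_eq_single (D.τ j)]
  · rw [D.hτ, D.hEψ, if_pos rfl, mul_one]
  · intro b _ hb
    rw [D.hEψ, if_neg, mul_zero, smul_zero]
    intro h
    apply hb
    rw [← h, D.hτ]
  · intro h; exact absurd (Finset.mem_univ _) h

theorem Darb.psi_br (D : Darb S) (f : B) (j : J) :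
    S.br (D.ψ j) f = D.s j • D.E (D.τ j) f := by
  rw [D.hbr, Finset.sum_eq_single j]
  · rw [D.hEψ, if_pos rfl, one_mul]
  · intro b _ hb
    rw [D.hEψ, if_neg hb, zero_mul, smul_zero]
  · intro h; exact absurd (Finset.mem_univ _) h

theorem Darb.br_psi_psi (D : Darb S) (i j : J) :
    S.br (D.ψ i) (D.ψ j) = algebraMap ℝ B (if j = D.τ i then D.s i else 0) := by
  rw [D.psi_br, D.hEψ]
  by_cases h : j = D.τ i
  · rw [if_pos h.symm, if_pos h, Algebra.algebraMap_eq_smul_one]
  · rw [if_neg (Ne.symm h), if_neg h, smul_zero, map_zero]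

theorem Darb.E_eq_zero_of_casimir (D : Darb S) (f : B) (hf : ∀ g, S.br f g = 0) (i : J)
    (hi : i ∈ D.L) : D.E i f = 0 := by
  have h1 := D.br_psi f (D.τ i)
  rw [hf, D.hτ] at h1
  have h2 := congrArg (fun b => (D.s i)⁻¹ • b) h1
  simp only [smul_zero, smul_smul] at h2
  rw [inv_mul_cancel₀ ((D.mem_L i).1 hi), one_smul] at h2
  exact h2.symm

theorem Darb.casimir_of_E_eq_zero (D : Darb S) (f : B) (hf : ∀ i ∈ D.L, D.E i f = 0) (g : B) :
    S.br f g = 0 := by
  rw [D.hbr]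
  refine Finset.sum_eq_zero fun i _ => ?_
  by_cases hi : i ∈ D.L
  · rw [hf i hi, zero_mul, smul_zero]
  · have h0 : D.s i = 0 := by
      by_contra hne
      exact hi ((D.mem_L i).2 hne)
    rw [h0, zero_smul]

theorem Darb.isVF_V (D : Darb S) : S.IsVF D.V := by
  exact S.isVF_sum _ _ fun j _ => S.isVF_smul _ (D.hE j)

private theorem Darb.V_apply' (D : Darb S) (f : B) :
    D.V f = ∑ i ∈ D.L, (1 / 2 : ℝ) • (D.ψ i * D.E i f) := by
  unfold Darb.V
  rw [der_sum_apply]
  refine Finset.sum_congr rfl fun i _ => ?_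
  rw [Derivation.smul_apply, smul_eq_mul, smul_mul_assoc]

private theorem Darb.hEψ_sum (D : Darb S) (j : J) :
    ∑ i ∈ D.L, (1 / 2 : ℝ) • (D.ψ i * D.E i (D.ψ j))
      = if j ∈ D.L then (1 / 2 : ℝ) • D.ψ j else 0 := by
  by_cases h : j ∈ D.L
  · rw [if_pos h, Finset.sum_eq_single j]
    · rw [D.hEψ, if_pos rfl, mul_one]
    · intro b _ hb
      rw [D.hEψ, if_neg hb, mul_zero, smul_zero]
    · intro h'; exact absurd h h'
  · rw [if_neg h]
    refine Finset.sum_eq_zero fun i hi => ?_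
    rw [D.hEψ, if_neg, mul_zero, smul_zero]
    rintro rfl
    exact h hi

theorem Darb.V_psi (D : Darb S) (j : J) :
    D.V (D.ψ j) = if j ∈ D.L then (1 / 2 : ℝ) • D.ψ j else 0 := by
  rw [D.V_apply', D.hEψ_sum]

theorem Darb.V_eq_a (D : Darb S) (f : B) : D.V f = ∑ l, D.a l * S.br (D.ψ l) f := by
  have h1 : ∑ l, D.a l * S.br (D.ψ l) f
      = ∑ l, if l ∈ D.L then (1 / 2 : ℝ) • (D.ψ (D.τ l) * D.E (D.τ l) f) else 0 := by
    refine Finset.sum_congr rfl fun l _ => ?_
    rw [D.psi_br, Darb.a, smul_mul_smul_comm]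
    have h2 := D.s_sq l
    by_cases hl : l ∈ D.L
    · rw [if_pos hl] at h2 ⊢
      congr 1
      linear_combination h2 / 2
    · rw [if_neg hl] at h2 ⊢
      rw [show D.s l / 2 * D.s l = 0 by linear_combination h2 / 2, zero_smul]
  rw [h1, D.V_apply', ← Finset.sum_filter, Finset.filter_mem_eq_inter, Finset.univ_inter]
  refine (Finset.sum_nbij' D.τ D.τ ?_ ?_ ?_ ?_ ?_).symm
  · intro i hi; exact (D.tau_mem_L i).2 hi
  · intro i hi; exact (D.tau_mem_L i).2 hi
  · intro i _; exact D.hτ i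
  · intro i _; exact D.hτ i
  · intro i _; rfl

theorem Darb.lie_V (D : Darb S) (f g : B) : lieB D.V S.br f g = -(S.br f g) := by
  have hE : ∀ i f, D.E i (D.V f) = D.V (D.E i f)
      + if i ∈ D.L then (1 / 2 : ℝ) • D.E i f else 0 := by
    intro i f
    rw [D.V_apply', D.V_apply', map_sum]
    have h1 : ∀ k ∈ D.L, D.E i ((1 / 2 : ℝ) • (D.ψ k * D.E k f))
        = (1 / 2 : ℝ) • (D.ψ k * D.E k (D.E i f)) + (1 / 2 : ℝ) • (if i = k then D.E k f else 0) := by
      intro k _
      rw [Derivation.map_smul, Derivation.leibniz, D.hEE i k f, D.hEψ, smul_eq_mul, smul_eq_mul,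
        smul_add]
      congr 2
      split_ifs <;> simp
    rw [Finset.sum_congr rfl h1, Finset.sum_add_distrib]
    congr 1
    by_cases hi : i ∈ D.L
    · rw [if_pos hi, Finset.sum_eq_single i]
      · rw [if_pos rfl]
      · intro b _ hb
        rw [if_neg (Ne.symm hb), smul_zero]
      · intro h; exact absurd hi h
    · rw [if_neg hi]
      refine Finset.sum_eq_zero fun k hk => ?_
      rw [if_neg, smul_zero]
      rintro rfl
      exact hi hk
  unfold lieB
  rw [D.hbr f g, D.hbr (D.V f) g, D.hbr f (D.V g), map_sum, ← Finset.sum_sub_distrib,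
    ← Finset.sum_sub_distrib, ← Finset.sum_neg_distrib]
  refine Finset.sum_congr rfl fun i _ => ?_
  rw [Derivation.map_smul, Derivation.leibniz, hE i f, hE (D.τ i) g, ← smul_sub, ← smul_sub,
    ← smul_neg, smul_eq_mul, smul_eq_mul]
  by_cases hi : i ∈ D.L
  · rw [if_pos hi, if_pos ((D.tau_mem_L i).2 hi)]
    congr 1
    have h2 : D.E i f * D.E (D.τ i) g = (1 / 2 : ℝ) • (D.E i f * D.E (D.τ i) g)
        + (1 / 2 : ℝ) • (D.E i f * D.E (D.τ i) g) := by
      rw [← add_smul]; norm_num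
    rw [add_mul, mul_add, smul_mul_assoc, mul_smul_comm]
    linear_combination h2
  · have h0 : D.s i = 0 := by
      by_contra hne
      exact hi ((D.mem_L i).2 hne)
    rw [h0, zero_smul, zero_smul]

theorem Darb.cyc_ext_psi (D : Darb S) {p q : B → B → B} (hp : IsBi S p) (hq : IsBi S q)
    (e : ∀ a b c, cyc p q (D.ψ a) (D.ψ b) (D.ψ c) = 0) (f g h : B) : cyc p q f g h = 0 := by
  have hx : ∀ f g h, cyc p q f g h = ∑ j, cyc p q (D.ψ j) g h * D.E j f := by
    intro f g h
    have h1 : ∀ f, cyc p q f g h = (∑ a, cyc p q (S.x a) g h • S.d a) f := by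
      intro f
      rw [der_comb_apply, cyc_expand hp hq]
    rw [h1 f, D.frame_expand _ (S.isVF_sum _ _ fun a _ => S.isVF_smul _ (S.isVF_d a)) f]
    exact Finset.sum_congr rfl fun j _ => by rw [← h1]
  have h0 : ∀ a b, ∀ h, cyc p q (D.ψ a) (D.ψ b) h = 0 := by
    intro a b h
    rw [← cyc_rotate p q h (D.ψ a) (D.ψ b), hx]
    refine Finset.sum_eq_zero fun c _ => ?_
    rw [e, zero_mul]
  have h1 : ∀ a, ∀ g h, cyc p q (D.ψ a) g h = 0 := by
    intro a g h
    rw [cyc_rotate p q (D.ψ a) g h, hx]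
    refine Finset.sum_eq_zero fun b _ => ?_
    rw [← cyc_rotate p q (D.ψ a) (D.ψ b) h, h0, zero_mul]
  rw [hx]
  refine Finset.sum_eq_zero fun a _ => ?_
  rw [h1, zero_mul]

theorem Darb.jacobi (D : Darb S) (f g h : B) :
    S.br (S.br f g) h + S.br (S.br g h) f + S.br (S.br h f) g = 0 := by
  have h1 : cyc S.br S.br f g h = 0 := by
    apply D.cyc_ext_psi (isBi_br S) (isBi_br S)
    intro a b c
    unfold cyc
    simp only [D.br_psi_psi, (isBi_br S).const_left, add_zero]
  have h2 : cyc S.br S.br f g h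
      = (2 : ℝ) • (S.br (S.br f g) h + S.br (S.br g h) f + S.br (S.br h f) g) := by
    unfold cyc
    rw [two_smul]
    ring
  rw [h2] at h1
  have h3 := congrArg (fun b => (2 : ℝ)⁻¹ • b) h1
  simp only [smul_zero, smul_smul] at h3
  rwa [inv_mul_cancel₀ two_ne_zero, one_smul] at h3

theorem Darb.lie_ham (D : Darb S) (f g h : B) : lieB (S.ham f) S.br g h = 0 := by
  unfold lieB
  simp only [S.ham_apply]
  have h1 := D.jacobi f g h
  rw [S.br_swap f (S.br g h), S.br_swap g (S.br f h), S.br_swap f h, (isBi_br S).neg_left]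
  linear_combination -h1

end E214
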