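import Pool.Agent.Work.MP_e214ac_gt.S.ClosedOp
import Pool.Agent.Work.MP_e214ac_gt.S.PullB

/-!
# Module S/CmpEx: existence and naturality of the comparison function

Proof.
* `isG_exists`: on vector fields `β' - β` is a matrix operator in the frame of `D`
  (`Darb.op_changeFrame`) with entries in `DOalg D.E`, and
  `lieB (β' v - β v) br = D F v - D F v = 0` (`hβeq`).  `closed_op` gives `μ`.  Define
  `G = (n - 2)⁻¹ • (...)`.
* `isG_pull`: let `(μ, f)` belong to `G`.  Take `μ'_k` = the restriction of `μ_k` (`exist_restrict`)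
  and `ρ f`.  Conditions for `v'` of the form `(ρ g) D₁'.E k`: images of the conditions on `B`; in
  general by `restrict_unique`: `g ↦ (β₂'(g E'_k) - β₁'(g E'_k)) (ψ'_j) - {op1 μ' (g E'_k), ψ'_j}` is a
  differential operator on `C` that vanishes on `ρ(B)` (write `β₂'` in the frame of `D₁'` by
  `op_changeFrame`); then additivity in `v'` and `Darb.isVF_ext`.  The condition on `V`: both sides
  are vector fields (in `h`) which agree on `ρ(B)` (`pull_V`), use `Mor.inj`.  The last condition is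
  the image under `ρ` of the one on `B` (`pull_V`, `pull_a`, `pull_X`; `V₂' ψ'_k = ρ (V₂ ψ_k)`).
-/

set_option autoImplicit false

namespace E214

variable {J : Type} [Fintype J] [DecidableEq J] {B : Type} [CommRing B] [Algebra ℝ B]
  {C : Type} [CommRing C] [Algebra ℝ C]
  {n : ℕ} {F : List (ℝ × Diagram n)} {S : AffP J B} {S' : AffP J C}

theorem isG_exists (D D' : PDat F S) (hn : 3 ≤ n) (f : B)
    (hf : ∀ h, D'.V h - D.V h = S.br f h) : ∃ G, IsG D D' G := by
  obtain ⟨T, hT, hTe⟩ := D.op_changeFrame D'.toDarb D'.βop D'.hβ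
  have hopsub : ∀ v, D.op (fun j k => T j k - D.βop j k) v = D.op T v - D.op D.βop v := by
    intro v
    refine D.isVF_ext (D.op_isVF _ v) (S.isVF_sub (D.op_isVF T v) (D.op_isVF D.βop v))
      fun j => ?_
    rw [Derivation.sub_apply, D.op_psi, D.op_psi, D.op_psi, ← Finset.sum_sub_distrib]
    rfl
  have hb : IsBi S S.br := isBi_br S
  obtain ⟨μ, hμ, hμe⟩ := closed_op D.toDarb D.hL (fun j k => T j k - D.βop j k)
    (fun j k => Subalgebra.sub_mem _ (hT j k) (D.hβ j k)) fun v hv f g => by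
      have h1 := D'.hβeq v hv f g
      have h2 := D.hβeq v hv f g
      rw [hTe v hv] at h1
      rw [hopsub]
      unfold lieB at h1 h2 ⊢
      simp only [Derivation.sub_apply, hb.sub_left, hb.sub_right]
      linear_combination h1 - h2
  have hn3 : (3 : ℝ) ≤ n := by exact_mod_cast hn
  refine ⟨((n : ℝ) - 2)⁻¹ • (D.op1 μ D'.V + D.m f + D.X f + ∑ l, D.a l * D.X (D.ψ l)
      - ∑ l, D'.a l * D.X (D'.ψ l)), μ, f, hμ, fun v hv h => ?_, hf, ?_⟩
  · rw [← hμe v hv h, hopsub, Derivation.sub_apply, ← hTe v hv]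
    rfl
  · rw [smul_smul, mul_inv_cancel₀ (by linarith), one_smul]

theorem isG_pull {ρ : B →ₐ[ℝ] C} (hρ : Mor F S S' ρ) {D₁ D₂ : PDat F S} {D₁' D₂' : PDat F S'}
    (h₁ : IsPull ρ D₁ D₁') (h₂ : IsPull ρ D₂ D₂') {G : B} (hG : IsG D₁ D₂ G) :
    IsG D₁' D₂' (ρ G) := by
  obtain ⟨μ, f, hμ, hβ, hV, hG⟩ := hG
  have hb : IsBi S' S'.br := isBi_br S'
  choose μ' hμ' hμ'e using fun k => exists_restrict D₁.toFrame D₁'.toFrame ρ h₁.E (μ k) (hμ k)
  have hV' : ∀ h, D₂'.V h - D₁'.V h = S'.br (ρ f) h := by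
    intro h
    have e1 : D₂'.V - D₁'.V - S'.ham (ρ f) = 0 := by
      refine hρ.inj _ (S'.isVF_sub (S'.isVF_sub D₂'.isVF_V D₁'.isVF_V) (S'.isVF_ham _))
        fun g => ?_
      rw [Derivation.sub_apply, Derivation.sub_apply, S'.ham_apply, pull_V h₁, pull_V h₂, ← hρ.br,
        ← hV, map_sub, sub_self]
    have e2 := congrArg (fun w : Derivation ℝ C C => w h) e1
    simp only [Derivation.sub_apply, S'.ham_apply] at e2
    exact sub_eq_zero.1 e2
  refine ⟨μ', ρ f, hμ', fun v hv h => ?_, hV', ?_⟩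
  · obtain ⟨T, hT, hTe⟩ := D₁'.op_changeFrame D₂'.toDarb D₂'.βop D₂'.hβ
    have key : ∀ j k, T j k - D₁'.βop j k
        - (D₁'.s (D₁'.τ j) • ((D₁'.E (D₁'.τ j) : C →ₗ[ℝ] C) : Module.End ℝ C)) * μ' k = 0 := by
      intro j k
      refine restrict_unique D₁.toFrame D₁'.toFrame ρ h₁.ψ _ (Subalgebra.sub_mem _
        (Subalgebra.sub_mem _ (hT j k) (D₁'.hβ j k)) (Subalgebra.mul_mem _
          (Subalgebra.smul_mem _ (der_mem_DOalg D₁'.E _) _) (hμ' k))) fun g => ?_
      change T j k (ρ g) - D₁'.βop j k (ρ g)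
        - D₁'.s (D₁'.τ j) • D₁'.E (D₁'.τ j) (μ' k (ρ g)) = 0
      rw [← D₁'.br_psi, h₁.βop, hμ'e, h₁.ψ]
      have hw : S.IsVF (g • D₁.E k) := S.isVF_smul _ (D₁.hE k)
      have hw' : S'.IsVF (ρ g • D₁'.E k) := S'.isVF_smul _ (D₁'.hE k)
      have hww : ∀ u, (ρ g • D₁'.E k) (ρ u) = ρ ((g • D₁.E k) u) := by
        intro u
        rw [Derivation.smul_apply, Derivation.smul_apply, smul_eq_mul, smul_eq_mul, h₁.E, map_mul]
      have e1 : T j k (ρ g) = ρ (D₂.β (g • D₁.E k) (D₁.ψ j)) := by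
        rw [← D₁'.op_single T k (ρ g) j, ← hTe _ hw', h₁.ψ]
        unfold PDat.β Darb.op
        rw [D₂'.comb_apply, D₂.comb_apply, map_sum]
        refine Finset.sum_congr rfl fun l _ => ?_
        rw [h₂.E, map_mul, map_sum]
        congr 1
        refine Finset.sum_congr rfl fun i _ => ?_
        rw [h₂.ψ, hww, h₂.βop]
      have e2 := hβ _ hw (D₁.ψ j)
      have e3 : D₁.β (g • D₁.E k) (D₁.ψ j) = D₁.βop j k g := D₁.op_single D₁.βop k g j
      rw [e3, D₁.op1_single] at e2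
      rw [e1, ← hρ.br, ← e2, ← map_sub, sub_self]
    have e4 : D₁'.op T v - D₁'.op D₁'.βop v = S'.ham (D₁'.op1 μ' v) := by
      refine D₁'.isVF_ext (S'.isVF_sub (D₁'.op_isVF _ _) (D₁'.op_isVF _ _)) (S'.isVF_ham _)
        fun j => ?_
      rw [Derivation.sub_apply, D₁'.op_psi, D₁'.op_psi, S'.ham_apply, ← Finset.sum_sub_distrib]
      unfold Darb.op1
      rw [hb.sum_left]
      refine Finset.sum_congr rfl fun k _ => ?_
      have e5 := congrArg (fun T : Module.End ℝ C => T (v (D₁'.ψ k))) (key j k)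
      change T j k (v (D₁'.ψ k)) - D₁'.βop j k (v (D₁'.ψ k))
        - D₁'.s (D₁'.τ j) • D₁'.E (D₁'.τ j) (μ' k (v (D₁'.ψ k))) = 0 at e5
      rw [← D₁'.br_psi] at e5
      exact sub_eq_zero.1 e5
    rw [← S'.ham_apply, ← e4, Derivation.sub_apply, ← hTe v hv]
    rfl
  · rw [← map_smul, hG]
    simp only [map_add, map_sub, map_sum, map_mul]
    rw [h₁.m, pull_X hρ h₁]
    congr 1
    · congr 1
      · congr 2
        unfold Darb.op1
        rw [map_sum]
        refine Finset.sum_congr rfl fun k _ => ?_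
        rw [← hμ'e, h₁.ψ, pull_V h₂]
      · refine Finset.sum_congr rfl fun l _ => ?_
        rw [pull_a h₁, h₁.ψ, pull_X hρ h₁]
    · refine Finset.sum_congr rfl fun l _ => ?_
      rw [pull_a h₂, h₂.ψ, pull_X hρ h₁]

end E214
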