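import Pool.Agent.Work.MP_e214ac_gt.S.ClosedOp
import Pool.Agent.Work.MP_e214ac_gt.S.Prim

/-!
# Module S/Cmp: the comparison function is a Hamiltonian of `X' - X`

Notation: `D`, `D'` two data over the same `S`; `IsG D D' G` with `μ`, `f`; `N = n - 2`;
`(ι_a Q)(h) = ∑_l a_l Q(ψ_l, h)`, and for a vector field `W` put `c(W) = ∑ a'_l W(ψ'_l) - ∑ a_l W(ψ_l) - W f`.

Proof of `isG_sub`.
1. `c(ham h) = 0`: `∑ a'_l {h, ψ'_l} = - V' h` and `∑ a_l {h, ψ_l} = - V h` (`V_eq_a`), `(ham h) f =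
   {h, f} = - {f, h} = - (V' h - V h)`.  In other words
   `∑ a'_l {ψ'_l, h} - ∑ a_l {ψ_l, h} - {f, h} = 0` for all `h`. (1)
2. (`conormal`) for all `h`:
   `(ι_{a'} Q)(h) - (ι_a Q)(h) - Q(f, h) = - {c(X), h} - X_{F'}(h) + X_F(h)`,
   where `X_F(h) = ∑_{l ∈ L} X(ψ_l) E_l h`, `X_{F'}(h) = ∑_{l ∈ L'} X(ψ'_l) E'_l h`, `X = D.X`.
   Use `Q(u, h) = X{u, h} - {X u, h} - {u, X h}` (`prim`) in all terms on the left:
   * `∑ u_i {v_i, X h}` (with `(u_i, v_i)` running through `(a'_l, ψ'_l)`, `(- a_l, ψ_l)`, `(-1, f)`) is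
     `0` by (1) with `X h` in place of `h`;
   * apply `X` to (1): `∑ u_i X{v_i, h} = - ∑ (X u_i) {v_i, h}`;
   * `∑ u_i {X v_i, h} = {∑ u_i X v_i, h} - ∑ {u_i, h} X v_i = {c(X), h} - ∑ {u_i, h} X v_i`.
   So the left side is `- {c(X), h} - ∑ [(X u_i) {v_i, h} - {u_i, h} (X v_i)]`.  The bracketed sum for
   `(a_l, ψ_l)`: with `a_l = ½ s_l ψ_{τ l}`, `{ψ_l, h} = s_l E_{τ l} h`, `{ψ_{τ l}, h} = - s_l E_l h`:
   `∑_l ½ s_l [X(ψ_{τ l}) s_l E_{τ l} h + s_l E_l h X(ψ_l)] = X_F(h)` (substitute `l ↦ τ l` in the first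
   part).  The same for `D'`, and the term `(-1, f)` contributes `0`.
3. `Y(h) := ∑_k Y^k E_k h = β(V) h + (ι_a Q)(h)` (frame expansion), and
   `Y(h) = (n - 2) X h + (X h - X_F(h))` because `Y^k = (n - 1 - [k]) X(ψ_k)`.  The same for `D'`.
4. `Y'(h) - Y(h) = {op1 μ V' , h} + β(V' - V) h + (ι_{a'} Q)(h) - (ι_a Q)(h)`, `V' - V = ham f` (both
   are vector fields), `β(ham f) h = {m f, h} - Q(f, h)` (`hmeq`).  With 2. this is
   `{op1 μ V' + m f - c(X), h} - X_{F'}(h) + X_F(h)`. (4)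
5. If `h` is a Casimir then the right side of (4) vanishes (`E_l h = 0` for `l ∈ L`, `E'_l h = 0` for
   `l ∈ L'`), and `Y h = (n - 1) X h`, `Y' h = (n - 1) X' h`.  So `X' h = X h` for Casimirs; in
   particular for `h = ψ'_k`, `k ∉ L'` (`casimir_eq`).
6. (4) with 3.: `(n - 2)(X' h - X h) + (X' h - X'_{F'}(h)) - (X h - X_F(h)) =
   {op1 μ V' + m f - c(X), h} - X_{F'}(h) + X_F(h)`, i.e.
   `(n - 2)(X' h - X h) + [(X' - X) h - (X' - X)_{F'}(h)] = {op1 μ V' + m f - c(X), h}`, and the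
   square bracket is `∑_{k ∉ L'} (X' - X)(ψ'_k) E'_k h = 0` by 5.
7. `op1 μ V' + m f - c(X) = (n - 2) G` by the definition of `IsG` (`- c(X) = X f + ∑ a_l X ψ_l -
   ∑ a'_l X ψ'_l`); divide by `n - 2 ≠ 0`.

`isG_unique`: two pairs `(μ, f)`, `(μ₁, f₁)`: `op1 (μ - μ₁)` has vanishing Hamiltonian fields, so
`μ = μ₁` (`op1_unique`); `f - f₁` is a Casimir, so `m (f - f₁) + X (f - f₁) = 0` (`hD`).
-/

set_option autoImplicit false

namespace E214

variable {J : Type} [Fintype J] [DecidableEq J] {B : Type} [CommRing B] [Algebra ℝ B]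
  {n : ℕ} {F : List (ℝ × Diagram n)} {S : AffP J B}

private theorem cmp_swap (D : Darb S) (Z : Derivation ℝ B B) (h : B) :
    ∑ l, (Z (D.a l) * S.br (D.ψ l) h - Z (D.ψ l) * S.br (D.a l) h)
      = ∑ l ∈ D.L, Z (D.ψ l) * D.E l h := by
  have hb : IsBi S S.br := isBi_br S
  have e1 : ∀ l, Z (D.a l) * S.br (D.ψ l) h - Z (D.ψ l) * S.br (D.a l) h
      = ((1 / 2 : ℝ) * (if l ∈ D.L then 1 else 0)) • (Z (D.ψ (D.τ l)) * D.E (D.τ l) h)
        + ((1 / 2 : ℝ) * (if l ∈ D.L then 1 else 0)) • (Z (D.ψ l) * D.E l h) := by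
    intro l
    rw [← D.s_sq l]
    unfold Darb.a
    rw [Derivation.map_smul, hb.smul_left, D.psi_br, D.psi_br, D.hτ, D.hsτ, smul_mul_smul_comm,
      mul_smul_comm, mul_smul_comm, smul_smul, neg_eq_neg_one_mul, mul_comm (-1 : ℝ), mul_neg_one,
      mul_neg, neg_smul, sub_neg_eq_add]
    congr 2 <;> ring
  simp only [e1, Finset.sum_add_distrib]
  have e2 : ∑ l, ((1 / 2 : ℝ) * (if l ∈ D.L then 1 else 0)) • (Z (D.ψ (D.τ l)) * D.E (D.τ l) h)
      = ∑ l, ((1 / 2 : ℝ) * (if l ∈ D.L then 1 else 0)) • (Z (D.ψ l) * D.E l h) := by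
    refine Finset.sum_nbij' D.τ D.τ (by simp) (by simp) (by simp [D.hτ]) (by simp [D.hτ]) ?_
    intro l _
    simp only [D.tau_mem_L]
  rw [e2, ← Finset.sum_add_distrib]
  have e3 : ∀ l, ((1 / 2 : ℝ) * (if l ∈ D.L then 1 else 0)) • (Z (D.ψ l) * D.E l h)
      + ((1 / 2 : ℝ) * (if l ∈ D.L then 1 else 0)) • (Z (D.ψ l) * D.E l h)
      = if l ∈ D.L then Z (D.ψ l) * D.E l h else 0 := by
    intro l
    rw [← add_smul]
    by_cases hl : l ∈ D.L
    · rw [if_pos hl, if_pos hl, mul_one, add_halves, one_smul]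
    · rw [if_neg hl, if_neg hl, mul_zero, add_zero, zero_smul]
  simp only [e3]
  rw [← Finset.sum_filter, Finset.filter_mem_eq_inter, Finset.univ_inter]

/-- the formula for `ι_a Q` -/
private theorem cmp_iota (Z : Derivation ℝ B B) (hZ : ∀ u g, lieB Z S.br u g = S.Q F u g)
    (D : Darb S) (h : B) :
    ∑ l, D.a l * S.Q F (D.ψ l) h
      = Z (D.V h) - D.V (Z h) - S.br (∑ l, D.a l * Z (D.ψ l)) h
        - ∑ l ∈ D.L, Z (D.ψ l) * D.E l h := by
  have hb : IsBi S S.br := isBi_br S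
  rw [← cmp_swap D Z h, D.V_eq_a h, D.V_eq_a (Z h), map_sum, hb.sum_left,
    ← Finset.sum_sub_distrib, ← Finset.sum_sub_distrib, ← Finset.sum_sub_distrib]
  refine Finset.sum_congr rfl fun l _ => ?_
  rw [← hZ, Derivation.leibniz, hb.mul_left]
  unfold lieB
  simp only [smul_eq_mul]
  ring

theorem conormal (D D' : PDat F S) (hn : 3 ≤ n) (f : B)
    (hf : ∀ h, D'.V h - D.V h = S.br f h) (h : B) :
    (∑ l, D'.a l * S.Q F (D'.ψ l) h) - (∑ l, D.a l * S.Q F (D.ψ l) h) - S.Q F f h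
      = - S.br ((∑ l, D'.a l * D.X (D'.ψ l)) - (∑ l, D.a l * D.X (D.ψ l)) - D.X f) h
        - (∑ l ∈ D'.L, D.X (D'.ψ l) * D'.E l h) + ∑ l ∈ D.L, D.X (D.ψ l) * D.E l h := by
  have hb : IsBi S S.br := isBi_br S
  have hX : ∀ u g, lieB D.X S.br u g = S.Q F u g := fun u g => prim D hn u g
  rw [cmp_iota D.X hX D'.toDarb h, cmp_iota D.X hX D.toDarb h]
  have h1 : S.Q F f h = D.X (S.br f h) - S.br (D.X f) h - S.br f (D.X h) := (hX f h).symm
  rw [h1, ← hf h, ← hf (D.X h), hb.sub_left, hb.sub_left, map_sub]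
  ring

private theorem cmp_Y (D : PDat F S) (hn : 3 ≤ n) (h : B) :
    D.β D.V h + ∑ l, D.a l * S.Q F (D.ψ l) h
      = ((n : ℝ) - 1) • D.X h - ∑ l ∈ D.L, D.X (D.ψ l) * D.E l h := by
  have hq : IsBi S (S.Q F) := isBi_Q S F
  have hn3 : (3 : ℝ) ≤ n := by exact_mod_cast hn
  have hY : ∀ k, D.Y k = ((n : ℝ) - 1 - if k ∈ D.L then 1 else 0) • D.X (D.ψ k) := by
    intro k
    rw [X_psi, smul_smul, mul_inv_cancel₀, one_smul]
    split_ifs <;> linarith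
  have h1 : D.β D.V h + ∑ l, D.a l * S.Q F (D.ψ l) h = ∑ k, D.Y k * D.E k h := by
    have e1 : D.β D.V h = ∑ k, D.β D.V (D.ψ k) * D.E k h :=
      D.frame_expand _ (D.op_isVF _ _) h
    have e2 : ∀ l, S.Q F (D.ψ l) h = ∑ k, S.Q F (D.ψ l) (D.ψ k) * D.E k h := by
      intro l
      obtain ⟨w, hw, hwe⟩ := hq.exists_der (D.ψ l)
      rw [← hwe, D.frame_expand w hw h]
      exact Finset.sum_congr rfl fun k _ => by rw [hwe]
    rw [e1]
    unfold PDat.Y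
    simp only [e2, Finset.mul_sum, add_mul, Finset.sum_mul, Finset.sum_add_distrib]
    congr 1
    rw [Finset.sum_comm]
    exact Finset.sum_congr rfl fun k _ => Finset.sum_congr rfl fun l _ => by ring
  rw [h1, D.frame_expand _ (X_isVF D) h, Finset.smul_sum,
    show ∑ l ∈ D.L, D.X (D.ψ l) * D.E l h
      = ∑ l, if l ∈ D.L then D.X (D.ψ l) * D.E l h else 0 by
        rw [← Finset.sum_filter, Finset.filter_mem_eq_inter, Finset.univ_inter],
    ← Finset.sum_sub_distrib]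
  refine Finset.sum_congr rfl fun k _ => ?_
  rw [hY]
  by_cases hk : k ∈ D.L
  · rw [if_pos hk, if_pos hk, smul_mul_assoc, sub_smul _ (1 : ℝ), one_smul]
  · rw [if_neg hk, if_neg hk, smul_mul_assoc, sub_zero, sub_zero]

private theorem cmp_four (D D' : PDat F S) (hn : 3 ≤ n) (μ : J → Module.End ℝ B) (f : B)
    (hβ : ∀ v, S.IsVF v → ∀ h, D'.β v h - D.β v h = S.br (D.op1 μ v) h)
    (hV : ∀ h, D'.V h - D.V h = S.br f h) (h : B) :
    (((n : ℝ) - 1) • D'.X h - ∑ l ∈ D'.L, D'.X (D'.ψ l) * D'.E l h)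
      - (((n : ℝ) - 1) • D.X h - ∑ l ∈ D.L, D.X (D.ψ l) * D.E l h)
      = S.br (D.op1 μ D'.V + D.m f - ((∑ l, D'.a l * D.X (D'.ψ l))
          - (∑ l, D.a l * D.X (D.ψ l)) - D.X f)) h
        - (∑ l ∈ D'.L, D.X (D'.ψ l) * D'.E l h) + ∑ l ∈ D.L, D.X (D.ψ l) * D.E l h := by
  have hb : IsBi S S.br := isBi_br S
  rw [← cmp_Y D' hn h, ← cmp_Y D hn h]
  have h1 := hβ D'.V D'.isVF_V h
  have h2 : D'.V - D.V = S.ham f := by
    ext g
    rw [Derivation.sub_apply, S.ham_apply, hV]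
  have h3 : D.β D'.V h - D.β D.V h = D.β (S.ham f) h := by
    unfold PDat.β
    rw [← h2, D.op_sub, Derivation.sub_apply]
  have h4 := D.hmeq f h
  have h5 := conormal D D' hn f hV h
  change D.β (S.ham f) h + S.Q F f h = _ at h4
  rw [hb.sub_left, hb.add_left]
  linear_combination h1 + h3 + h4 + h5

private theorem cmp_casimir (D D' : PDat F S) (hn : 3 ≤ n) (μ : J → Module.End ℝ B) (f : B)
    (hβ : ∀ v, S.IsVF v → ∀ h, D'.β v h - D.β v h = S.br (D.op1 μ v) h)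
    (hV : ∀ h, D'.V h - D.V h = S.br f h) (h : B) (hh : ∀ g, S.br h g = 0) :
    D'.X h = D.X h := by
  have h4 := cmp_four D D' hn μ f hβ hV h
  have hn3 : (3 : ℝ) ≤ n := by exact_mod_cast hn
  have z : ∀ (D0 D1 : PDat F S), ∑ l ∈ D0.L, D1.X (D0.ψ l) * D0.E l h = 0 := by
    intro D0 D1
    refine Finset.sum_eq_zero fun l hl => ?_
    rw [D0.E_eq_zero_of_casimir h hh l hl, mul_zero]
  rw [z D' D', z D D, z D' D, S.br_swap, hh] at h4
  simp only [sub_zero, neg_zero, add_zero] at h4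
  have h8 := congrArg (fun b => ((n : ℝ) - 1)⁻¹ • b) (sub_eq_zero.1 h4)
  simp only [smul_smul] at h8
  rwa [inv_mul_cancel₀ (by linarith), one_smul, one_smul] at h8

theorem isG_sub (D D' : PDat F S) (hn : 3 ≤ n) (G : B) (hG : IsG D D' G) (h : B) :
    D'.X h - D.X h = S.br G h := by
  obtain ⟨μ, f, hμ, hβ, hV, hG⟩ := hG
  have hb : IsBi S S.br := isBi_br S
  have h4 := cmp_four D D' hn μ f hβ hV h
  have hcas : ∀ k, k ∉ D'.L → D'.X (D'.ψ k) = D.X (D'.ψ k) := by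
    intro k hk
    refine cmp_casimir D D' hn μ f hβ hV _ fun g => ?_
    have h0 : D'.s k = 0 := by
      by_contra hne
      exact hk ((D'.mem_L k).2 hne)
    rw [D'.psi_br, h0, zero_smul]
  have h6 : ∑ l ∈ D'.L, D'.X (D'.ψ l) * D'.E l h - ∑ l ∈ D'.L, D.X (D'.ψ l) * D'.E l h
      = D'.X h - D.X h := by
    rw [D'.frame_expand _ (X_isVF D') h, D'.frame_expand _ (X_isVF D) h,
      ← Finset.sum_sub_distrib, ← Finset.sum_sub_distrib]
    refine Finset.sum_subset (Finset.subset_univ _) fun k _ hk => ?_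
    rw [hcas k hk, sub_self]
  have h7 : ((n : ℝ) - 2) • (D'.X h - D.X h) = ((n : ℝ) - 2) • S.br G h := by
    rw [← hb.smul_left, hG]
    have e1 : D.op1 μ D'.V + D.m f + D.X f + ∑ l, D.a l * D.X (D.ψ l)
        - ∑ l, D'.a l * D.X (D'.ψ l)
        = D.op1 μ D'.V + D.m f - ((∑ l, D'.a l * D.X (D'.ψ l))
          - (∑ l, D.a l * D.X (D.ψ l)) - D.X f) := by ring
    rw [e1]
    have e2 : ((n : ℝ) - 2) • (D'.X h - D.X h)
        = ((n : ℝ) - 1) • (D'.X h) - ((n : ℝ) - 1) • (D.X h) - (D'.X h - D.X h) := by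
      module
    rw [e2]
    linear_combination h4 + h6
  have hn3 : (3 : ℝ) ≤ n := by exact_mod_cast hn
  have h8 := congrArg (fun b => ((n : ℝ) - 2)⁻¹ • b) h7
  simp only [smul_smul] at h8
  rwa [inv_mul_cancel₀ (by linarith), one_smul, one_smul] at h8

theorem casimir_eq (D D' : PDat F S) (hn : 3 ≤ n) (G : B) (hG : IsG D D' G) (h : B)
    (hh : ∀ g, S.br h g = 0) : D'.X h = D.X h := by
  obtain ⟨μ, f, hμ, hβ, hV, hG⟩ := hG
  exact cmp_casimir D D' hn μ f hβ hV h hh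

theorem isG_unique (D D' : PDat F S) (hn : 3 ≤ n) (hD : D.Cas) (G G' : B) (hG : IsG D D' G)
    (hG' : IsG D D' G') : G = G' := by
  obtain ⟨μ, f, hμ, hβ, hV, hG⟩ := hG
  obtain ⟨μ₁, f₁, hμ₁, hβ₁, hV₁, hG₁⟩ := hG'
  have hb : IsBi S S.br := isBi_br S
  have h1 : ∀ k, μ k - μ₁ k = 0 := by
    refine op1_unique D.toDarb D.hL (fun k => μ k - μ₁ k)
      (fun k => Subalgebra.sub_mem _ (hμ k) (hμ₁ k)) fun v hv g => ?_
    have e1 : D.op1 (fun k => μ k - μ₁ k) v = D.op1 μ v - D.op1 μ₁ v := by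
      unfold Darb.op1
      rw [← Finset.sum_sub_distrib]
      rfl
    rw [e1, hb.sub_left, ← hβ v hv, ← hβ₁ v hv, sub_self]
  have h2 : μ = μ₁ := funext fun k => sub_eq_zero.1 (h1 k)
  have h3 := hD (f - f₁) fun g => by rw [hb.sub_left, ← hV, ← hV₁, sub_self]
  rw [map_sub, map_sub] at h3
  subst h2
  have hn3 : (3 : ℝ) ≤ n := by exact_mod_cast hn
  have h4 : ((n : ℝ) - 2) • G = ((n : ℝ) - 2) • G' := by
    rw [hG, hG₁]
    linear_combination h3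
  have h8 := congrArg (fun b => ((n : ℝ) - 2)⁻¹ • b) h4
  simp only [smul_smul] at h8
  rwa [inv_mul_cancel₀ (by linarith), one_smul, one_smul] at h8

end E214
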