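import Pool.Agent.Work.MP_e214ac_gt.S.Cmp

/-!
# Module S/CmpAdd: the comparison functions form a cocycle

Proof of `isG_trans`.  Let `(μ, f)` belong to `G` (for `D, D'`) and `(μ', f')` to `G'` (for
`D', D''`).  Take `μ'' = μ + μ'₂` where `μ'₂` is `μ'` in the frame of `D` (`Darb.op1_changeFrame`), and
`f'' = f + f'`.  The first three conditions are immediate
(`β'' - β = (β'' - β') + (β' - β)`, `V'' - V = (V'' - V') + (V' - V)`).  For the last one:
* `m' g = m g + op1 μ (ham g)` for all `g`: from `hmeq` for `D'` and `D`,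
  `{m' g - m g, h} = (β' - β)(ham g) h = {op1 μ (ham g), h}`, and `op1_ham_mem`, `do_unique`
  (`m' ∈ DOalg D.E` by `Darb.DOalg_eq`).
* `V'' - V' = ham f'` as vector fields, so `op1 μ V'' = op1 μ V' + op1 μ (ham f')`.
* `(n-2)(G + G') = op1 μ V' + op1 μ' V'' + m f + X f + m' f' + X' f' + ∑ a_l X ψ_l - ∑ a'_l X ψ'_l
   + ∑ a'_l X' ψ'_l - ∑ a''_l X' ψ''_l`.
  Subtract `op1 μ V'' + op1 μ' V'' + m (f + f') + X (f + f') + ∑ a_l X ψ_l - ∑ a''_l X ψ''_l`: what
  remains is `- op1 μ (ham f') + (m' f' - m f') + (X' - X) f' + ∑ a'_l (X' - X) ψ'_l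
   - ∑ a''_l (X' - X) ψ''_l`.  The first two terms cancel.  `X' - X = {G, ·}` (`isG_sub`), and
  `∑ a'_l {G, ψ'_l} = - V' G`, `∑ a''_l {G, ψ''_l} = - V'' G` (`V_eq_a`), so the rest is
  `{G, f'} - V' G + V'' G = {G, f'} + {f', G} = 0`.
-/

set_option autoImplicit false

namespace E214

variable {J : Type} [Fintype J] [DecidableEq J] {B : Type} [CommRing B] [Algebra ℝ B]
  {n : ℕ} {F : List (ℝ × Diagram n)} {S : AffP J B}

theorem isG_trans (D D' D'' : PDat F S) (hn : 3 ≤ n) (G G' : B) (hG : IsG D D' G)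
    (hG' : IsG D' D'' G') : IsG D D'' (G + G') := by
  have hsub := isG_sub D D' hn G hG
  obtain ⟨μ, f, hμ, hβ, hV, hG⟩ := hG
  obtain ⟨μ', f', hμ', hβ', hV', hG'⟩ := hG'
  have hb : IsBi S S.br := isBi_br S
  obtain ⟨T, hT, hTe⟩ := D.op1_changeFrame D'.toDarb μ' hμ'
  obtain ⟨U, hU, hUe⟩ := D.op1_ham_mem μ hμ
  have hmm : D'.m - D.m - U = 0 := by
    refine do_unique D.toDarb D.hL _ (Subalgebra.sub_mem _ (Subalgebra.sub_mem _ ?_ D.hm) hU)
      fun g h => ?_
    · rw [D.DOalg_eq, ← D'.DOalg_eq]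
      exact D'.hm
    · rw [LinearMap.sub_apply, LinearMap.sub_apply, hb.sub_left, hb.sub_left, hUe,
        ← D'.hmeq, ← D.hmeq, ← hβ (S.ham g) (S.isVF_ham g) h]
      change (D'.β (S.ham g) h + _) - (D.β (S.ham g) h + _) - _ = 0
      ring
  have hme : ∀ g, D'.m g = D.m g + D.op1 μ (S.ham g) := by
    intro g
    have h1 := congrArg (fun T : Module.End ℝ B => T g) hmm
    simp only [LinearMap.sub_apply, LinearMap.zero_apply, hUe] at h1
    linear_combination h1
  have e1 : ∀ v, D.op1 (fun k => μ k + T k) v = D.op1 μ v + D.op1 T v := by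
    intro v
    unfold Darb.op1
    rw [← Finset.sum_add_distrib]
    rfl
  refine ⟨fun k => μ k + T k, f + f', fun k => Subalgebra.add_mem _ (hμ k) (hT k),
    fun v hv h => ?_, fun h => ?_, ?_⟩
  · rw [e1, hb.add_left, ← hβ v hv h, ← hTe v hv, ← hβ' v hv h]
    ring
  · rw [hb.add_left, ← hV h, ← hV' h]
    ring
  · have h2 : D''.V = D'.V + S.ham f' := by
      ext g
      rw [Derivation.add_apply, S.ham_apply, ← hV']
      ring
    have h3 : D.op1 μ D''.V = D.op1 μ D'.V + D.op1 μ (S.ham f') := by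
      rw [h2, D.op1_add]
    have h4 : ∀ D0 : PDat F S, ∑ l, D0.a l * D'.X (D0.ψ l)
        = ∑ l, D0.a l * D.X (D0.ψ l) - D0.V G := by
      intro D0
      rw [D0.V_eq_a G, ← Finset.sum_sub_distrib]
      refine Finset.sum_congr rfl fun l _ => ?_
      have h5 := hsub (D0.ψ l)
      rw [S.br_swap] at h5
      linear_combination D0.a l * h5
    have h5 := hsub f'
    have h6 := hV' G
    have h7 := S.br_swap G f'
    rw [smul_add, hG, hG', e1, h3, hTe _ D''.isVF_V, hme f', h4 D', h4 D'', map_add, map_add]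
    linear_combination h5 + h6 + h7

end E214
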