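import Pool.Agent.Work.MP_e214ac_gt.S.ClosedOp
import Pool.Agent.Work.MP_e214ac_gt.S.Prim
import Pool.Agent.Work.MP_e214ac_gt.G.Van

/-!
# Module S/Flat: no Casimirs where the bivector is constant in the affine coordinates

Assume `∂_c P_ab = 0` for all `a, b, c` and `n ≥ 3`.

Proof.
1. `Qc F a b = 0`: `evalHom_van` with the ideal `⊥`.  So `Q F = 0`.
2. For every vector field `v` (and `ζ_a = v(x_a)`) `(S.dual ζ).Qc F a b = 0`: `evalHom_van` over
   `B[ε]` with the ideal `I = {u | u.fst = 0}` (`u w = 0` for `u, w ∈ I`; `∂^ε_c` preserves `I`;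
   `(∂^ε_c P^ε_ab).fst = ∂_c P_ab = 0`).  So `D F v = 0`.
3. `lieB (β v) br = D F v = 0`, so by `closed_op` there is `μ` with `β v g = {op1 μ v, g}` for all
   vector fields `v`.
4. `hmeq`: `{m f, g} = β(ham f) g = {op1 μ (ham f), g}`; `f ↦ m f - op1 μ (ham f)` is a differential
   operator (`op1_ham_mem`), so `m f = op1 μ (ham f)` (`do_unique`).  For a Casimir `f`: `ham f = 0`
   and `m f = 0`.
5. For a Casimir `f`: `X f = ∑_k X(ψ_k) E_k f`, where `E_k f = 0` for `k ∈ L`
   (`E_eq_zero_of_casimir`), and for `k ∉ L`: `X(ψ_k) = Y_k / (n-1)`,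
   `Y_k = β(V)(ψ_k) + ∑ a_l Q(ψ_l, ψ_k) = {op1 μ V, ψ_k} + 0 = 0` (`ψ_k` is a Casimir).
-/

set_option autoImplicit false

namespace E214

variable {J : Type} [Fintype J] [DecidableEq J] {B : Type} [CommRing B] [Algebra ℝ B]
  {n : ℕ} {F : List (ℝ × Diagram n)} {S : AffP J B}

theorem flat_cas (D : PDat F S) (hn : 3 ≤ n) (hP : ∀ a b c, S.d c (S.P a b) = 0) : D.Cas := by
  have hb : IsBi S S.br := isBi_br S
  -- Q = 0
  have hQc : ∀ a b, S.Qc F a b = 0 := by
    intro a b
    unfold AffP.Qc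
    exact evalHom_van hn F (fun c => (S.d c : B →ₗ[ℝ] B)) (fun a b f => S.hdd a b f) S.P S.hanti ⊥
      (fun u hu w _ => by rw [(Submodule.mem_bot B).1 hu, zero_mul])
      (fun a u hu => by rw [(Submodule.mem_bot B).1 hu, map_zero]; exact Submodule.zero_mem _)
      (fun c a b => by
        change S.d c (S.P a b) ∈ _
        rw [hP]; exact Submodule.zero_mem _) a b
  have hQ : ∀ f g, S.Q F f g = 0 := by
    intro f g
    unfold AffP.Q
    simp only [hQc, zero_mul, Finset.sum_const_zero]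
  -- 𝒟 = 0
  have hD : ∀ v : Derivation ℝ B B, ∀ f g, S.D F v f g = 0 := by
    intro v f g
    set ζ : J → B := fun a => v (S.x a) with hζ
    have hQc2 : ∀ a b, (S.dual ζ).Qc F a b = 0 := by
      intro a b
      unfold AffP.Qc
      refine evalHom_van hn F (fun c => ((S.dual ζ).d c : DualNumber B →ₗ[ℝ] DualNumber B))
        (fun a b f => (S.dual ζ).hdd a b f) (S.dual ζ).P (S.dual ζ).hanti
        (RingHom.ker (TrivSqZeroExt.fstHom ℝ B B)) ?_ ?_ ?_ a b
      · intro u hu w hw
        have hu0 : u.fst = 0 := hu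
        have hw0 : w.fst = 0 := hw
        refine TrivSqZeroExt.ext ?_ ?_
        · rw [TrivSqZeroExt.fst_mul, hu0, zero_mul, TrivSqZeroExt.fst_zero]
        · rw [DualNumber.snd_mul, hu0, hw0, zero_mul, mul_zero, add_zero,
            TrivSqZeroExt.snd_zero]
      · intro a u hu
        have hu0 : u.fst = 0 := hu
        change (S.dualDer ζ a u).fst = 0
        rw [S.dualDer_fst, hu0, map_zero]
      · intro c a b
        change (S.dualDer ζ c ((S.dual ζ).P a b)).fst = 0
        rw [S.dualDer_fst]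
        change S.d c (TrivSqZeroExt.inl (S.P a b)
          + TrivSqZeroExt.inr (S.br (ζ a) (S.x b) + S.br (S.x a) (ζ b)) : DualNumber B).fst = 0
        rw [TrivSqZeroExt.fst_add, TrivSqZeroExt.fst_inl, TrivSqZeroExt.fst_inr, add_zero, hP]
    change ((S.dual ζ).Q F (TrivSqZeroExt.inl f) (TrivSqZeroExt.inl g)).snd = 0
    unfold AffP.Q
    simp only [hQc2, zero_mul, Finset.sum_const_zero, TrivSqZeroExt.snd_zero]
  obtain ⟨μ, hμ, hμe⟩ := closed_op D.toDarb D.hL D.βop D.hβ fun v hv f g => by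
    rw [D.hβeq v hv, hD]
  obtain ⟨R, hR, hRe⟩ := D.op1_ham_mem μ hμ
  have hmR : D.m - R = 0 := by
    refine do_unique D.toDarb D.hL _ (Subalgebra.sub_mem _ D.hm hR) fun f g => ?_
    rw [LinearMap.sub_apply, hb.sub_left, ← D.hmeq, hQ, add_zero, hRe, hμe _ (S.isVF_ham f),
      sub_self]
  intro f hf
  have hham : S.ham f = 0 := by
    ext g
    rw [S.ham_apply, hf g]
    rfl
  have hm0 : D.m f = 0 := by
    have h1 : D.m = R := sub_eq_zero.1 hmR
    rw [h1, hRe, hham]
    unfold Darb.op1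
    simp
  rw [hm0, zero_add, D.frame_expand _ (X_isVF D) f]
  refine Finset.sum_eq_zero fun k _ => ?_
  by_cases hk : k ∈ D.L
  · rw [D.E_eq_zero_of_casimir f hf k hk, mul_zero]
  · rw [X_psi]
    have hY : D.Y k = 0 := by
      unfold PDat.Y PDat.β
      simp only [hQ, mul_zero, Finset.sum_const_zero, add_zero]
      have h0 : D.s k = 0 := by
        by_contra hne
        exact hk ((D.mem_L k).2 hne)
      rw [hμe _ D.isVF_V, D.br_psi, D.hsτ, h0, neg_zero, zero_smul]
    rw [hY, smul_zero, zero_mul]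

end E214
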