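import Pool.Agent.Work.MP_e214ac_gt.S.Bi2

/-!
# Module S/Dual: the affine structure over the dual numbers

Proof.
* `dual_br_fst`, `dual_br_snd`: expand `(S.dual ζ).br u w = ∑ P^ε_ab ∂^ε_a u ∂^ε_b w` with
  `dualDer_fst`, `dualDer_snd`, `fst_mul`, `DualNumber.snd_mul`, `fst_sum`, `snd_sum`.  The second
  component is `∑ P_ab ∂_a u₀ ∂_b w₁ + ∑ P_ab ∂_a u₁ ∂_b w₀` plus
  `∑ ({ζ_a, x_b} + {x_a, ζ_b}) ∂_a u₀ ∂_b w₀ - ∑ P_ab (∑_c ∂_a ζ_c ∂_c u₀) ∂_b w₀
   - ∑ P_ab ∂_a u₀ (∑_c ∂_b ζ_c ∂_c w₀)`, and the last line is zero because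
  `{ζ_a, x_b} = ∑_c P_cb ∂_c ζ_a`, `{x_a, ζ_b} = ∑_c P_ac ∂_c ζ_b`.
* `dual_Q_fst`: `fst : B[ε] → B` is an algebra homomorphism (`TrivSqZeroExt.fstHom`) with
  `fst (∂^ε_a u) = ∂_a (fst u)` and `fst (P^ε_ab) = P_ab`; use `evalHom_map`.
* `isBi_D`: `D F v f g` is the second component of
  `∑ Q^ε_ab ∂^ε_a (inl f) ∂^ε_b (inl g)`, where `∂^ε_a (inl f) = inl (∂_a f) - ε ∑_c ∂_a ζ_c ∂_c f`:
  `D F v f g = ∑ (Q^ε_ab)₁ ∂_a f ∂_b g - ∑ Q_ab (∂_a ζ_c) ∂_c f ∂_b g - ∑ Q_ab (∂_b ζ_c) ∂_a f ∂_c g`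
  which is of the form `∑ r_ab ∂_a f ∂_b g`, `r_ab = D F v (x_a) (x_b)`; skew because
  `(S.dual ζ).Q F` is skew (`isBi_Q`).
-/

set_option autoImplicit false

namespace E214

open TrivSqZeroExt

variable {J : Type} [Fintype J] [DecidableEq J] {B : Type} [CommRing B] [Algebra ℝ B]
  {n : ℕ}

private theorem dual_P_fst (S : AffP J B) (ζ : J → B) (a b : J) :
    ((S.dual ζ).P a b).fst = S.P a b := by
  change (inl (S.P a b) + inr (S.br (ζ a) (S.x b) + S.br (S.x a) (ζ b)) : DualNumber B).fst = _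
  rw [fst_add, fst_inl, fst_inr, add_zero]

private theorem dual_P_snd (S : AffP J B) (ζ : J → B) (a b : J) :
    ((S.dual ζ).P a b).snd = S.br (ζ a) (S.x b) + S.br (S.x a) (ζ b) := by
  change (inl (S.P a b) + inr (S.br (ζ a) (S.x b) + S.br (S.x a) (ζ b)) : DualNumber B).snd = _
  rw [snd_add, snd_inl, snd_inr, zero_add]

private theorem dual_expand_right {S : AffP J B} {q : B → B → B} (h : IsBi S q) (f g : B) :
    q f g = ∑ a, q f (S.x a) * S.d a g := by
  rw [h.1, h.expand_left, ← Finset.sum_neg_distrib]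
  refine Finset.sum_congr rfl fun a _ => ?_
  rw [h.1 f]
  ring

private theorem dual_swap13 (G : J → J → J → B) :
    ∑ a, ∑ b, ∑ c, G a b c = ∑ a, ∑ b, ∑ c, G c b a :=
  calc ∑ a, ∑ b, ∑ c, G a b c = ∑ b, ∑ a, ∑ c, G a b c := Finset.sum_comm
    _ = ∑ b, ∑ c, ∑ a, G a b c := Finset.sum_congr rfl fun b _ => Finset.sum_comm
    _ = ∑ c, ∑ b, ∑ a, G a b c := Finset.sum_comm

private theorem dual_snd_mul (u w : DualNumber B) :
    (u * w).snd = u.fst * w.snd + u.snd * w.fst := by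
  rw [DualNumber.snd_mul]

theorem dual_br_fst (S : AffP J B) (ζ : J → B) (u w : DualNumber B) :
    ((S.dual ζ).br u w).fst = S.br u.fst w.fst := by
  unfold AffP.br
  rw [fst_sum]
  refine Finset.sum_congr rfl fun a _ => ?_
  rw [fst_sum]
  refine Finset.sum_congr rfl fun b _ => ?_
  rw [fst_mul, fst_mul, dual_P_fst]
  change S.P a b * (S.dualDer ζ a u).fst * (S.dualDer ζ b w).fst = _
  rw [S.dualDer_fst, S.dualDer_fst]

theorem dual_br_snd (S : AffP J B) (ζ : J → B) (u w : DualNumber B) :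
    ((S.dual ζ).br u w).snd = S.br u.fst w.snd + S.br u.snd w.fst := by
  have h1 : ((S.dual ζ).br u w).snd
      = ∑ a, ∑ b, (S.P a b * S.d a u.fst * (S.d b w.snd - ∑ c, S.d b (ζ c) * S.d c w.fst)
        + (S.P a b * (S.d a u.snd - ∑ c, S.d a (ζ c) * S.d c u.fst)
          + (S.br (ζ a) (S.x b) + S.br (S.x a) (ζ b)) * S.d a u.fst) * S.d b w.fst) := by
    conv_lhs => unfold AffP.br
    rw [snd_sum]
    refine Finset.sum_congr rfl fun a _ => ?_
    rw [snd_sum]
    refine Finset.sum_congr rfl fun b _ => ?_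
    rw [dual_snd_mul, dual_snd_mul, fst_mul, dual_P_fst, dual_P_snd]
    change S.P a b * (S.dualDer ζ a u).fst * (S.dualDer ζ b w).snd
      + (S.P a b * (S.dualDer ζ a u).snd + (S.br (ζ a) (S.x b) + S.br (S.x a) (ζ b))
        * (S.dualDer ζ a u).fst) * (S.dualDer ζ b w).fst = _
    rw [S.dualDer_fst, S.dualDer_fst, S.dualDer_snd, S.dualDer_snd]
  have h2 : ∑ a, ∑ b, S.br (ζ a) (S.x b) * S.d a u.fst * S.d b w.fst
      = ∑ a, ∑ b, S.P a b * (∑ c, S.d a (ζ c) * S.d c u.fst) * S.d b w.fst := by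
    have l : ∑ a, ∑ b, S.br (ζ a) (S.x b) * S.d a u.fst * S.d b w.fst
        = ∑ a, S.d a u.fst * S.br (ζ a) w.fst := by
      refine Finset.sum_congr rfl fun a _ => ?_
      rw [dual_expand_right (isBi_br S) (ζ a) w.fst, Finset.mul_sum]
      exact Finset.sum_congr rfl fun b _ => by ring
    rw [l]
    have r : ∀ a b, S.P a b * (∑ c, S.d a (ζ c) * S.d c u.fst) * S.d b w.fst
        = ∑ c, S.d c u.fst * (S.P a b * S.d a (ζ c) * S.d b w.fst) := by
      intro a b
      rw [Finset.mul_sum, Finset.sum_mul]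
      exact Finset.sum_congr rfl fun c _ => by ring
    simp only [r]
    unfold AffP.br
    simp only [Finset.mul_sum]
    rw [Finset.sum_comm (γ := J)]
    refine Finset.sum_congr rfl fun a _ => ?_
    rw [Finset.sum_comm]
  have h3 : ∑ a, ∑ b, S.br (S.x a) (ζ b) * S.d a u.fst * S.d b w.fst
      = ∑ a, ∑ b, S.P a b * S.d a u.fst * (∑ c, S.d b (ζ c) * S.d c w.fst) := by
    have l : ∑ a, ∑ b, S.br (S.x a) (ζ b) * S.d a u.fst * S.d b w.fst
        = ∑ b, S.d b w.fst * S.br u.fst (ζ b) := by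
      rw [Finset.sum_comm]
      refine Finset.sum_congr rfl fun b _ => ?_
      rw [(isBi_br S).expand_left u.fst (ζ b), Finset.mul_sum]
      exact Finset.sum_congr rfl fun a _ => by ring
    rw [l]
    have r : ∀ a b, S.P a b * S.d a u.fst * (∑ c, S.d b (ζ c) * S.d c w.fst)
        = ∑ c, S.d c w.fst * (S.P a b * S.d a u.fst * S.d b (ζ c)) := by
      intro a b
      rw [Finset.mul_sum]
      exact Finset.sum_congr rfl fun c _ => by ring
    simp only [r]
    unfold AffP.br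
    simp only [Finset.mul_sum]
    rw [Finset.sum_comm]
    refine Finset.sum_congr rfl fun a _ => ?_
    rw [Finset.sum_comm]
  rw [h1]
  have h4 : S.br u.fst w.snd = ∑ a, ∑ b, S.P a b * S.d a u.fst * S.d b w.snd := rfl
  have h5 : S.br u.snd w.fst = ∑ a, ∑ b, S.P a b * S.d a u.snd * S.d b w.fst := rfl
  rw [h4, h5]
  simp only [mul_sub, sub_mul, add_mul, Finset.sum_add_distrib, Finset.sum_sub_distrib]
  rw [h2, h3]
  ring

theorem dual_Qc_fst (S : AffP J B) (ζ : J → B) (F : List (ℝ × Diagram n)) (a b : J) :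
    ((S.dual ζ).Qc F a b).fst = S.Qc F a b := by
  unfold AffP.Qc
  have h1 := evalHom_map (fstHom ℝ B B) (fun c f => (S.dual ζ).d c f) (fun c f => S.d c f)
    (fun c f => S.dualDer_fst ζ c f) (S.dual ζ).P F a b
  change (evalHom F (fun c f => (S.dual ζ).d c f) (S.dual ζ).P a b).fst = _ at h1
  rw [h1]
  congr 1
  ext a b
  exact dual_P_fst S ζ a b

theorem dual_Q_fst (S : AffP J B) (ζ : J → B) (F : List (ℝ × Diagram n)) (u w : DualNumber B) :
    ((S.dual ζ).Q F u w).fst = S.Q F u.fst w.fst := by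
  unfold AffP.Q
  rw [fst_sum]
  refine Finset.sum_congr rfl fun a _ => ?_
  rw [fst_sum]
  refine Finset.sum_congr rfl fun b _ => ?_
  rw [fst_mul, fst_mul, dual_Qc_fst]
  change S.Qc F a b * (S.dualDer ζ a u).fst * (S.dualDer ζ b w).fst = _
  rw [S.dualDer_fst, S.dualDer_fst]

/-- `D F v f g` in components -/
theorem D_formula (S : AffP J B) (F : List (ℝ × Diagram n)) (v : Derivation ℝ B B) (f g : B) :
    S.D F v f g = ∑ a, ∑ b, (((S.dual fun a => v (S.x a)).Qc F a b).snd * S.d a f * S.d b g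
      - S.Qc F a b * (∑ c, S.d a (v (S.x c)) * S.d c f) * S.d b g
      - S.Qc F a b * S.d a f * (∑ c, S.d b (v (S.x c)) * S.d c g)) := by
  set ζ : J → B := fun a => v (S.x a) with hζ
  unfold AffP.D
  unfold AffP.Q
  rw [snd_sum]
  refine Finset.sum_congr rfl fun a _ => ?_
  rw [snd_sum]
  refine Finset.sum_congr rfl fun b _ => ?_
  rw [dual_snd_mul, dual_snd_mul, fst_mul, dual_Qc_fst]
  change S.Qc F a b * (S.dualDer ζ a (inl f)).fst * (S.dualDer ζ b (inl g)).snd
    + (S.Qc F a b * (S.dualDer ζ a (inl f)).snd + ((S.dual ζ).Qc F a b).snd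
        * (S.dualDer ζ a (inl f)).fst) * (S.dualDer ζ b (inl g)).fst = _
  rw [S.dualDer_fst, S.dualDer_fst, S.dualDer_snd, S.dualDer_snd, fst_inl, snd_inl, fst_inl,
    snd_inl, map_zero, map_zero]
  ring


theorem isBi_D (S : AffP J B) (F : List (ℝ × Diagram n)) (v : Derivation ℝ B B) :
    IsBi S (S.D F v) := by
  have hskew : ∀ f g, S.D F v f g = - S.D F v g f := by
    intro f g
    unfold AffP.D
    rw [(isBi_Q (S.dual fun a => v (S.x a)) F).1, snd_neg]
  obtain ⟨r, hr⟩ : ∃ r : J → J → B, ∀ f g, S.D F v f g = ∑ a, ∑ b, r a b * S.d a f * S.d b g := by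
    refine ⟨fun a b => ((S.dual fun a => v (S.x a)).Qc F a b).snd
      - (∑ c, S.Qc F c b * S.d c (v (S.x a))) - ∑ c, S.Qc F a c * S.d c (v (S.x b)),
      fun f g => ?_⟩
    rw [D_formula]
    simp only [sub_mul, Finset.sum_sub_distrib]
    congr 1
    · congr 1
      simp only [Finset.sum_mul, Finset.mul_sum]
      rw [dual_swap13]
      exact Finset.sum_congr rfl fun a _ => Finset.sum_congr rfl fun b _ =>
        Finset.sum_congr rfl fun c _ => by ring
    · simp only [Finset.sum_mul, Finset.mul_sum]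
      refine Finset.sum_congr rfl fun a _ => ?_
      rw [Finset.sum_comm]
      exact Finset.sum_congr rfl fun b _ => Finset.sum_congr rfl fun c _ => by ring
  refine ⟨hskew, fun f g => ?_⟩
  rw [hr]
  have hx : ∀ a b, S.D F v (S.x a) (S.x b) = r a b := by
    intro a b
    rw [hr, Finset.sum_eq_single a]
    · rw [Finset.sum_eq_single b]
      · rw [S.hdx, S.hdx, if_pos rfl, if_pos rfl, mul_one, mul_one]
      · intro c _ hc
        rw [S.hdx c b, if_neg hc, mul_zero]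
      · intro hb; exact absurd (Finset.mem_univ b) hb
    · intro c _ hc
      refine Finset.sum_eq_zero fun e _ => ?_
      rw [S.hdx c a, if_neg hc, mul_zero, zero_mul]
    · intro hb; exact absurd (Finset.mem_univ a) hb
  exact Finset.sum_congr rfl fun a _ => Finset.sum_congr rfl fun b _ => by rw [hx]

end E214
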