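import Pool.Agent.Work.MP_e214ac_gt.S.FrameDO
import Pool.Agent.Work.MP_e214ac_gt.A.K0
import Pool.Agent.Work.MP_e214ac_gt.A.K1
import Pool.Agent.Work.MP_e214ac_gt.A.K2

/-!
# Module S/KD: the Poisson differential on differential operators is exact in low degrees

`δ_j f = {f, ψ_j} = - s_j E_{τ j} f` (`Darb.br_psi`, `hsτ`); it is zero for the transverse `j`.

Proof.
* `kd0`: for `i ∈ L`, `{T f, ψ_{τ i}} = s_i E_i (T f)` with `s_i = ±1`, so `E_i ∘ T = 0` and `K0`
  applies.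
* `kd1`: define `T'_i = s_i • T_{τ i}` for `i ∈ L`.  The hypothesis for `τ i`, `τ k` (`i, k ∈ L`) reads
  `s_i E_i T_{τ k} = s_k E_k T_{τ i}`; multiply by `s_i s_k`: `E_i T'_k = E_k T'_i`.  `K1` gives `S₀` with
  `T'_i = E_i ∘ S₀` for `i ∈ L`.  For `k ∈ L`: `{S₀ f, ψ_k} = s_{τ k} E_{τ k} S₀ f =
  s_{τ k} T'_{τ k} f = s_{τ k}² T_k f = T_k f`.  For `k ∉ L` both sides vanish: `{·, ψ_k} = 0`, and the
  hypothesis with `j ∈ L` gives `{T_k f, ψ_j} = {T_j f, ψ_k} = 0` for all `j ∈ L` (also `j ∉ L`), so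
  `T_k = 0` by `kd0` (`kd0` only needs one `i ∈ L`).
* `kd2`: put `T'_ik = s_i s_k • T_{τ i, τ k}` for `i, k ∈ L`.  The hypothesis for `τ i, τ k, τ l`
  multiplied by `s_i s_k s_l` gives `E_l T'_ik + E_i T'_kl + E_k T'_li = 0`.  `K2` gives `S'_k`, `k ∈ L`,
  with `T'_ik = E_i S'_k - E_k S'_i`.  Put `S_k = - s_k • S'_{τ k}` for `k ∈ L`.  Then for `j, k ∈ L`:
  `{S_k f, ψ_j} - {S_j f, ψ_k} = - s_j E_{τ j} S_k f + s_k E_{τ k} S_j f
   = s_j s_k (E_{τ j} S'_{τ k} f - E_{τ k} S'_{τ j} f) = s_j s_k T'_{τ j, τ k} f = T_jk f`.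
  For `l ∉ L` fixed: the family `k ↦ T_kl` satisfies, for `j, k` arbitrary,
  `{T_jk f, ψ_l} = 0`, so `{T_kl f, ψ_j} = {T_jl f, ψ_k}` (skewness).  By `kd1` there is `R_l` with
  `T_kl f = {R_l f, ψ_k}` for all `k`.  Put `S_l = R_l` for `l ∉ L`: then for `k ∈ L`, `l ∉ L`:
  `{S_l f, ψ_k} - {S_k f, ψ_l} = T_kl f - 0`.  For `k, l ∉ L`: `T_kl f = {R_l f, ψ_k} = 0` and the
  right side is `0`.
-/

set_option autoImplicit false

namespace E214

variable {J : Type} [Fintype J] [DecidableEq J] {B : Type} [CommRing B] [Algebra ℝ B]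
  {S : AffP J B}

private theorem KD_s_zero (D : Darb S) (i : J) (hi : i ∉ D.L) : D.s i = 0 := by
  by_contra hne
  exact hi ((D.mem_L i).2 hne)

private theorem KD_br_zero (D : Darb S) (f : B) (j : J) (hj : j ∉ D.L) :
    S.br f (D.ψ j) = 0 := by
  rw [D.br_psi, D.hsτ, KD_s_zero D j hj, neg_zero, zero_smul]

private theorem KD_sq (D : Darb S) (i : J) (hi : i ∈ D.L) : D.s i * D.s i = 1 := by
  rw [D.s_sq, if_pos hi]

theorem kd0 (D : Darb S) (hL : 1 ≤ D.L.card) (T : Module.End ℝ B) (hT : T ∈ DOalg D.E)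
    (h : ∀ f j, S.br (T f) (D.ψ j) = 0) : T = 0 := by
  obtain ⟨i, hi⟩ := Finset.card_pos.1 hL
  refine K0 D.toFrame i T hT fun g => ?_
  have h1 := h g (D.τ i)
  rw [D.br_psi, D.hτ] at h1
  have h2 := congrArg (fun b => (D.s i)⁻¹ • b) h1
  simp only [smul_zero, smul_smul] at h2
  rwa [inv_mul_cancel₀ ((D.mem_L i).1 hi), one_smul] at h2

theorem kd1 (D : Darb S) (hL : 2 ≤ D.L.card) (T : J → Module.End ℝ B)
    (hT : ∀ k, T k ∈ DOalg D.E)
    (h : ∀ j k f, S.br (T k f) (D.ψ j) = S.br (T j f) (D.ψ k)) :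
    ∃ R ∈ DOalg D.E, ∀ k f, T k f = S.br (R f) (D.ψ k) := by
  classical
  obtain ⟨R, hR, hRT⟩ := K1 D.toFrame D.L hL (fun i => D.s i • T (D.τ i))
    (fun i _ => Subalgebra.smul_mem _ (hT _) _) (by
      intro i hi k hk g
      change D.E i (D.s k • T (D.τ k) g) = D.E k (D.s i • T (D.τ i) g)
      have h1 := h (D.τ i) (D.τ k) g
      rw [D.br_psi, D.br_psi, D.hτ, D.hτ] at h1
      rw [Derivation.map_smul, Derivation.map_smul]
      have h2 := congrArg (fun b => (D.s i * D.s k) • b) h1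
      simp only [smul_smul] at h2
      rw [show D.s i * D.s k * D.s i = D.s k * (D.s i * D.s i) by ring, KD_sq D i hi,
        show D.s i * D.s k * D.s k = D.s i * (D.s k * D.s k) by ring, KD_sq D k hk, mul_one,
        mul_one] at h2
      exact h2)
  refine ⟨R, hR, fun k g => ?_⟩
  by_cases hk : k ∈ D.L
  · have h1 := hRT (D.τ k) ((D.tau_mem_L k).2 hk) g
    change D.s (D.τ k) • T (D.τ (D.τ k)) g = D.E (D.τ k) (R g) at h1
    rw [D.br_psi, ← h1, D.hτ, smul_smul, KD_sq D _ ((D.tau_mem_L k).2 hk), one_smul]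
  · rw [KD_br_zero D _ k hk]
    have h0 : T k = 0 := by
      refine kd0 D (by omega) (T k) (hT k) fun f j => ?_
      rw [h j k f, KD_br_zero D _ k hk]
    rw [h0, LinearMap.zero_apply]

theorem kd2 (D : Darb S) (hL : 3 ≤ D.L.card) (T : J → J → Module.End ℝ B)
    (hT : ∀ j k, T j k ∈ DOalg D.E) (hskew : ∀ j k, T j k = - T k j)
    (h : ∀ j k l f, S.br (T j k f) (D.ψ l) + S.br (T k l f) (D.ψ j) + S.br (T l j f) (D.ψ k) = 0) :
    ∃ R : J → Module.End ℝ B, (∀ k, R k ∈ DOalg D.E) ∧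
      ∀ j k f, T j k f = S.br (R k f) (D.ψ j) - S.br (R j f) (D.ψ k) := by
  classical
  obtain ⟨S', hS', hST⟩ := K2 D.toFrame D.L hL (fun i k => (D.s i * D.s k) • T (D.τ i) (D.τ k))
    (fun i _ k _ => Subalgebra.smul_mem _ (hT _ _) _) (by
      intro i hi k hk
      beta_reduce
      rw [hskew (D.τ i) (D.τ k), smul_neg, mul_comm]) (by
      intro i hi k hk l hl g
      change D.E i ((D.s k * D.s l) • T (D.τ k) (D.τ l) g)
        + D.E k ((D.s l * D.s i) • T (D.τ l) (D.τ i) g)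
        + D.E l ((D.s i * D.s k) • T (D.τ i) (D.τ k) g) = 0
      have h1 := h (D.τ i) (D.τ k) (D.τ l) g
      rw [D.br_psi, D.br_psi, D.br_psi, D.hτ, D.hτ, D.hτ] at h1
      rw [Derivation.map_smul, Derivation.map_smul, Derivation.map_smul]
      have h2 := congrArg (fun b => (D.s i * D.s k * D.s l) • b) h1
      simp only [smul_add, smul_smul, smul_zero] at h2
      rw [show D.s i * D.s k * D.s l * D.s l = D.s i * D.s k * (D.s l * D.s l) by ring,
        KD_sq D l hl,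
        show D.s i * D.s k * D.s l * D.s i = D.s k * D.s l * (D.s i * D.s i) by ring,
        KD_sq D i hi,
        show D.s i * D.s k * D.s l * D.s k = D.s l * D.s i * (D.s k * D.s k) by ring,
        KD_sq D k hk, mul_one, mul_one, mul_one] at h2
      linear_combination h2)
  -- transverse directions
  have hR0 : ∀ l, ∃ R ∈ DOalg D.E, l ∉ D.L → ∀ k f, T k l f = S.br (R f) (D.ψ k) := by
    intro l
    by_cases hl : l ∈ D.L
    · exact ⟨0, Subalgebra.zero_mem _, fun h' => absurd hl h'⟩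
    · obtain ⟨R, hR, hRT⟩ := kd1 D (by omega) (fun k => T k l) (fun k => hT k l) (by
        intro j k f
        have h1 := h j k l f
        rw [KD_br_zero D _ l hl, hskew l j, LinearMap.neg_apply, (isBi_br S).neg_left] at h1
        linear_combination h1)
      exact ⟨R, hR, fun _ => hRT⟩
  choose R0 hR0m hR0T using hR0
  refine ⟨fun k => if k ∈ D.L then -(D.s k • S' (D.τ k)) else R0 k, fun k => ?_, fun j k f => ?_⟩
  · beta_reduce
    by_cases hk : k ∈ D.L
    · rw [if_pos hk]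
      exact Subalgebra.neg_mem _ (Subalgebra.smul_mem _ (hS' _ ((D.tau_mem_L k).2 hk)) _)
    · rw [if_neg hk]
      exact hR0m k
  · beta_reduce
    by_cases hj : j ∈ D.L
    · by_cases hk : k ∈ D.L
      · rw [if_pos hk, if_pos hj]
        have h1 := hST (D.τ j) ((D.tau_mem_L j).2 hj) (D.τ k) ((D.tau_mem_L k).2 hk) f
        change (D.s (D.τ j) * D.s (D.τ k)) • T (D.τ (D.τ j)) (D.τ (D.τ k)) f
          = D.E (D.τ j) (S' (D.τ k) f) - D.E (D.τ k) (S' (D.τ j) f) at h1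
        rw [D.hτ, D.hτ, D.hsτ, D.hsτ] at h1
        change T j k f = S.br (-(D.s k • S' (D.τ k) f)) (D.ψ j)
          - S.br (-(D.s j • S' (D.τ j) f)) (D.ψ k)
        rw [D.br_psi, D.br_psi, D.hsτ, D.hsτ, map_neg, map_neg, Derivation.map_smul,
          Derivation.map_smul]
        have h2 := congrArg (fun b => (D.s j * D.s k) • b) h1
        simp only [smul_smul, smul_sub] at h2
        rw [show D.s j * D.s k * (-D.s j * -D.s k) = (D.s j * D.s j) * (D.s k * D.s k) by ring,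
          KD_sq D j hj, KD_sq D k hk, one_mul, one_smul] at h2
        rw [h2, smul_neg, smul_neg, smul_smul, smul_smul, neg_mul, neg_mul, neg_smul, neg_smul,
          neg_neg, neg_neg, mul_comm (D.s k) (D.s j)]
      · rw [if_neg hk, if_pos hj, KD_br_zero D _ k hk, sub_zero]
        exact hR0T k hk j f
    · by_cases hk : k ∈ D.L
      · rw [if_pos hk, if_neg hj, KD_br_zero D _ j hj, zero_sub, ← hR0T j hj k f, hskew j k]
        rfl
      · rw [if_neg hk, if_neg hj, KD_br_zero D _ k hk, sub_zero]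
        exact hR0T k hk j f

end E214
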