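import Pool.Agent.Work.MP_e214ac_gt.S.OpB
import Pool.Agent.Work.MP_e214ac_gt.S.KD
import Pool.Agent.Work.MP_e214ac_gt.S.DualDO
import Pool.Agent.Work.MP_e214ac_gt.S.Homog

/-!
# Module S/Exist: existence of the operators `β` and `m`

Let `D0` be Darboux coordinates with at least three leaf directions and let `F` be closed on `S`.

Proof.
1. For all `j, k` the map `v ↦ D F v (ψ_j) (ψ_k)` is of the form `∑_i T_jk,i (v ψ_i)` on vector
   fields, with `T_jk,i ∈ DOalg D0.E` (`D_isDO` gives operators acting on the `v(x_a)`;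
   `v(x_a) = ∑_i v(ψ_i) E_i(x_a)` and `DOalg_eq`).  Equivalently
   `T_jk,i f = D F (f E_i) (ψ_j) (ψ_k)`; so `T_jk,i = - T_kj,i`, and by the closedness of `D F v`
   with `v = f E_i` on `ψ_j, ψ_k, ψ_l` (the terms `D F v {ψ_j, ψ_k} ψ_l` vanish, the bracket is a
   constant) the hypothesis of `kd2` holds for fixed `i`.  (`cyc br q ψ_j ψ_k ψ_l =
   {q_jk, ψ_l} + {q_kl, ψ_j} + {q_lj, ψ_k}`.)  Hence `R_k,i` with
   `T_jk,i f = {R_k,i f, ψ_j} - {R_j,i f, ψ_k}`.
   Put `βop k i = R_k,i`.  Then for a vector field `v`, `(op βop v) ψ_k = ∑_i R_k,i (v ψ_i)` and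
   `lieB (op βop v) br ψ_j ψ_k = - {(op βop v) ψ_j, ψ_k} - {ψ_j, (op βop v) ψ_k}
   = {β^k, ψ_j} - {β^j, ψ_k} = D F v ψ_j ψ_k`; both sides are `IsBi` (`isBi_lieB`, `isBi_D`), so
   `Darb.bi_ext` gives `hβeq`.
2. `T_k f := (op βop (ham f)) ψ_k + Q f ψ_k` is a differential operator in `f` for every `k`
   (`op_ham`; `f ↦ Q f ψ_k` is in the span of the frame).  Claim: `{T_k f, ψ_j} = {T_j f, ψ_k}`.
   By 1. and `homog` with `v = ham f`, `lam = 0` (`Darb.lie_ham`):
   `{β^k, ψ_j} - {β^j, ψ_k} = D F (ham f) ψ_j ψ_k = {f, Q_jk} - Q({f, ψ_j}, ψ_k) - Q(ψ_j, {f, ψ_k})`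
   where `Q_jk = Q ψ_j ψ_k`; and closedness of `Q` on `f, ψ_j, ψ_k` (with `Q({ψ_j, ψ_k}, f) = 0`) is
   `{Q(f, ψ_k), ψ_j} - {Q(f, ψ_j), ψ_k} = - {f, Q_jk} + Q({f, ψ_j}, ψ_k) + Q(ψ_j, {f, ψ_k})`.
   Add.  `kd1` gives `m` with `T_k f = {m f, ψ_k}`; for general `g` instead of `ψ_k` expand both
   sides in the frame (`frame_expand` for the vector field
   `op βop (ham f) + Q f · - ham (m f)`, see `IsBi.exists_der`).
-/

set_option autoImplicit false

namespace E214

variable {J : Type} [Fintype J] [DecidableEq J] {B : Type} [CommRing B] [Algebra ℝ B]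
  {n : ℕ}

theorem exist_pdat (S : AffP J B) (F : List (ℝ × Diagram n)) (D0 : Darb S) (hL : 3 ≤ D0.L.card)
    (hcl : S.Closed F) : ∃ D : PDat F S, D.toDarb = D0 := by
  classical
  -- step 1: the components of the variation
  have hT0 : ∀ j k, ∃ T : J → Module.End ℝ B, (∀ i, T i ∈ DOalg D0.E) ∧
      ∀ v, S.IsVF v → S.D F v (D0.ψ j) (D0.ψ k) = ∑ i, T i (v (D0.ψ i)) := by
    intro j k
    obtain ⟨T', hT', hTe⟩ := D_isDO S F (D0.ψ j) (D0.ψ k)
    refine ⟨fun i => ∑ a, T' a * (LinearMap.mulLeft ℝ (D0.E i (S.x a)) : Module.End ℝ B),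
      fun i => ?_, fun v hv => ?_⟩
    · rw [D0.DOalg_eq]
      exact Subalgebra.sum_mem _ fun a _ => Subalgebra.mul_mem _ (hT' a) (mul_mem_DOalg S.d _)
    · rw [hTe]
      simp only [LinearMap.sum_apply]
      conv_rhs => rw [Finset.sum_comm]
      refine Finset.sum_congr rfl fun a _ => ?_
      rw [D0.frame_expand v hv (S.x a), map_sum]
      refine Finset.sum_congr rfl fun i _ => ?_
      change _ = T' a (D0.E i (S.x a) * v (D0.ψ i))
      rw [mul_comm]
  choose T hTm hTe using hT0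
  have hT1 : ∀ j k i f, T j k i f = S.D F (f • D0.E i) (D0.ψ j) (D0.ψ k) := by
    intro j k i f
    rw [hTe j k _ (S.isVF_smul _ (D0.hE i)), Finset.sum_eq_single i]
    · rw [Derivation.smul_apply, D0.hEψ, if_pos rfl, smul_eq_mul, mul_one]
    · intro l _ hl
      rw [Derivation.smul_apply, D0.hEψ, if_neg (Ne.symm hl), smul_zero, map_zero]
    · intro h; exact absurd (Finset.mem_univ i) h
  have hR0 : ∀ i, ∃ R : J → Module.End ℝ B, (∀ k, R k ∈ DOalg D0.E) ∧
      ∀ j k f, T j k i f = S.br (R k f) (D0.ψ j) - S.br (R j f) (D0.ψ k) := by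
    intro i
    refine kd2 D0 hL (fun j k => T j k i) (fun j k => hTm j k i) (fun j k => ?_)
      (fun j k l f => ?_)
    · ext f
      rw [LinearMap.neg_apply, hT1, hT1, (isBi_D S F _).1]
    · beta_reduce
      have h1 := hcl.2 (f • D0.E i) (S.isVF_smul _ (D0.hE i)) (D0.ψ j) (D0.ψ k) (D0.ψ l)
      unfold cyc at h1
      simp only [D0.br_psi_psi, (isBi_D S F _).const_left, add_zero] at h1
      rw [hT1, hT1, hT1]
      exact h1
  choose R hRm hRe using hR0
  have hβeq : ∀ v, S.IsVF v → ∀ f g, lieB (D0.op (fun k i => R i k) v) S.br f g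
      = S.D F v f g := by
    intro v hv f g
    refine D0.bi_ext (isBi_lieB (isBi_br S) _ (D0.op_isVF _ v)) (isBi_D S F v) (fun j k => ?_) f g
    rw [hTe j k v hv]
    unfold lieB
    rw [D0.op_psi, D0.op_psi, D0.br_psi_psi, Derivation.map_algebraMap, (isBi_br S).sum_left,
      (isBi_br S).sum_right, zero_sub]
    have h1 : ∀ i, T j k i (v (D0.ψ i))
        = S.br (R i k (v (D0.ψ i))) (D0.ψ j) - S.br (R i j (v (D0.ψ i))) (D0.ψ k) :=
      fun i => hRe i j k _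
    simp only [h1, Finset.sum_sub_distrib]
    have h2 : ∑ i, S.br (D0.ψ j) (R i k (v (D0.ψ i)))
        = - ∑ i, S.br (R i k (v (D0.ψ i))) (D0.ψ j) := by
      rw [← Finset.sum_neg_distrib]
      exact Finset.sum_congr rfl fun i _ => S.br_swap _ _
    rw [h2]
    ring
  -- step 2: the operator m
  have hU0 : ∀ k, ∃ U ∈ DOalg D0.E, ∀ f, U f
      = D0.op (fun k i => R i k) (S.ham f) (D0.ψ k) + S.Q F f (D0.ψ k) := by
    intro k
    obtain ⟨U1, hU1, hU1e⟩ := D0.op1_ham_mem (fun i => R i k) (fun i => hRm i k)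
    obtain ⟨v, hv, hve⟩ := (isBi_Q S F).exists_der (D0.ψ k)
    refine ⟨U1 - ((v : B →ₗ[ℝ] B) : Module.End ℝ B),
      Subalgebra.sub_mem _ hU1 (D0.vf_mem_DOalg v hv), fun f => ?_⟩
    change U1 f - v f = _
    rw [hU1e, hve, D0.op_psi, (isBi_Q S F).1 f (D0.ψ k)]
    unfold Darb.op1
    ring
  choose U hUm hUe using hU0
  obtain ⟨m, hm, hme⟩ := kd1 D0 (by omega) U hUm (by
    intro j k f
    rw [hUe, hUe, (isBi_br S).add_left, (isBi_br S).add_left]
    have h1 := hβeq (S.ham f) (S.isVF_ham f) (D0.ψ j) (D0.ψ k)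
    rw [homog S F (S.ham f) (S.isVF_ham f) 0 (fun g h => by
      rw [D0.lie_ham, zero_smul, neg_zero]) (D0.ψ j) (D0.ψ k), mul_zero, zero_smul, zero_add] at h1
    have h2 := hcl.1 f (D0.ψ j) (D0.ψ k)
    unfold lieB at h1
    unfold cyc at h2
    rw [D0.br_psi_psi, Derivation.map_algebraMap] at h1
    rw [D0.br_psi_psi, (isBi_Q S F).const_left] at h2
    simp only [S.ham_apply] at h1
    rw [S.br_swap f (S.Q F (D0.ψ j) (D0.ψ k)), S.br_swap (D0.ψ j) (D0.op _ _ _)] at h1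
    rw [(isBi_Q S F).1 (D0.ψ k) f, (isBi_br S).neg_left, S.br_swap (D0.ψ k) f,
      (isBi_Q S F).neg_left, (isBi_Q S F).1 (S.br f (D0.ψ k)) (D0.ψ j)] at h2
    linear_combination h1 - h2)
  refine ⟨{ toDarb := D0, βop := fun k i => R i k, m := m, hL := hL, hβ := fun j k => hRm k j,
            hm := hm, hQ := hcl.1, hβeq := hβeq, hmeq := fun f g => ?_ }, rfl⟩
  obtain ⟨w, hw, hwe⟩ := (isBi_Q S F).exists_der f
  have h1 : D0.op (fun k i => R i k) (S.ham f) + w = S.ham (m f) := by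
    refine D0.isVF_ext (S.isVF_add (D0.op_isVF _ _) hw) (S.isVF_ham _) fun k => ?_
    rw [Derivation.add_apply, hwe, S.ham_apply, ← hme, hUe]
  rw [← S.ham_apply (m f) g, ← h1, Derivation.add_apply, hwe]

end E214
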