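import Pool.Agent.Work.MP_e214ac_gt.S.Bi

/-!
# Module S/Bi2: Lie derivatives and Schouten brackets are tensorial

Proof.
* `isBi_lieB`: with `v = ∑ v_c ∂_c` (`v_c = v(x_c)`), `q_ab = q(x_a, x_b)`:
  `lieB v q f g = ∑ v(q_ab) ∂_a f ∂_b g + ∑ q_ab v(∂_a f) ∂_b g + ∑ q_ab ∂_a f v(∂_b g)
   - ∑ q_ab ∂_a(v f) ∂_b g - ∑ q_ab ∂_a f ∂_b(v g)` and
  `∂_a (v f) = v (∂_a f) + ∑_c (∂_a v_c) ∂_c f` (the `∂` commute), so the terms with second
  derivatives cancel and
  `lieB v q f g = ∑_{ab} (v(q_ab) - ∑_c q_cb ∂_c v_a - ∑_c q_ac ∂_c v_b) ∂_a f ∂_b g`; the bracket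
  is `lieB v q (x a) (x b)`.
* `lieB_ham`: `lieB (ham f) br = 0` is the Jacobi identity (hypothesis).
* `cyc_ext`: `cyc p q` is skew and a derivation in each argument (for the first one: the terms
  `p (q f g) h` and `p (q h f) g` with `f = f₁ f₂` produce `f₁ p (q f₂ g) h + (q f₂ g) p f₁ h + ...`,
  the extra products `(q f₂ g)(p f₁ h)` cancel between the `p(q)` and the `q(p)` terms), so it is
  enough to expand: `cyc p q f g h = ∑_{abc} cyc p q (x a) (x b) (x c) ∂_a f ∂_b g ∂_c h`.
  A clean way: for fixed `g, h` the map `f ↦ cyc p q f g h` equals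
  `∑_a cyc p q (x a) g h * ∂_a f`: insert the expansions
  `q f g = ∑_a q(x_a, g) ∂_a f` etc. and use that `∂_a` commute; then apply this three times
  (cyclic symmetry `cyc p q f g h = cyc p q g h f`).
-/

set_option autoImplicit false

namespace E214

variable {J : Type} [Fintype J] [DecidableEq J] {B : Type} [CommRing B] [Algebra ℝ B]
  {n : ℕ}

theorem IsBi.expand_left {S : AffP J B} {q : B → B → B} (h : IsBi S q) (f g : B) :
    q f g = ∑ a, q (S.x a) g * S.d a f := by
  rw [h.2 f g]
  refine Finset.sum_congr rfl fun a _ => ?_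
  have h1 : q (S.x a) g = ∑ b, q (S.x a) (S.x b) * S.d b g := by
    rw [h.2 (S.x a) g]
    refine (Finset.sum_eq_single a ?_ ?_).trans ?_
    · intro c _ hc
      refine Finset.sum_eq_zero fun b _ => ?_
      rw [S.hdx, if_neg hc, mul_zero, zero_mul]
    · intro ha; exact absurd (Finset.mem_univ a) ha
    · refine Finset.sum_congr rfl fun b _ => ?_
      rw [S.hdx, if_pos rfl, mul_one]
  rw [h1, Finset.sum_mul]
  exact Finset.sum_congr rfl fun b _ => by ring

theorem isBi_lieB {S : AffP J B} {q : B → B → B} (h : IsBi S q) (v : Derivation ℝ B B)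
    (hv : S.IsVF v) : IsBi S (lieB v q) := by
  have hskew : ∀ f g, lieB v q f g = - lieB v q g f := by
    intro f g
    unfold lieB
    rw [h.1 f g, h.1 (v f) g, h.1 f (v g), map_neg]
    ring
  have hleft : ∀ f g, lieB v q f g = ∑ a, lieB v q (S.x a) g * S.d a f := by
    intro f g
    have h1 : q (v f) g = ∑ a, q (S.x a) g * v (S.d a f)
        + ∑ c, q (v (S.x c)) g * S.d c f := by
      rw [h.expand_left (v f) g]
      have h2 : ∀ a, S.d a (v f) = v (S.d a f) + ∑ c, S.d a (v (S.x c)) * S.d c f := by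
        intro a
        rw [hv f, hv (S.d a f), map_sum, ← Finset.sum_add_distrib]
        refine Finset.sum_congr rfl fun c _ => ?_
        rw [Derivation.leibniz, S.hdd a c f]
        simp only [smul_eq_mul]
        ring
      have h3 : ∀ c, q (v (S.x c)) g = ∑ a, q (S.x a) g * S.d a (v (S.x c)) :=
        fun c => h.expand_left _ _
      simp only [h2, h3, mul_add, Finset.sum_add_distrib, Finset.mul_sum, Finset.sum_mul]
      congr 1
      rw [Finset.sum_comm]
      exact Finset.sum_congr rfl fun c _ => Finset.sum_congr rfl fun a _ => by ring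
    unfold lieB
    rw [h1, h.expand_left f (v g)]
    conv_lhs => rw [h.expand_left f g, map_sum]
    simp only [Derivation.leibniz, smul_eq_mul, Finset.sum_add_distrib, sub_mul,
      Finset.sum_sub_distrib]
    have h4 : ∑ x, S.d x f * v (q (S.x x) g) = ∑ x, v (q (S.x x) g) * S.d x f :=
      Finset.sum_congr rfl fun x _ => mul_comm _ _
    rw [h4]
    ring
  refine ⟨hskew, fun f g => ?_⟩
  rw [hleft f g]
  refine Finset.sum_congr rfl fun a _ => ?_
  rw [hskew (S.x a) g, hleft g (S.x a), ← Finset.sum_neg_distrib, Finset.sum_mul]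
  refine Finset.sum_congr rfl fun b _ => ?_
  rw [hskew (S.x b) (S.x a)]
  ring

theorem isBi_add {S : AffP J B} {q q' : B → B → B} (h : IsBi S q) (h' : IsBi S q') :
    IsBi S fun f g => q f g + q' f g := by
  refine ⟨fun f g => ?_, fun f g => ?_⟩
  · change q f g + q' f g = -(q g f + q' g f)
    rw [h.1 f g, h'.1 f g]
    ring
  · beta_reduce
    rw [h.2 f g, h'.2 f g, ← Finset.sum_add_distrib]
    refine Finset.sum_congr rfl fun a _ => ?_
    rw [← Finset.sum_add_distrib]
    exact Finset.sum_congr rfl fun b _ => by ring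

theorem isBi_smul {S : AffP J B} {q : B → B → B} (h : IsBi S q) (c : ℝ) :
    IsBi S fun f g => c • q f g := by
  refine ⟨fun f g => ?_, fun f g => ?_⟩
  · change c • q f g = -(c • q g f)
    rw [h.1 f g, smul_neg]
  · beta_reduce
    rw [h.2 f g, Finset.smul_sum]
    refine Finset.sum_congr rfl fun a _ => ?_
    rw [Finset.smul_sum]
    refine Finset.sum_congr rfl fun b _ => ?_
    rw [smul_mul_assoc, smul_mul_assoc]

theorem cyc_expand {S : AffP J B} {p q : B → B → B} (hp : IsBi S p) (hq : IsBi S q)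
    (f g h : B) : cyc p q f g h = ∑ a, cyc p q (S.x a) g h * S.d a f := by
  have ep := fun f g => hp.expand_left f g
  have eq' := fun f g => hq.expand_left f g
  have er : ∀ f g, p g f = ∑ a, p g (S.x a) * S.d a f := by
    intro f g
    rw [hp.1, ep, ← Finset.sum_neg_distrib]
    refine Finset.sum_congr rfl fun a _ => ?_
    rw [hp.1 g]
    ring
  have er' : ∀ f g, q g f = ∑ a, q g (S.x a) * S.d a f := by
    intro f g
    rw [hq.1, eq', ← Finset.sum_neg_distrib]
    refine Finset.sum_congr rfl fun a _ => ?_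
    rw [hq.1 g]
    ring
  have t1 : p (q f g) h = ∑ a, (q (S.x a) g * p (S.d a f) h + S.d a f * p (q (S.x a) g) h) := by
    rw [eq' f g, hp.sum_left]
    exact Finset.sum_congr rfl fun a _ => by rw [hp.mul_left]
  have t2 : p (q h f) g = ∑ a, (q h (S.x a) * p (S.d a f) g + S.d a f * p (q h (S.x a)) g) := by
    rw [er' f h, hp.sum_left]
    exact Finset.sum_congr rfl fun a _ => by rw [hp.mul_left]
  have t3 : q (p f g) h = ∑ a, (p (S.x a) g * q (S.d a f) h + S.d a f * q (p (S.x a) g) h) := by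
    rw [ep f g, hq.sum_left]
    exact Finset.sum_congr rfl fun a _ => by rw [hq.mul_left]
  have t4 : q (p h f) g = ∑ a, (p h (S.x a) * q (S.d a f) g + S.d a f * q (p h (S.x a)) g) := by
    rw [er f h, hq.sum_left]
    exact Finset.sum_congr rfl fun a _ => by rw [hq.mul_left]
  have hX : ∑ a, q (S.x a) g * p (S.d a f) h + ∑ a, q h (S.x a) * p (S.d a f) g
      + ∑ a, p (S.x a) g * q (S.d a f) h + ∑ a, p h (S.x a) * q (S.d a f) g = 0 := by
    have c1 : ∑ a, q (S.x a) g * p (S.d a f) h
        = ∑ a, ∑ b, q (S.x a) g * p (S.x b) h * S.d b (S.d a f) := by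
      refine Finset.sum_congr rfl fun a _ => ?_
      rw [ep (S.d a f) h, Finset.mul_sum]
      exact Finset.sum_congr rfl fun b _ => by ring
    have c2 : ∑ a, q h (S.x a) * p (S.d a f) g
        = - ∑ a, ∑ b, q (S.x a) h * p (S.x b) g * S.d b (S.d a f) := by
      rw [← Finset.sum_neg_distrib]
      refine Finset.sum_congr rfl fun a _ => ?_
      rw [ep (S.d a f) g, hq.1 h, Finset.mul_sum, ← Finset.sum_neg_distrib]
      exact Finset.sum_congr rfl fun b _ => by ring
    have c3 : ∑ a, p (S.x a) g * q (S.d a f) h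
        = ∑ a, ∑ b, q (S.x a) h * p (S.x b) g * S.d b (S.d a f) := by
      rw [Finset.sum_comm]
      refine Finset.sum_congr rfl fun a _ => ?_
      rw [eq' (S.d a f) h, Finset.mul_sum]
      refine Finset.sum_congr rfl fun b _ => ?_
      rw [S.hdd a b f]
      ring
    have c4 : ∑ a, p h (S.x a) * q (S.d a f) g
        = - ∑ a, ∑ b, q (S.x a) g * p (S.x b) h * S.d b (S.d a f) := by
      rw [Finset.sum_comm, ← Finset.sum_neg_distrib]
      refine Finset.sum_congr rfl fun a _ => ?_
      rw [eq' (S.d a f) g, hp.1 h, Finset.mul_sum, ← Finset.sum_neg_distrib]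
      refine Finset.sum_congr rfl fun b _ => ?_
      rw [S.hdd a b f]
      ring
    rw [c1, c2, c3, c4]
    ring
  unfold cyc
  rw [t1, t2, t3, t4, er f (q g h), er' f (p g h)]
  simp only [Finset.sum_add_distrib, add_mul]
  have m1 : ∀ (u : J → B), ∑ a, S.d a f * u a = ∑ a, u a * S.d a f :=
    fun u => Finset.sum_congr rfl fun a _ => mul_comm _ _
  rw [m1, m1, m1, m1]
  linear_combination hX

theorem cyc_rotate (p q : B → B → B) (f g h : B) : cyc p q f g h = cyc p q g h f := by
  unfold cyc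
  ring

theorem cyc_ext {S : AffP J B} {p q : B → B → B} (hp : IsBi S p) (hq : IsBi S q)
    (e : ∀ a b c, cyc p q (S.x a) (S.x b) (S.x c) = 0) (f g h : B) : cyc p q f g h = 0 := by
  have h0 : ∀ a b, ∀ h, cyc p q (S.x a) (S.x b) h = 0 := by
    intro a b h
    rw [← cyc_rotate p q h (S.x a) (S.x b), cyc_expand hp hq]
    refine Finset.sum_eq_zero fun c _ => ?_
    rw [e, zero_mul]
  have h1 : ∀ a, ∀ g h, cyc p q (S.x a) g h = 0 := by
    intro a g h
    rw [cyc_rotate p q (S.x a) g h, cyc_expand hp hq]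
    refine Finset.sum_eq_zero fun b _ => ?_
    rw [← cyc_rotate p q (S.x a) (S.x b) h, h0, zero_mul]
  rw [cyc_expand hp hq]
  refine Finset.sum_eq_zero fun a _ => ?_
  rw [h1, zero_mul]

end E214
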