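import Pool.Agent.Work.MP_e214ac_gt.G.Rel

/-!
# Module S/Bi: skew biderivations in the span of the frame

`IsBi S q`: `q` is skew and `q f g = ∑_{ab} q(x_a, x_b) ∂_a f ∂_b g`.

Proof.  Everything is expansion in the frame and `Finset` bookkeeping.
* `IsBi.add_left` ... : insert the expansion and use additivity / Leibniz / linearity of `∂_a`;
  right versions from the left versions and skewness.
* `isBi_br`: `br (x a) (x b) = P a b` because `∂_c x_a = δ_ca`; skew: `AffP.br_swap`.
* `isBi_Q`: `Q F (x a) (x b) = Qc F a b`, skew by `evalHom_swap`.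
* vector fields: `IsVF v` means `v f = ∑ v(x_a) ∂_a f`.
* `ham_apply`: `der_sum_apply` twice.
-/

set_option autoImplicit false

namespace E214

variable {J : Type} [Fintype J] [DecidableEq J] {B : Type} [CommRing B] [Algebra ℝ B]
  {n : ℕ}

/-- skew biderivation in the span of the frame -/
def IsBi (S : AffP J B) (q : B → B → B) : Prop :=
  (∀ f g, q f g = - q g f) ∧ ∀ f g, q f g = ∑ a, ∑ b, q (S.x a) (S.x b) * S.d a f * S.d b g

theorem IsBi.add_left {S : AffP J B} {q : B → B → B} (h : IsBi S q) (f g k : B) :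
    q (f + g) k = q f k + q g k := by
  rw [h.2 (f + g), h.2 f, h.2 g, ← Finset.sum_add_distrib]
  refine Finset.sum_congr rfl fun a _ => ?_
  rw [← Finset.sum_add_distrib]
  refine Finset.sum_congr rfl fun b _ => ?_
  rw [map_add]
  ring

theorem IsBi.add_right {S : AffP J B} {q : B → B → B} (h : IsBi S q) (f g k : B) :
    q k (f + g) = q k f + q k g := by
  rw [h.1 k (f + g), h.add_left, h.1 k f, h.1 k g]
  ring

theorem IsBi.sub_left {S : AffP J B} {q : B → B → B} (h : IsBi S q) (f g k : B) :
    q (f - g) k = q f k - q g k := by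
  have h0 : q 0 k = 0 := by
    rw [h.2]
    simp
  have h1 := h.add_left g (-g) k
  rw [add_neg_cancel, h0] at h1
  rw [sub_eq_add_neg, h.add_left]
  linear_combination -h1

theorem IsBi.sub_right {S : AffP J B} {q : B → B → B} (h : IsBi S q) (f g k : B) :
    q k (f - g) = q k f - q k g := by
  rw [h.1 k (f - g), h.sub_left, h.1 k f, h.1 k g]
  ring

theorem IsBi.neg_left {S : AffP J B} {q : B → B → B} (h : IsBi S q) (f k : B) :
    q (-f) k = - q f k := by
  have h1 := h.add_left f (-f) k
  have h0 : q 0 k = 0 := by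
    rw [h.2]
    simp
  rw [add_neg_cancel, h0] at h1
  linear_combination -h1

theorem IsBi.neg_right {S : AffP J B} {q : B → B → B} (h : IsBi S q) (f k : B) :
    q k (-f) = - q k f := by
  rw [h.1 k (-f), h.neg_left, h.1 k f]

theorem IsBi.sum_left {S : AffP J B} {q : B → B → B} (h : IsBi S q) {α : Type} (t : Finset α)
    (f : α → B) (k : B) : q (∑ i ∈ t, f i) k = ∑ i ∈ t, q (f i) k := by
  classical
  have h0 : q 0 k = 0 := by
    rw [h.2]
    simp
  induction t using Finset.induction_on with
  | empty => simpa using h0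
  | insert a s ha ih => rw [Finset.sum_insert ha, Finset.sum_insert ha, h.add_left, ih]

theorem IsBi.sum_right {S : AffP J B} {q : B → B → B} (h : IsBi S q) {α : Type} (t : Finset α)
    (f : α → B) (k : B) : q k (∑ i ∈ t, f i) = ∑ i ∈ t, q k (f i) := by
  rw [h.1 k, h.sum_left, ← Finset.sum_neg_distrib]
  exact Finset.sum_congr rfl fun i _ => (h.1 k (f i)).symm

theorem IsBi.mul_left {S : AffP J B} {q : B → B → B} (h : IsBi S q) (f g k : B) :
    q (f * g) k = f * q g k + g * q f k := by
  rw [h.2 (f * g), h.2 g, h.2 f, Finset.mul_sum, Finset.mul_sum, ← Finset.sum_add_distrib]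
  refine Finset.sum_congr rfl fun a _ => ?_
  rw [Finset.mul_sum, Finset.mul_sum, ← Finset.sum_add_distrib]
  refine Finset.sum_congr rfl fun b _ => ?_
  rw [Derivation.leibniz]
  simp only [smul_eq_mul]
  ring

theorem IsBi.mul_right {S : AffP J B} {q : B → B → B} (h : IsBi S q) (f g k : B) :
    q k (f * g) = f * q k g + g * q k f := by
  rw [h.1 k (f * g), h.mul_left, h.1 k g, h.1 k f]
  ring

theorem IsBi.smul_left {S : AffP J B} {q : B → B → B} (h : IsBi S q) (c : ℝ) (f k : B) :
    q (c • f) k = c • q f k := by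
  rw [h.2 (c • f), h.2 f, Finset.smul_sum]
  refine Finset.sum_congr rfl fun a _ => ?_
  rw [Finset.smul_sum]
  refine Finset.sum_congr rfl fun b _ => ?_
  rw [Derivation.map_smul, mul_smul_comm, smul_mul_assoc]

theorem IsBi.smul_right {S : AffP J B} {q : B → B → B} (h : IsBi S q) (c : ℝ) (f k : B) :
    q k (c • f) = c • q k f := by
  rw [h.1 k (c • f), h.smul_left, h.1 k f, smul_neg]

theorem IsBi.const_left {S : AffP J B} {q : B → B → B} (h : IsBi S q) (c : ℝ) (k : B) :
    q (algebraMap ℝ B c) k = 0 := by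
  rw [h.2]
  simp

theorem IsBi.const_right {S : AffP J B} {q : B → B → B} (h : IsBi S q) (c : ℝ) (k : B) :
    q k (algebraMap ℝ B c) = 0 := by
  rw [h.1, h.const_left, neg_zero]

/-- for fixed `f` the map `q f` is a derivation in the span of the frame -/
theorem IsBi.exists_der {S : AffP J B} {q : B → B → B} (h : IsBi S q) (f : B) :
    ∃ v : Derivation ℝ B B, S.IsVF v ∧ ∀ g, v g = q f g := by
  refine ⟨∑ b, (∑ a, q (S.x a) (S.x b) * S.d a f) • S.d b, ?_, ?_⟩
  · intro g
    rw [der_comb_apply]
    refine Finset.sum_congr rfl fun b _ => ?_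
    rw [der_comb_apply]
    congr 1
    symm
    refine (Finset.sum_eq_single b ?_ ?_).trans ?_
    · intro c _ hc
      rw [S.hdx, if_neg hc, mul_zero]
    · intro hb; exact absurd (Finset.mem_univ b) hb
    · rw [S.hdx, if_pos rfl, mul_one]
  · intro g
    rw [der_comb_apply, h.2 f g, Finset.sum_comm]
    refine Finset.sum_congr rfl fun b _ => ?_
    rw [Finset.sum_mul]

theorem IsBi.ext_x {S : AffP J B} {q q' : B → B → B} (h : IsBi S q) (h' : IsBi S q')
    (e : ∀ a b, q (S.x a) (S.x b) = q' (S.x a) (S.x b)) (f g : B) : q f g = q' f g := by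
  rw [h.2 f g, h'.2 f g]
  exact Finset.sum_congr rfl fun a _ => Finset.sum_congr rfl fun b _ => by rw [e]

theorem AffP.ham_apply (S : AffP J B) (f g : B) : S.ham f g = S.br f g := by
  unfold AffP.ham AffP.br
  rw [der_sum_apply]
  refine Finset.sum_congr rfl fun a _ => ?_
  rw [der_sum_apply]
  rfl

theorem AffP.br_x (S : AffP J B) (a b : J) : S.br (S.x a) (S.x b) = S.P a b := by
  unfold AffP.br
  rw [Finset.sum_eq_single a]
  · rw [Finset.sum_eq_single b]
    · rw [S.hdx, S.hdx, if_pos rfl, if_pos rfl, mul_one, mul_one]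
    · intro c _ hc
      rw [S.hdx c b, if_neg hc, mul_zero]
    · intro hb; exact absurd (Finset.mem_univ b) hb
  · intro c _ hc
    refine Finset.sum_eq_zero fun e _ => ?_
    rw [S.hdx c a, if_neg hc, mul_zero, zero_mul]
  · intro hb; exact absurd (Finset.mem_univ a) hb

theorem AffP.Q_x (S : AffP J B) (F : List (ℝ × Diagram n)) (a b : J) :
    S.Q F (S.x a) (S.x b) = S.Qc F a b := by
  unfold AffP.Q
  rw [Finset.sum_eq_single a]
  · rw [Finset.sum_eq_single b]
    · rw [S.hdx, S.hdx, if_pos rfl, if_pos rfl, mul_one, mul_one]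
    · intro c _ hc
      rw [S.hdx c b, if_neg hc, mul_zero]
    · intro hb; exact absurd (Finset.mem_univ b) hb
  · intro c _ hc
    refine Finset.sum_eq_zero fun e _ => ?_
    rw [S.hdx c a, if_neg hc, mul_zero, zero_mul]
  · intro hb; exact absurd (Finset.mem_univ a) hb

theorem isBi_br (S : AffP J B) : IsBi S S.br := by
  refine ⟨fun f g => S.br_swap f g, fun f g => ?_⟩
  simp only [S.br_x]
  rfl

theorem isBi_Q (S : AffP J B) (F : List (ℝ × Diagram n)) : IsBi S (S.Q F) := by
  refine ⟨fun f g => ?_, fun f g => ?_⟩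
  · unfold AffP.Q
    rw [Finset.sum_comm, ← Finset.sum_neg_distrib]
    refine Finset.sum_congr rfl fun a _ => ?_
    rw [← Finset.sum_neg_distrib]
    refine Finset.sum_congr rfl fun b _ => ?_
    unfold AffP.Qc
    rw [evalHom_swap F _ _ b a]
    ring
  · simp only [S.Q_x]
    rfl

theorem AffP.isVF_zero (S : AffP J B) : S.IsVF 0 := by
  intro f
  simp

theorem AffP.isVF_d (S : AffP J B) (a : J) : S.IsVF (S.d a) := by
  intro f
  rw [Finset.sum_eq_single a]
  · rw [S.hdx, if_pos rfl, one_mul]
  · intro c _ hc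
    rw [S.hdx, if_neg (Ne.symm hc), zero_mul]
  · intro hb; exact absurd (Finset.mem_univ a) hb

theorem AffP.isVF_add (S : AffP J B) {v w : Derivation ℝ B B} (hv : S.IsVF v) (hw : S.IsVF w) :
    S.IsVF (v + w) := by
  intro f
  simp only [Derivation.add_apply]
  rw [hv f, hw f, ← Finset.sum_add_distrib]
  exact Finset.sum_congr rfl fun a _ => by ring

theorem AffP.isVF_sub (S : AffP J B) {v w : Derivation ℝ B B} (hv : S.IsVF v) (hw : S.IsVF w) :
    S.IsVF (v - w) := by
  intro f
  simp only [Derivation.sub_apply]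
  rw [hv f, hw f, ← Finset.sum_sub_distrib]
  exact Finset.sum_congr rfl fun a _ => by ring

theorem AffP.isVF_smul (S : AffP J B) (c : B) {v : Derivation ℝ B B} (hv : S.IsVF v) :
    S.IsVF (c • v) := by
  intro f
  simp only [Derivation.smul_apply, smul_eq_mul]
  rw [hv f, Finset.mul_sum]
  exact Finset.sum_congr rfl fun a _ => by ring

theorem AffP.isVF_sum (S : AffP J B) {α : Type} (t : Finset α) (v : α → Derivation ℝ B B)
    (hv : ∀ i ∈ t, S.IsVF (v i)) : S.IsVF (∑ i ∈ t, v i) := by
  classical
  induction t using Finset.induction_on with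
  | empty => simpa using S.isVF_zero
  | insert a s ha ih =>
    rw [Finset.sum_insert ha]
    exact S.isVF_add (hv a (Finset.mem_insert_self a s))
      (ih fun i hi => hv i (Finset.mem_insert_of_mem hi))

theorem AffP.isVF_ham (S : AffP J B) (f : B) : S.IsVF (S.ham f) := by
  unfold AffP.ham
  exact S.isVF_sum _ _ fun a _ => S.isVF_sum _ _ fun b _ => S.isVF_smul _ (S.isVF_d b)

theorem AffP.isVF_ext (S : AffP J B) {v w : Derivation ℝ B B} (hv : S.IsVF v) (hw : S.IsVF w)
    (e : ∀ a, v (S.x a) = w (S.x a)) : v = w := by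
  ext f
  rw [hv f, hw f]
  exact Finset.sum_congr rfl fun a _ => by rw [e]

end E214
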