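import Pool.Agent.Work.MP_e214ac_gt.S.OpB
import Pool.Agent.Work.MP_e214ac_gt.S.KD

/-!
# Module S/ClosedOp: closed operators on vector fields are Hamiltonian

Proof.
* `closed_op`: fix `k` and put `v = f E_k` (a vector field).  `lieB (op T v) br (ψ_i) (ψ_j) = 0` reads
  (the brackets `{ψ_i, ψ_j}` are constants) `{T_ik f, ψ_j} - {T_jk f, ψ_i} = 0`
  (`{(op T v) ψ_i, ψ_j} + {ψ_i, (op T v) ψ_j} = 0`, `Darb.op_single`).  So `kd1` applies to the family
  `j ↦ T_jk`: there is `μ_k` with `T_jk f = {μ_k f, ψ_j}` for all `j`, `f`.  For a general vector field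
  `v`: `(op T v) ψ_j = ∑_k T_jk (v ψ_k) = {∑_k μ_k (v ψ_k), ψ_j} = {op1 μ v, ψ_j}`; both
  `op T v` and `ham (op1 μ v)` are vector fields with the same `ψ`-components.
* `op1_unique`: `{op1 μ v, h} = 0` for all `v`, `h`: take `v = f E_k`, `kd0`.
* `do_unique`: `{R f, h} = 0` for all `f`, `h` implies `R = 0` (`kd0`).
-/

set_option autoImplicit false

namespace E214

variable {J : Type} [Fintype J] [DecidableEq J] {B : Type} [CommRing B] [Algebra ℝ B]
  {S : AffP J B}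

theorem closed_op (D : Darb S) (hL : 3 ≤ D.L.card) (T : J → J → Module.End ℝ B)
    (hT : ∀ j k, T j k ∈ DOalg D.E)
    (h : ∀ v, S.IsVF v → ∀ f g, lieB (D.op T v) S.br f g = 0) :
    ∃ μ : J → Module.End ℝ B, (∀ k, μ k ∈ DOalg D.E) ∧
      ∀ v, S.IsVF v → ∀ g, D.op T v g = S.br (D.op1 μ v) g := by
  classical
  have hμ0 : ∀ k, ∃ R ∈ DOalg D.E, ∀ j f, T j k f = S.br (R f) (D.ψ j) := by
    intro k
    refine kd1 D (by omega) (fun j => T j k) (fun j => hT j k) fun i j f => ?_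
    have h1 := h (f • D.E k) (S.isVF_smul _ (D.hE k)) (D.ψ i) (D.ψ j)
    unfold lieB at h1
    rw [D.op_single, D.op_single, D.br_psi_psi, Derivation.map_algebraMap,
      S.br_swap (D.ψ i) (T j k f)] at h1
    linear_combination h1
  choose μ hμ hμT using hμ0
  refine ⟨μ, hμ, fun v hv g => ?_⟩
  have h2 : D.op T v = S.ham (D.op1 μ v) := by
    refine D.isVF_ext (D.op_isVF T v) (S.isVF_ham _) fun j => ?_
    rw [D.op_psi, S.ham_apply]
    unfold Darb.op1
    rw [(isBi_br S).sum_left]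
    exact Finset.sum_congr rfl fun k _ => hμT k j _
  rw [h2, S.ham_apply]

theorem op1_unique (D : Darb S) (hL : 3 ≤ D.L.card) (μ : J → Module.End ℝ B)
    (hμ : ∀ k, μ k ∈ DOalg D.E)
    (h : ∀ v, S.IsVF v → ∀ g, S.br (D.op1 μ v) g = 0) : ∀ k, μ k = 0 := by
  intro k
  refine kd0 D (by omega) (μ k) (hμ k) fun f j => ?_
  have h1 := h (f • D.E k) (S.isVF_smul _ (D.hE k)) (D.ψ j)
  rwa [D.op1_single] at h1

theorem do_unique (D : Darb S) (hL : 3 ≤ D.L.card) (R : Module.End ℝ B)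
    (hR : R ∈ DOalg D.E) (h : ∀ f g, S.br (R f) g = 0) : R = 0 := by
  exact kd0 D (by omega) R hR fun f j => h f _

end E214
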