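import Pool.Agent.Work.MP_e214ac_gt.S.DarbB

/-!
# Module S/PullDarb: pull back of Darboux coordinates along a morphism

Proof.
* `isVF_comm`: the commutator of two vector fields `v = ∑ v_a ∂_a`, `w = ∑ w_b ∂_b` is the vector
  field `∑_b (v(w_b) - w(v_b)) ∂_b`, because the `∂_a` commute.
* `pull_darb`: `ψ'_j = ρ(ψ_j)`, `E'_i` = the vector field with `E'_i (ρ f) = ρ (E_i f)` (`push`), the
  same `s`, `τ`.
  - `hEE`: the commutator `⁅E'_i, E'_j⁆` (a vector field by `isVF_comm`) kills `ρ(B)`, so it is zero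
    (`inj`).
  - `hbr`: for `f₀ ∈ B` the vector field `S'.ham (ρ f₀) - ∑ s_i ρ(E_i f₀) E'_{τ i}` kills `ρ(B)`
    (`Mor.br`, `D.hbr`), so it vanishes: the formula holds for `f = ρ f₀` and all `g`.  For fixed
    `g ∈ C` the map `f ↦ S'.br f g - ∑ s_i E'_i f E'_{τ i} g` is (minus a Hamiltonian field plus) a
    vector field that kills `ρ(B)`, so it vanishes.
-/

set_option autoImplicit false

namespace E214

variable {J : Type} [Fintype J] [DecidableEq J] {B : Type} [CommRing B] [Algebra ℝ B]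
  {C : Type} [CommRing C] [Algebra ℝ C] {n : ℕ}

theorem isVF_comm (S : AffP J B) {v w : Derivation ℝ B B} (hv : S.IsVF v) (hw : S.IsVF w) :
    S.IsVF ⁅v, w⁆ := by
  have h1 : ∀ (v w : Derivation ℝ B B), S.IsVF v → S.IsVF w → ∀ f, v (w f)
      = ∑ b, v (w (S.x b)) * S.d b f + ∑ a, ∑ b, v (S.x a) * w (S.x b) * S.d a (S.d b f) := by
    intro v w hv hw f
    rw [hw f, map_sum]
    simp only [Derivation.leibniz, smul_eq_mul, Finset.sum_add_distrib]
    rw [add_comm]
    congr 1
    · exact Finset.sum_congr rfl fun b _ => mul_comm _ _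
    · rw [Finset.sum_comm]
      refine Finset.sum_congr rfl fun b _ => ?_
      rw [hv (S.d b f), Finset.mul_sum]
      exact Finset.sum_congr rfl fun a _ => by ring
  intro f
  have h2 : ∑ a, ∑ b, v (S.x a) * w (S.x b) * S.d a (S.d b f)
      = ∑ a, ∑ b, w (S.x a) * v (S.x b) * S.d a (S.d b f) := by
    rw [Finset.sum_comm]
    refine Finset.sum_congr rfl fun b _ => Finset.sum_congr rfl fun a _ => ?_
    rw [S.hdd a b f]
    ring
  simp only [Derivation.commutator_apply]
  rw [h1 v w hv hw f, h1 w v hw hv f, h2]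
  simp only [sub_mul, Finset.sum_sub_distrib]
  ring

theorem pull_darb {F : List (ℝ × Diagram n)} {S : AffP J B} {S' : AffP J C} {ρ : B →ₐ[ℝ] C}
    (h : Mor F S S' ρ) (D : Darb S) :
    ∃ D' : Darb S', D'.s = D.s ∧ D'.τ = D.τ ∧ (∀ i, D'.ψ i = ρ (D.ψ i)) ∧
      ∀ i f, D'.E i (ρ f) = ρ (D.E i f) := by
  choose E' hE'v hE'e using fun i => h.push (D.E i) (D.hE i)
  have hψ : ∀ i j, E' i (ρ (D.ψ j)) = if i = j then 1 else 0 := by
    intro i j
    rw [hE'e, D.hEψ]
    split_ifs
    · exact map_one ρ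
    · exact map_zero ρ
  have hcomm : ∀ i j f, E' i (E' j f) = E' j (E' i f) := by
    intro i j f
    have h1 : ⁅E' i, E' j⁆ = 0 := by
      refine h.inj _ (isVF_comm S' (hE'v i) (hE'v j)) fun f => ?_
      rw [Derivation.commutator_apply, hE'e, hE'e, hE'e, hE'e, D.hEE i j f, sub_self]
    have h2 := congrArg (fun w : Derivation ℝ C C => w f) h1
    simp only [Derivation.commutator_apply] at h2
    exact sub_eq_zero.1 h2
  have hbr1 : ∀ f₀ g, S'.br (ρ f₀) g = ∑ i, D.s i • (ρ (D.E i f₀) * E' (D.τ i) g) := by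
    intro f₀ g
    have h1 : S'.ham (ρ f₀) - ∑ i, (D.s i • ρ (D.E i f₀)) • E' (D.τ i) = 0 := by
      refine h.inj _ (S'.isVF_sub (S'.isVF_ham _) (S'.isVF_sum _ _ fun i _ =>
        S'.isVF_smul _ (hE'v _))) fun g => ?_
      rw [Derivation.sub_apply, S'.ham_apply, ← h.br, D.hbr, der_sum_apply, map_sum,
        ← Finset.sum_sub_distrib]
      refine Finset.sum_eq_zero fun i _ => ?_
      rw [Derivation.smul_apply, hE'e, smul_eq_mul, map_smul, map_mul, smul_mul_assoc, sub_self]
    have h2 := congrArg (fun w : Derivation ℝ C C => w g) h1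
    simp only [Derivation.sub_apply, S'.ham_apply, der_sum_apply] at h2
    rw [sub_eq_zero.1 h2]
    refine Finset.sum_congr rfl fun i _ => ?_
    rw [Derivation.smul_apply, smul_eq_mul, smul_mul_assoc]
  have hbr2 : ∀ f g, S'.br f g = ∑ i, D.s i • (E' i f * E' (D.τ i) g) := by
    intro f g
    have h1 : - S'.ham g - ∑ i, (D.s i • E' (D.τ i) g) • E' i = 0 := by
      have hneg : S'.IsVF (- S'.ham g) := by
        have := S'.isVF_sub S'.isVF_zero (S'.isVF_ham g)
        rwa [zero_sub] at this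
      refine h.inj _ (S'.isVF_sub hneg (S'.isVF_sum _ _ fun i _ =>
        S'.isVF_smul _ (hE'v _))) fun f₀ => ?_
      rw [Derivation.sub_apply, Derivation.neg_apply, S'.ham_apply, ← S'.br_swap, hbr1,
        der_sum_apply, ← Finset.sum_sub_distrib]
      refine Finset.sum_eq_zero fun i _ => ?_
      rw [Derivation.smul_apply, hE'e, smul_eq_mul, smul_mul_assoc, mul_comm, sub_self]
    have h2 := congrArg (fun w : Derivation ℝ C C => w f) h1
    simp only [Derivation.sub_apply, Derivation.neg_apply, S'.ham_apply, der_sum_apply] at h2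
    rw [← S'.br_swap] at h2
    rw [sub_eq_zero.1 h2]
    refine Finset.sum_congr rfl fun i _ => ?_
    rw [Derivation.smul_apply, smul_eq_mul, smul_mul_assoc, mul_comm]
  exact ⟨{ E := E', ψ := fun i => ρ (D.ψ i), hEψ := hψ, hEE := hcomm, s := D.s, τ := D.τ,
           hτ := D.hτ, hs := D.hs, hsτ := D.hsτ, hE := hE'v, hbr := hbr2 }, rfl, rfl,
    fun _ => rfl, hE'e⟩

end E214
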